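import Mathlib
import Pool.Agent.W23.DC.Fin4
import Pool.Agent.W52.DC.PT
import Pool.Agent.W120.DC.LN
import Pool.Agent.W586.DC.ER
import Pool.Agent.W378.DC.FA

/-! Project AP (helper296): the coefficients of the weighted lower bound sieve, linear algebra. -/

set_option autoImplicit false

namespace Pool.Agent.Z296.AP

open Finset
open Pool.Agent.W23.DC

/-- the indicator of `a` -/
noncomputable def dlt (a : ℕ) : ℕ → ℝ := fun x => if x = a then 1 else 0

section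
variable {P : Finset ℕ} {t : ℕ → ℝ} {k : ℕ} {b : Bool} {τ ζ : ℝ} {d : ℕ}

theorem LLz (hS : Siz P t) (hτ : 0 ≤ τ) (hb : b = false → 2 * ζ ≤ τ) (r : ℕ → ℝ)
    (hr : ∀ e ∈ EE P t τ ζ, r (d * e) = 0) : LL P t r k b τ ζ d = 0 := by
  have h := Pool.Agent.W586.DC.ER P t hS r k b τ ζ d hτ hb
  have h2 : ∑ e ∈ EE P t τ ζ, |r (d * e)| = 0 := by
    apply Finset.sum_eq_zero
    intro e he
    rw [hr e he, abs_zero]
  rw [h2] at h
  exact abs_eq_zero.1 (le_antisymm h (abs_nonneg _))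

theorem LLs (hS : Siz P t) (hτ : 0 ≤ τ) (hb : b = false → 2 * ζ ≤ τ) (x : ℝ) (G : ℕ → ℝ) :
    LL P t (fun e => x * G e) k b τ ζ d = x * LL P t G k b τ ζ d := by
  have h := Pool.Agent.W120.DC.LN.2.1 P t x G (fun _ => 0) k b τ ζ d
  have h2 := LLz (k := k) (d := d) hS hτ hb (fun _ => (0 : ℝ)) (fun _ _ => rfl)
  rw [h2, add_zero] at h
  simpa using h

/-- linearity -/
theorem LLe (hS : Siz P t) (hτ : 0 ≤ τ) (hb : b = false → 2 * ζ ≤ τ) (Z : ℕ)
    (hZ : ∀ e ∈ EE P t τ ζ, d * e ∈ Icc 1 Z) (r : ℕ → ℝ) :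
    LL P t r k b τ ζ d = ∑ a ∈ Icc 1 Z, LL P t (dlt a) k b τ ζ d * r a := by
  classical
  have h1 := Pool.Agent.W120.DC.LN.1 P t (Icc 1 Z) (fun a e => r a * (if e = a then 1 else 0)) k b
    τ ζ d
  have h2 : ∀ a, LL P t (fun e => r a * (if e = a then (1 : ℝ) else 0)) k b τ ζ d =
      LL P t (dlt a) k b τ ζ d * r a := by
    intro a
    rw [LLs hS hτ hb]
    unfold dlt
    ring
  have h3 := Pool.Agent.W120.DC.LN.2.1 P t 1
    (fun e => ∑ a ∈ Icc 1 Z, r a * (if e = a then (1 : ℝ) else 0))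
    (fun e => if e ∈ Icc 1 Z then 0 else r e) k b τ ζ d
  have h4 : (fun e => 1 * (∑ a ∈ Icc 1 Z, r a * (if e = a then (1 : ℝ) else 0)) +
      (if e ∈ Icc 1 Z then 0 else r e)) = r := by
    funext e
    have h5 : ∑ a ∈ Icc 1 Z, r a * (if e = a then (1 : ℝ) else 0) =
        if e ∈ Icc 1 Z then r e else 0 := by
      simp only [mul_ite, mul_one, mul_zero]
      rw [Finset.sum_ite_eq]
    rw [h5]
    split_ifs <;> simp
  rw [h4] at h3
  rw [h3, LLz hS hτ hb (fun e => if e ∈ Icc 1 Z then 0 else r e)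
    (fun e he => if_pos (hZ e he)), h1]
  rw [add_zero, one_mul]
  exact Finset.sum_congr rfl fun a _ => h2 a

/-- the coefficients are bounded and supported on multiples by `EE` -/
theorem LLd (hS : Siz P t) (hτ : 0 ≤ τ) (hb : b = false → 2 * ζ ≤ τ) (hd : 0 < d) (a : ℕ) :
    |LL P t (dlt a) k b τ ζ d| ≤ 1 ∧
      (LL P t (dlt a) k b τ ζ d ≠ 0 → ∃ e ∈ EE P t τ ζ, d * e = a) := by
  classical
  have h := Pool.Agent.W586.DC.ER P t hS (dlt a) k b τ ζ d hτ hb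
  by_cases hex : ∃ e ∈ EE P t τ ζ, d * e = a
  · refine ⟨?_, fun _ => hex⟩
    obtain ⟨e₀, he₀, hde⟩ := hex
    refine h.trans (le_of_eq ?_)
    rw [Finset.sum_eq_single_of_mem e₀ he₀]
    · unfold dlt
      rw [if_pos hde, abs_one]
    · intro e _ hne
      unfold dlt
      rw [if_neg, abs_zero]
      intro h1
      apply hne
      rw [← hde] at h1
      exact Nat.eq_of_mul_eq_mul_left hd h1
  · have h2 : ∑ e ∈ EE P t τ ζ, |dlt a (d * e)| = 0 := by
      apply Finset.sum_eq_zero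
      intro e he
      unfold dlt
      rw [if_neg (fun h1 => hex ⟨e, he, h1⟩), abs_zero]
    rw [h2] at h
    have h3 : LL P t (dlt a) k b τ ζ d = 0 := abs_eq_zero.1 (le_antisymm h (abs_nonneg _))
    rw [h3, abs_zero]
    exact ⟨zero_le_one, fun h4 => absurd rfl h4⟩

end

/-- the main term at `1 / d` -/
theorem LLm {P : Finset ℕ} {t : ℕ → ℝ} (hS : Siz P t) (k : ℕ) (b : Bool) (τ ζ : ℝ) (d : ℕ)
    (hd : ∀ p ∈ P, t p < ζ → ¬ p ∣ d) :
    LL P t (fun e => 1 / (e : ℝ)) k b τ ζ d =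
      1 / (d : ℝ) * MM P t (fun p => 1 / (p : ℝ)) k b τ ζ :=
  Pool.Agent.W120.DC.LN.2.2 P t hS (fun p => 1 / (p : ℝ)) (fun e => 1 / (e : ℝ))
      (fun d p _ _ => by push_cast; rw [one_div_mul_one_div]) k b τ ζ d hd

end Pool.Agent.Z296.AP
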