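import Mathlib
import Pool.Agent.Z296.AP.Lin
import Pool.Agent.W366.DC.SFX
import Pool.Agent.W505.DC.MI
import Pool.Agent.W505.DC.MT
import Pool.Agent.W378.DC.MP
import Pool.Agent.W120.DC.NU

/-! Project AP (helper296): the coefficients of the weighted lower bound sieve (almost primes `P₂`),
level `111 / 200`, rough moduli outside a small set of primes. -/

set_option autoImplicit false

namespace Pool.Agent.Z296.AP

open Finset Filter Topology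
open Pool.Agent.W23.DC

theorem tt_lt_iff' {N : ℕ} (hN : 2 ≤ N) {p : ℕ} (hp : 0 < p) (u : ℝ) :
    tt N p < u ↔ (p : ℝ) < (N : ℝ) ^ u := by
  have hL : 0 < Real.log N := Real.log_pos (by exact_mod_cast (by omega : 1 < N))
  have hN0 : (0 : ℝ) < N := by exact_mod_cast (by omega : 0 < N)
  have hp0 : (0 : ℝ) < p := by exact_mod_cast hp
  unfold tt
  rw [div_lt_iff₀ hL, ← Real.log_rpow hN0, Real.log_lt_log_iff hp0 (Real.rpow_pos_of_pos hN0 _)]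

theorem le_tt_iff' {N : ℕ} (hN : 2 ≤ N) {p : ℕ} (hp : 0 < p) (u : ℝ) :
    u ≤ tt N p ↔ (N : ℝ) ^ u ≤ (p : ℝ) := by
  rw [← not_lt, ← not_lt, tt_lt_iff' hN hp]

open Classical in
/-- the primes in `(y, X]` outside `Cl` -/
noncomputable def PS (X : ℕ) (y : ℝ) (Cl : Finset ℕ) : Finset ℕ :=
  (Icc 1 X).filter (fun p => p.Prime ∧ y < (p : ℝ) ∧ p ∉ Cl)

open Classical in
/-- the middle primes outside `Cl` -/
noncomputable def QC (X : ℕ) (Cl : Finset ℕ) : Finset ℕ :=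
  (pr X (1 / 7) (119 / 250)).filter (fun p => p ∉ Cl)

/-- the weighted sieve -/
noncomputable def Lam (X K : ℕ) (y : ℝ) (Cl : Finset ℕ) (r : ℕ → ℝ) : ℝ :=
  LL (PS X y Cl) (tt X) r K false (111 / 200) (1 / 7) 1 -
    ∑ q ∈ QC X Cl, cw X q * LL (PS X y Cl) (tt X) r K true (ta X q) (za X q) q

/-- the coefficients -/
noncomputable def bt (X K : ℕ) (y : ℝ) (Cl : Finset ℕ) (a : ℕ) : ℝ := Lam X K y Cl (dlt a)

theorem mem_PS {X : ℕ} {y : ℝ} {Cl : Finset ℕ} {p : ℕ} :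
    p ∈ PS X y Cl ↔ (1 ≤ p ∧ p ≤ X) ∧ p.Prime ∧ y < (p : ℝ) ∧ p ∉ Cl := by
  unfold PS
  rw [Finset.mem_filter, Finset.mem_Icc]

theorem mem_QC {X : ℕ} {Cl : Finset ℕ} {p : ℕ} :
    p ∈ QC X Cl ↔ p ∈ pr X (1 / 7) (119 / 250) ∧ p ∉ Cl := by
  unfold QC
  rw [Finset.mem_filter]

theorem siz' {X : ℕ} (hX : 2 ≤ X) (y : ℝ) (Cl : Finset ℕ) : Siz (PS X y Cl) (tt X) := by
  have hL : 0 < Real.log X := Real.log_pos (by exact_mod_cast (by omega : 1 < X))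
  refine ⟨fun p hp => (mem_PS.1 hp).2.1, fun p hp => ?_, fun p hp q hq => ?_⟩
  · have h2 := (mem_PS.1 hp).2.1.one_lt
    exact div_pos (Real.log_pos (by exact_mod_cast h2)) hL
  · have h2 := (mem_PS.1 hp).2.1.pos
    have h3 := (mem_PS.1 hq).2.1.pos
    unfold tt
    rw [div_lt_div_iff_of_pos_right hL, Real.log_lt_log_iff (by exact_mod_cast h2)
      (by exact_mod_cast h3)]
    exact Nat.cast_lt

/-- elements of `EE` -/
theorem EE_el {X : ℕ} {y : ℝ} {Cl : Finset ℕ} {τ ζ : ℝ} {e : ℕ}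
    (h : e ∈ EE (PS X y Cl) (tt X) τ ζ) :
    e ≠ 0 ∧ Squarefree e ∧ (∀ p : ℕ, p.Prime → p ∣ e → p ∈ PS X y Cl ∧ tt X p < ζ) ∧
      WFac (tt X) τ e := by
  classical
  rw [Pool.Agent.W586.DC.mem_EE] at h
  obtain ⟨⟨s, hs, hse⟩, hw⟩ := h
  have hpr : ∀ p ∈ s, p.Prime := fun p h => (mem_PS.1 (hs p h).1).2.1
  refine ⟨?_, ?_, ?_, hw⟩
  · rw [← hse]
    exact Finset.prod_ne_zero_iff.2 fun p h => (hpr p h).ne_zero
  · rw [← hse]
    exact (Finset.squarefree_prod_of_pairwise_isCoprime (fun p hp q hq hpq => by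
      exact Nat.coprime_iff_isRelPrime.1 ((Nat.coprime_primes (hpr p hp) (hpr q hq)).2 hpq))
      (fun p h => (hpr p h).prime.squarefree))
  · intro p hp hpe
    rw [← hse] at hpe
    exact hs p (Pool.Agent.W586.DC.prime_dvd_prod_mem hpr hp hpe)

/-- the properties of a modulus -/
def Mod (X : ℕ) (y : ℝ) (Cl : Finset ℕ) (a : ℕ) : Prop :=
  1 ≤ a ∧ Squarefree a ∧ (∀ p : ℕ, p.Prime → p ∣ a → y < (p : ℝ) ∧ p ∉ Cl) ∧
    (a : ℝ) ≤ (X : ℝ) ^ (111 / 200 : ℝ) ∧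
    ((a : ℝ) ≤ (X : ℝ) ^ (51 / 100 : ℝ) ∨ FacO X (1 / 500) a)

open Classical in
theorem facR_el {X : ℕ} {ε δ : ℝ} {a : ℕ} (h : a ∈ facR X (111 / 200) ε δ) :
    (a : ℝ) ≤ (X : ℝ) ^ (111 / 200 : ℝ) ∧ ((a : ℝ) ≤ (X : ℝ) ^ (51 / 100 : ℝ) ∨ FacO X δ a) := by
  unfold facR at h
  rw [Finset.mem_filter] at h
  refine ⟨?_, h.2⟩
  have h1 := h.1
  unfold Pool.Agent.H442R2.BX.roughs at h1
  rw [Finset.mem_filter, Finset.mem_Icc] at h1
  exact (Nat.cast_le.2 h1.1.2).trans (Nat.floor_le (Real.rpow_nonneg (Nat.cast_nonneg _) _))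

theorem mod_one {X : ℕ} (hX : 2 ≤ X) (y : ℝ) (Cl : Finset ℕ) : Mod X y Cl 1 := by
  have hX1 : (1 : ℝ) ≤ X := by exact_mod_cast (by omega : 1 ≤ X)
  refine ⟨le_rfl, squarefree_one, fun p hp h => absurd (Nat.dvd_one.1 h) hp.one_lt.ne', ?_, Or.inl ?_⟩
  · rw [Nat.cast_one]
    exact Real.one_le_rpow hX1 (by norm_num)
  · rw [Nat.cast_one]
    exact Real.one_le_rpow hX1 (by norm_num)

theorem mod_e {X : ℕ} (hX : 2 ≤ X) {ε₁ : ℝ} (hε : 0 < ε₁) {Cl : Finset ℕ} {e : ℕ}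
    (h : e ∈ EE (PS X ((X : ℝ) ^ ε₁) Cl) (tt X) (111 / 200) (1 / 7)) :
    Mod X ((X : ℝ) ^ ε₁) Cl e := by
  obtain ⟨h0, hsq, hp, hw⟩ := EE_el h
  rcases Nat.lt_or_ge 1 e with he | he
  · have hpe : ∀ p ∈ e.primeFactors, ε₁ ≤ tt X p := by
      intro p hpm
      have hpp := Nat.prime_of_mem_primeFactors hpm
      have h1 := mem_PS.1 (hp p hpp (Nat.dvd_of_mem_primeFactors hpm)).1
      exact (le_tt_iff' hX hpp.pos _).2 h1.2.2.1.le
    obtain ⟨h3, h4⟩ := facR_el ((Pool.Agent.W378.DC.FA X ε₁ hX hε).1 e he hsq hpe hw)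
    refine ⟨by omega, hsq, fun p hpp hpd => ?_, h3, h4⟩
    have h1 := mem_PS.1 (hp p hpp hpd).1
    exact ⟨h1.2.2.1, h1.2.2.2⟩
  · have : e = 1 := by omega
    rw [this]
    exact mod_one hX _ _

theorem mod_qe {X : ℕ} (hX : 2 ≤ X) {ε₁ : ℝ} (hε : 0 < ε₁) (hε2 : ε₁ ≤ 1 / 25) {Cl : Finset ℕ}
    {q e : ℕ} (hq : q ∈ QC X Cl)
    (h : e ∈ EE (PS X ((X : ℝ) ^ ε₁) Cl) (tt X) (ta X q) (za X q)) :
    Mod X ((X : ℝ) ^ ε₁) Cl (q * e) := by
  have hX1 : (1 : ℝ) < X := by exact_mod_cast (by omega : 1 < X)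
  obtain ⟨h0, hsq, hp, hw⟩ := EE_el h
  obtain ⟨hq1, hqC⟩ := mem_QC.1 hq
  obtain ⟨hq2, hqp, hq3, hq4⟩ := mem_pr.1 hq1
  have hza : za X q ≤ 1 / 7 := min_le_left _ _
  have hpe : ∀ p ∈ e.primeFactors, ε₁ ≤ tt X p := by
    intro p hpm
    have hpp := Nat.prime_of_mem_primeFactors hpm
    have h1 := mem_PS.1 (hp p hpp (Nat.dvd_of_mem_primeFactors hpm)).1
    exact (le_tt_iff' hX hpp.pos _).2 h1.2.2.1.le
  have hqe : ¬ q ∣ e := by
    intro h1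
    have h2 := (hp q hqp h1).2
    linarith
  have hcop : Nat.Coprime q e := (hqp.coprime_iff_not_dvd).2 hqe
  have hmem := (Pool.Agent.W378.DC.FA X ε₁ hX hε).2 q e (Lv (tt X q)) hqp hqe h0 hsq hpe
    (by linarith) (by
      unfold Lv
      split_ifs with h
      · linarith
      · linarith) (by
      unfold Lv
      split_ifs with h <;> norm_num) (by
      unfold Lv
      split_ifs with h
      · linarith
      · linarith) hw
  obtain ⟨h3, h4⟩ := facR_el hmem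
  refine ⟨?_, (Nat.squarefree_mul hcop).2 ⟨hqp.prime.squarefree, hsq⟩, ?_, h3, h4⟩
  · exact Nat.one_le_iff_ne_zero.2 (mul_ne_zero hqp.ne_zero h0)
  · intro p hpp hpd
    rcases (hpp.dvd_mul).1 hpd with h1 | h1
    · have h2 : p = q := (Nat.prime_dvd_prime_iff_eq hpp hqp).1 h1
      rw [h2]
      refine ⟨?_, hqC⟩
      have h5 := (le_tt_iff' hX hqp.pos _).1 hq3
      refine lt_of_lt_of_le ?_ h5
      exact Real.rpow_lt_rpow_of_exponent_lt hX1 (by linarith)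
    · have h2 := mem_PS.1 (hp p hpp h1).1
      exact ⟨h2.2.2.1, h2.2.2.2⟩

section
variable {X K : ℕ} {ε₁ : ℝ} {Cl : Finset ℕ}

theorem ta0 {q : ℕ} (hq : q ∈ QC X Cl) : 0 ≤ ta X q := by
  have := ta_pos (mem_QC.1 hq).1
  linarith

theorem bt_supp (hX : 2 ≤ X) (hε : 0 < ε₁) (hε2 : ε₁ ≤ 1 / 25) {a : ℕ}
    (h : bt X K ((X : ℝ) ^ ε₁) Cl a ≠ 0) : Mod X ((X : ℝ) ^ ε₁) Cl a := by
  classical
  have hS := siz' hX ((X : ℝ) ^ ε₁) Cl
  unfold bt Lam at h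
  by_cases h1 : LL (PS X ((X : ℝ) ^ ε₁) Cl) (tt X) (dlt a) K false (111 / 200) (1 / 7) 1 = 0
  · rw [h1, zero_sub, neg_ne_zero] at h
    obtain ⟨q, hq, hne⟩ := Finset.exists_ne_zero_of_sum_ne_zero h
    have h2 : LL (PS X ((X : ℝ) ^ ε₁) Cl) (tt X) (dlt a) K true (ta X q) (za X q) q ≠ 0 := by
      intro h3
      rw [h3, mul_zero] at hne
      exact hne rfl
    have hqp := (mem_pr.1 (mem_QC.1 hq).1).2.1
    obtain ⟨e, he, hde⟩ := (LLd hS (ta0 hq) (fun h => by cases h) hqp.pos a).2 h2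
    rw [← hde]
    exact mod_qe hX hε hε2 hq he
  · obtain ⟨e, he, hde⟩ := (LLd hS (by norm_num) (fun _ => by norm_num) one_pos a).2 h1
    rw [← hde, one_mul]
    exact mod_e hX hε he

theorem bt_le (hX : 2 ≤ X) (a : ℕ) : |bt X K ((X : ℝ) ^ ε₁) Cl a| ≤ 3 := by
  classical
  have hS := siz' hX ((X : ℝ) ^ ε₁) Cl
  have h1 := (LLd (k := K) (b := false) (τ := 111 / 200) (ζ := 1 / 7) hS (by norm_num)
    (fun _ => by norm_num) one_pos a).1
  have h2 : |∑ q ∈ QC X Cl, cw X q *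
      LL (PS X ((X : ℝ) ^ ε₁) Cl) (tt X) (dlt a) K true (ta X q) (za X q) q| ≤ 19 / 17 := by
    have hcw : ∀ q ∈ QC X Cl, 0 ≤ cw X q ∧ cw X q ≤ 19 / 17 := fun q hq =>
      ⟨cw_nonneg q (mem_QC.1 hq).1, cw_le hX q (mem_QC.1 hq).1⟩
    by_cases hz : ∀ q ∈ QC X Cl, LL (PS X ((X : ℝ) ^ ε₁) Cl) (tt X) (dlt a) K true (ta X q) (za X q) q = 0
    · rw [Finset.sum_eq_zero (fun q hq => by rw [hz q hq, mul_zero]), abs_zero]
      norm_num
    · push Not at hz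
      obtain ⟨q, hq, hne⟩ := hz
      have hqp := (mem_pr.1 (mem_QC.1 hq).1).2.1
      obtain ⟨hb, hex⟩ := LLd (k := K) (b := true) (ζ := za X q) hS (ta0 hq) (fun h => by cases h)
        hqp.pos a
      obtain ⟨e, he, hde⟩ := hex hne
      rw [Finset.sum_eq_single_of_mem q hq]
      · rw [abs_mul, abs_of_nonneg (hcw q hq).1]
        calc cw X q * |LL (PS X ((X : ℝ) ^ ε₁) Cl) (tt X) (dlt a) K true (ta X q) (za X q) q| ≤
            19 / 17 * 1 := mul_le_mul (hcw q hq).2 hb (abs_nonneg _) (by norm_num)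
          _ = 19 / 17 := mul_one _
      · intro q' hq' hqq
        have hqp' := (mem_pr.1 (mem_QC.1 hq').1).2.1
        by_contra hne'
        have h3 : LL (PS X ((X : ℝ) ^ ε₁) Cl) (tt X) (dlt a) K true (ta X q') (za X q') q' ≠ 0 := by
          intro h4
          rw [h4, mul_zero] at hne'
          exact hne' rfl
        obtain ⟨e', he', hde'⟩ := (LLd hS (ta0 hq') (fun h => by cases h) hqp'.pos a).2 h3
        have hd : q' ∣ q * e := by rw [hde, ← hde']; exact Dvd.intro _ rfl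
        rcases (hqp'.dvd_mul).1 hd with h5 | h5
        · exact hqq ((Nat.prime_dvd_prime_iff_eq hqp' hqp).1 h5)
        · obtain ⟨-, -, hp, -⟩ := EE_el he
          have h6 := (hp q' hqp' h5).2
          have h7 := (mem_pr.1 (mem_QC.1 hq').1).2.2.1
          have h8 : za X q ≤ 1 / 7 := min_le_left _ _
          linarith
  unfold bt Lam
  calc _ ≤ |LL (PS X ((X : ℝ) ^ ε₁) Cl) (tt X) (dlt a) K false (111 / 200) (1 / 7) 1| +
      |∑ q ∈ QC X Cl, cw X q *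
        LL (PS X ((X : ℝ) ^ ε₁) Cl) (tt X) (dlt a) K true (ta X q) (za X q) q| := abs_sub _ _
    _ ≤ 1 + 19 / 17 := add_le_add h1 h2
    _ ≤ 3 := by norm_num

theorem Lam_eq (hX : 2 ≤ X) (hε : 0 < ε₁) (hε2 : ε₁ ≤ 1 / 25) (Z : ℕ)
    (hZ : ⌊(X : ℝ) ^ (111 / 200 : ℝ)⌋₊ ≤ Z) (r : ℕ → ℝ) :
    Lam X K ((X : ℝ) ^ ε₁) Cl r = ∑ a ∈ Icc 1 Z, bt X K ((X : ℝ) ^ ε₁) Cl a * r a := by
  classical
  have hS := siz' hX ((X : ℝ) ^ ε₁) Cl
  have hin : ∀ a, Mod X ((X : ℝ) ^ ε₁) Cl a → a ∈ Icc 1 Z := by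
    intro a ha
    rw [Finset.mem_Icc]
    exact ⟨ha.1, (Nat.le_floor ha.2.2.2.1).trans hZ⟩
  have h1 := LLe (k := K) (b := false) (τ := 111 / 200) (ζ := 1 / 7) (d := 1) hS (by norm_num)
    (fun _ => by norm_num) Z (fun e he => by
      rw [one_mul]
      exact hin e (mod_e hX hε he)) r
  have h2 : ∀ q ∈ QC X Cl, cw X q *
      LL (PS X ((X : ℝ) ^ ε₁) Cl) (tt X) r K true (ta X q) (za X q) q =
      ∑ a ∈ Icc 1 Z, (cw X q * LL (PS X ((X : ℝ) ^ ε₁) Cl) (tt X) (dlt a) K true (ta X q)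
        (za X q) q) * r a := by
    intro q hq
    rw [LLe (k := K) (b := true) (d := q) hS (ta0 hq)
      (fun h => by cases h) Z (fun e he => hin _ (mod_qe hX hε hε2 hq he)) r, Finset.mul_sum]
    exact Finset.sum_congr rfl fun a _ => by ring
  unfold bt Lam
  rw [h1, Finset.sum_congr rfl h2, Finset.sum_comm, ← Finset.sum_sub_distrib]
  refine Finset.sum_congr rfl fun a _ => ?_
  rw [← Finset.sum_mul]
  ring

end

end Pool.Agent.Z296.AP
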