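import Mathlib
import Pool.Agent.Z296.AP.Sv

/-! Project AP (helper296): the main term of the weighted lower bound sieve. -/

set_option autoImplicit false

namespace Pool.Agent.Z296.AP

open Finset Filter Topology
open Pool.Agent.W23.DC

theorem merPS (ε₁ η₁ w : ℝ) (hε₁ : 0 < ε₁) (hε1 : ε₁ ≤ 1) (hη₁ : 0 < η₁) (hw : w ≤ 1) :
    ∃ N₀ : ℕ, ∀ X : ℕ, N₀ ≤ X → ∀ Cl : Finset ℕ, (Cl.card : ℝ) ≤ (Real.log X) ^ 2 →
      Mer (PS X ((X : ℝ) ^ ε₁) Cl) (tt X) (fun p => 1 / (p : ℝ)) ε₁ w η₁ := by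
  classical
  obtain ⟨N₁, hN₁⟩ := Pool.Agent.W378.DC.MP ε₁ (η₁ / 4) hε₁ (by positivity)
  set C₀ : ℝ := 4 / η₁ * (Real.log (1 / ε₁) + η₁) + 2 with hC₀
  have hbig : ∃ N₂ : ℕ, ∀ N : ℕ, N₂ ≤ N →
      4 / η₁ * ((Real.log N) ^ 2 + 1) ≤ (N : ℝ) ^ ε₁ ∧ C₀ ≤ (N : ℝ) ^ ε₁ := by
    have h1 : Tendsto (fun x : ℝ => (Real.log x) ^ 2 / x ^ ε₁) atTop (𝓝 0) := by
      have h0 := isLittleO_log_rpow_rpow_atTop (s := ε₁) 2 hε₁
      have h2 := h0.tendsto_div_nhds_zero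
      refine h2.congr fun x => ?_
      norm_num
    have h2 : Tendsto (fun x : ℝ => 1 / x ^ ε₁) atTop (𝓝 0) :=
      Tendsto.const_div_atTop (tendsto_rpow_atTop hε₁) 1
    have h3 := (h1.add h2).const_mul (4 / η₁)
    rw [add_zero, mul_zero] at h3
    have h4 := (h3.comp tendsto_natCast_atTop_atTop).eventually (gt_mem_nhds one_pos)
    have h5 := ((tendsto_rpow_atTop hε₁).comp tendsto_natCast_atTop_atTop).eventually
      (eventually_ge_atTop C₀)
    obtain ⟨N₂, h6⟩ := Filter.eventually_atTop.1 (h4.and h5)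
    refine ⟨max N₂ 1, fun N hN => ?_⟩
    obtain ⟨h7, h8⟩ := h6 N ((le_max_left _ _).trans hN)
    simp only [Function.comp_apply] at h7 h8
    have hN0 : (0 : ℝ) < N := by
      have : 1 ≤ N := (le_max_right _ _).trans hN
      exact_mod_cast this
    have h9 : 0 < (N : ℝ) ^ ε₁ := Real.rpow_pos_of_pos hN0 _
    rw [← add_div, mul_div_assoc', div_lt_one h9] at h7
    exact ⟨h7.le, h8⟩
  obtain ⟨N₂, hN₂⟩ := hbig
  refine ⟨max N₁ (max N₂ 2), ?_⟩
  intro X hX Cl hCl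
  have hX1 : N₁ ≤ X := (le_max_left _ _).trans hX
  have hX2 : N₂ ≤ X := ((le_max_left _ _).trans (le_max_right _ _)).trans hX
  have hX3 : 2 ≤ X := ((le_max_right _ _).trans (le_max_right _ _)).trans hX
  have hXr1 : (1 : ℝ) < X := by exact_mod_cast (by omega : 1 < X)
  have hXr0 : (0 : ℝ) < X := by linarith
  have hlog : 0 < Real.log X := Real.log_pos hXr1
  obtain ⟨hg1, hg2⟩ := hN₂ X hX2
  set y : ℝ := (X : ℝ) ^ ε₁ with hy
  have hle1 : 0 ≤ Real.log (1 / ε₁) := by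
    apply Real.log_nonneg
    rw [le_div_iff₀ hε₁]
    linarith
  have hy2 : 2 ≤ y := by
    refine le_trans ?_ hg2
    rw [hC₀]
    have : 0 ≤ 4 / η₁ * (Real.log (1 / ε₁) + η₁) := by positivity
    linarith
  have hy0 : 0 < y := by linarith
  set t : ℕ → ℝ := tt X with ht
  set P : Finset ℕ := PS X y Cl with hP
  have hPm : ∀ p, p ∈ P ↔ (1 ≤ p ∧ p ≤ X) ∧ p.Prime ∧ y < (p : ℝ) ∧ p ∉ Cl := fun p => mem_PS
  intro a c hεa hac hcθ
  have hMP := hN₁ X hX1 a c hεa hac (by linarith)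
  set S := pr X a c with hSd
  set Q := P.filter (fun p => a ≤ t p ∧ t p < c) with hQd
  have hSm : ∀ p, p ∈ S ↔ (1 ≤ p ∧ p ≤ X) ∧ p.Prime ∧ a ≤ tt X p ∧ tt X p < c := by
    intro p
    rw [hSd]
    unfold pr
    rw [Finset.mem_filter, Finset.mem_Icc]
  have hQS : Q ⊆ S := by
    intro p hp
    rw [hQd, Finset.mem_filter] at hp
    obtain ⟨h1, h2⟩ := hp
    have h3 := (hPm p).1 h1
    rw [hSm]
    exact ⟨h3.1, h3.2.1, h2.1, h2.2⟩
  have hSy : ∀ p ∈ S, y ≤ (p : ℝ) ∧ 2 ≤ (p : ℝ) := by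
    intro p hp
    obtain ⟨-, hpr, h1, -⟩ := (hSm p).1 hp
    have hp0 : (0 : ℝ) < p := by exact_mod_cast hpr.pos
    refine ⟨?_, by exact_mod_cast hpr.two_le⟩
    unfold tt at h1
    rw [le_div_iff₀ hlog] at h1
    have h2 : ε₁ * Real.log X ≤ Real.log p :=
      (mul_le_mul_of_nonneg_right hεa hlog.le).trans h1
    rw [hy, ← Real.log_le_log_iff (Real.rpow_pos_of_pos hXr0 _) hp0, Real.log_rpow hXr0]
    exact h2
  have e1 : ∑ p ∈ S, 1 / ((p : ℝ) - 1) = ∑ p ∈ Q, 1 / (p : ℝ) +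
      (∑ p ∈ S \ Q, 1 / (p : ℝ) + ∑ p ∈ S, (1 / ((p : ℝ) - 1) - 1 / (p : ℝ))) := by
    rw [Finset.sum_sub_distrib, ← Finset.sum_sdiff hQS]
    ring_nf
    rw [← Finset.sum_sdiff hQS (f := fun p : ℕ => ((p : ℝ))⁻¹)]
    ring
  have e2 : 0 ≤ ∑ p ∈ S, (1 / ((p : ℝ) - 1) - 1 / (p : ℝ)) := by
    apply Finset.sum_nonneg
    intro p hp
    have h1 := (hSy p hp).2
    have h2 : 1 / (p : ℝ) ≤ 1 / ((p : ℝ) - 1) :=
      one_div_le_one_div_of_le (by linarith) (by linarith)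
    linarith
  have e3 : ∑ p ∈ S, (1 / ((p : ℝ) - 1) - 1 / (p : ℝ)) ≤ η₁ / 4 := by
    have h1 : ∑ p ∈ S, (1 / ((p : ℝ) - 1) - 1 / (p : ℝ)) ≤
        ∑ p ∈ S, 1 / y * (1 / ((p : ℝ) - 1)) := by
      apply Finset.sum_le_sum
      intro p hp
      obtain ⟨h2, h3⟩ := hSy p hp
      have h4 : 1 / ((p : ℝ) - 1) - 1 / (p : ℝ) = 1 / (p : ℝ) * (1 / ((p : ℝ) - 1)) := by
        have : (p : ℝ) - 1 ≠ 0 := by linarith
        have : (p : ℝ) ≠ 0 := by linarith
        field_simp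
        ring
      rw [h4]
      apply mul_le_mul_of_nonneg_right _ (by
        apply one_div_nonneg.2
        linarith)
      exact one_div_le_one_div_of_le hy0 h2
    rw [← Finset.mul_sum] at h1
    have h2 : ∑ p ∈ S, 1 / ((p : ℝ) - 1) ≤ Real.log (1 / ε₁) + η₁ := by
      have h3 := (abs_le.1 hMP).2
      have h4 : Real.log (c / a) ≤ Real.log (1 / ε₁) := by
        have ha0 : 0 < a := by linarith
        apply Real.log_le_log (by
          have : 0 < c := by linarith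
          positivity)
        rw [div_le_div_iff₀ ha0 hε₁]
        nlinarith
      linarith
    refine h1.trans ?_
    have h5 : 4 / η₁ * (Real.log (1 / ε₁) + η₁) ≤ y := by
      refine le_trans ?_ hg2
      rw [hC₀]
      linarith
    have h6 : Real.log (1 / ε₁) + η₁ ≤ η₁ / 4 * y := by
      have h7 := mul_le_mul_of_nonneg_left h5 (by positivity : 0 ≤ η₁ / 4)
      have h8 : η₁ / 4 * (4 / η₁ * (Real.log (1 / ε₁) + η₁)) = Real.log (1 / ε₁) + η₁ := by
        field_simp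
      rw [h8] at h7
      exact h7
    calc 1 / y * ∑ p ∈ S, 1 / ((p : ℝ) - 1) ≤ 1 / y * (η₁ / 4 * y) := by
          apply mul_le_mul_of_nonneg_left (h2.trans h6) (by positivity)
      _ = η₁ / 4 := by field_simp
  have e4 : ∑ p ∈ S \ Q, 1 / (p : ℝ) ≤ η₁ / 4 := by
    have hsub : S \ Q ⊆ Cl ∪ {⌊y⌋₊} := by
      intro p hp
      rw [Finset.mem_sdiff] at hp
      obtain ⟨hpS, hpQ⟩ := hp
      rw [Finset.mem_union, Finset.mem_singleton]
      by_cases hpC : p ∈ Cl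
      · exact Or.inl hpC
      · right
        have h1 := (hSm p).1 hpS
        have h2 := (hSy p hpS).1
        have h3 : ¬ y < (p : ℝ) := by
          intro h4
          apply hpQ
          rw [hQd, Finset.mem_filter, hPm]
          exact ⟨⟨h1.1, h1.2.1, h4, hpC⟩, h1.2.2.1, h1.2.2.2⟩
        have h4 : y = (p : ℝ) := le_antisymm h2 (not_lt.1 h3)
        rw [h4, Nat.floor_natCast]
    have h1 : ∑ p ∈ S \ Q, 1 / (p : ℝ) ≤ ∑ _p ∈ S \ Q, 1 / y := by
      apply Finset.sum_le_sum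
      intro p hp
      exact one_div_le_one_div_of_le hy0 (hSy p (Finset.mem_sdiff.1 hp).1).1
    rw [Finset.sum_const, nsmul_eq_mul] at h1
    have h2 : (((S \ Q).card : ℕ) : ℝ) ≤ (Real.log X) ^ 2 + 1 := by
      have h3 : (S \ Q).card ≤ Cl.card + 1 := by
        refine (Finset.card_le_card hsub).trans ?_
        refine (Finset.card_union_le _ _).trans ?_
        rw [Finset.card_singleton]
      have h4 : (((S \ Q).card : ℕ) : ℝ) ≤ (Cl.card : ℝ) + 1 := by exact_mod_cast h3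
      linarith
    refine h1.trans ?_
    have h6 : (Real.log X) ^ 2 + 1 ≤ η₁ / 4 * y := by
      have h7 := mul_le_mul_of_nonneg_left hg1 (by positivity : 0 ≤ η₁ / 4)
      have h8 : η₁ / 4 * (4 / η₁ * ((Real.log X) ^ 2 + 1)) = (Real.log X) ^ 2 + 1 := by
        field_simp
      rw [h8] at h7
      exact h7
    calc (((S \ Q).card : ℕ) : ℝ) * (1 / y) ≤ (η₁ / 4 * y) * (1 / y) := by
          apply mul_le_mul_of_nonneg_right (h2.trans h6) (by positivity)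
      _ = η₁ / 4 := by field_simp
  have e5 : 0 ≤ ∑ p ∈ S \ Q, 1 / (p : ℝ) := Finset.sum_nonneg fun p _ => by positivity
  rw [e1] at hMP
  have h7 := abs_le.1 hMP
  show |∑ p ∈ Q, 1 / (p : ℝ) - Real.log (c / a)| ≤ η₁
  rw [abs_le]
  constructor <;> linarith [h7.1, h7.2]

theorem one_div_le_g' {p : ℕ} (hp : p.Prime) : 1 / (p : ℝ) ≤ 1 / ((p : ℝ) - 1) := by
  have hp2 : (2 : ℝ) ≤ p := by exact_mod_cast hp.two_le
  exact one_div_le_one_div_of_le (by linarith) (by linarith)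

/-- the main term of the weighted sieve -/
theorem lam_low : ∃ c₀ : ℝ, 0 < c₀ ∧ ∀ ε₁ : ℝ, 0 < ε₁ → ε₁ ≤ 1 / 25 → ∃ N₀ : ℕ, ∀ X : ℕ, N₀ ≤ X →
    ∀ Cl : Finset ℕ, (Cl.card : ℝ) ≤ (Real.log X) ^ 2 →
      c₀ * ε₁ ≤ Lam X ⌈1 / ε₁⌉₊ ((X : ℝ) ^ ε₁) Cl (fun e => 1 / (e : ℝ)) := by
  classical
  obtain ⟨A0, F, f, hS⟩ := Pool.Agent.W366.DC.SFX
  set J : ℝ := 19 / 17 * ((∫ x in (1 / 7 : ℝ)..(11 / 25),
      (1 - x / (119 / 250)) / (x * (111 / 200 - x))) +
    ∫ x in (11 / 25 : ℝ)..(119 / 250), (1 - x / (119 / 250)) / (x * (261 / 500 - x))) with hJ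
  set Z : ℝ := Real.log (577 / 200) / (111 / 200) with hZ
  have hJZ : J < Z := Pool.Agent.W120.DC.NU
  set c₂ : ℝ := Z - J with hc₂
  have hc₂0 : 0 < c₂ := by rw [hc₂]; linarith
  have hA0 := hS.pos
  refine ⟨A0 * c₂ / 2, by positivity, ?_⟩
  intro ε₁ hε hε2
  obtain ⟨η, hη0, HM⟩ := Pool.Agent.W505.DC.MT Pool.Agent.W505.DC.MI A0 F f hS ε₁
    (ε₁ * A0 * c₂ / 32) ⌈1 / ε₁⌉₊ hε (by linarith) (by positivity)
  obtain ⟨N₁, hN₁⟩ := merPS ε₁ η (1 / 7) hε (by linarith) hη0 (by norm_num)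
  obtain ⟨N₂, hN₂⟩ := QS Pool.Agent.W505.DC.MI Pool.Agent.W378.DC.MP (c₂ / 4) (by positivity)
  obtain ⟨N₃, hN₃⟩ := Pool.Agent.W378.DC.MP (1 / 7) 1 (by norm_num) one_pos
  refine ⟨max (max N₁ N₂) (max N₃ 2), ?_⟩
  intro N hN Cl hCl
  have hNN₁ : N₁ ≤ N := ((le_max_left _ _).trans (le_max_left _ _)).trans hN
  have hNN₂ : N₂ ≤ N := ((le_max_right _ _).trans (le_max_left _ _)).trans hN
  have hNN₃ : N₃ ≤ N := ((le_max_left _ _).trans (le_max_right _ _)).trans hN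
  have hN2 : 2 ≤ N := ((le_max_right _ _).trans (le_max_right _ _)).trans hN
  have hSz := siz' hN2 ((N : ℝ) ^ ε₁) Cl
  set P := PS N ((N : ℝ) ^ ε₁) Cl with hP
  set Q := QC N Cl with hQ
  set g : ℕ → ℝ := fun p => 1 / (p : ℝ) with hg
  set K := ⌈1 / ε₁⌉₊ with hK
  have hKε : 1 ≤ (K + 2) * ε₁ := by
    have h1 : 1 / ε₁ ≤ K := Nat.le_ceil _
    have h2 : 1 / ε₁ * ε₁ = 1 := by field_simp
    nlinarith
  have hg0 : ∀ p ∈ P, 0 ≤ g p := fun p _ => by rw [hg]; positivity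
  have hPt : ∀ p ∈ P, ε₁ ≤ tt N p := by
    intro p hp
    have h1 := mem_PS.1 hp
    exact (le_tt_iff' hN2 h1.2.1.pos _).2 h1.2.2.1.le
  have HM' := HM P (tt N) g (1 / 7) (by norm_num) hg0 hPt
    (hN₁ N hNN₁ Cl hCl) K le_rfl
  have hQp : ∀ q ∈ Q, q ∈ pr N (1 / 7) (119 / 250) := fun q hq => (mem_QC.1 hq).1
  -- the main terms
  have hminus : ε₁ * A0 * Z - ε₁ * A0 * c₂ / 32 ≤ MM P (tt N) g K false (111 / 200) (1 / 7) := by
    have h1 := (HM' (111 / 200) (1 / 7) (by linarith) (by linarith) le_rfl (by norm_num)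
      (by norm_num)).2 (by norm_num)
    have h2 : ε₁ / (1 / 7) * f (111 / 200 / (1 / 7)) = ε₁ * A0 * Z := by
      rw [hS.f4 _ (by norm_num) (by norm_num), hZ]
      have : (111 / 200 / (1 / 7) - 1 : ℝ) = 577 / 200 := by norm_num
      rw [this]
      ring
    rw [h2] at h1
    exact h1
  have hplus : ∀ q ∈ Q, MM P (tt N) g K true (ta N q) (za N q) ≤
      ε₁ * A0 / ta N q + ε₁ * A0 * c₂ / 32 := by
    intro q hq'
    have hq := hQp q hq'
    have h0 := ta_pos hq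
    have h1 := ta_le hq
    have h2 : za N q ≤ ta N q := min_le_right _ _
    have h3 : ε₁ ≤ za N q := le_min (by linarith) (by linarith)
    have h4 : ta N q ≤ 1 := by
      have := (mem_pr.1 hq).2.2.1
      unfold ta Lv
      split_ifs <;> linarith
    have h5 := (HM' (ta N q) (za N q) (by linarith) h3 (min_le_left _ _) h2 h4).1
    have h6 : 0 < za N q := by linarith
    have h7 : ε₁ / za N q * F (ta N q / za N q) = ε₁ * A0 / ta N q := by
      rw [hS.F3 _ ((one_le_div h6).2 h2) ((div_le_iff₀ h6).2 h1)]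
      field_simp
    rw [h7] at h5
    exact h5
  have e1 : LL P (tt N) (fun e => 1 / (e : ℝ)) K false (111 / 200) (1 / 7) 1 =
      MM P (tt N) g K false (111 / 200) (1 / 7) := by
    rw [LLm hSz K false (111 / 200) (1 / 7) 1
      (fun p hp _ h => (mem_PS.1 hp).2.1.one_lt.ne' (Nat.dvd_one.1 h)), Nat.cast_one, div_one,
      one_mul]
  have e2 : ∀ q ∈ Q, LL P (tt N) (fun e => 1 / (e : ℝ)) K true (ta N q) (za N q) q =
      1 / (q : ℝ) * MM P (tt N) g K true (ta N q) (za N q) := by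
    intro q hq
    refine LLm hSz K true (ta N q) (za N q) q (fun p hp h0 h => ?_)
    have h4 := (Nat.prime_dvd_prime_iff_eq (mem_PS.1 hp).2.1 (mem_pr.1 (hQp q hq)).2.1).1 h
    have h6 := (mem_pr.1 (hQp q hq)).2.2.1
    have h7 : za N q ≤ 1 / 7 := min_le_left _ _
    rw [h4] at h0
    linarith
  -- the sum over `q`
  have hgle : ∀ q ∈ Q, g q ≤ 1 / ((q : ℝ) - 1) := fun q hq =>
    one_div_le_g' (mem_pr.1 (hQp q hq)).2.1
  have hq1 : ∑ q ∈ Q, g q * (cw N q / ta N q) ≤ J + c₂ / 4 := by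
    have h1 := hN₂ N hNN₂
    refine le_trans ?_ h1
    calc ∑ q ∈ Q, g q * (cw N q / ta N q) ≤ ∑ q ∈ Q, 1 / ((q : ℝ) - 1) *
          (19 / 17 * (1 - tt N q / (119 / 250)) / (Lv (tt N q) - tt N q)) := by
          refine sum_le_sum fun q hq => ?_
          have h2 := cw_nonneg q (hQp q hq)
          have h3 := ta_pos (hQp q hq)
          have h4 : 0 ≤ cw N q / ta N q := div_nonneg h2 (by linarith)
          exact mul_le_mul_of_nonneg_right (hgle q hq) h4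
      _ ≤ _ := by
          apply Finset.sum_le_sum_of_subset_of_nonneg (fun q hq => hQp q hq)
          intro q hq _
          have h2 := cw_nonneg q hq
          have h3 := ta_pos hq
          have h4 : 0 ≤ cw N q / ta N q := div_nonneg h2 (by linarith)
          exact mul_nonneg (g_nonneg q hq) h4
  have hq2 : ∑ q ∈ Q, g q ≤ 3 := by
    have h1 := (abs_le.1 (hN₃ N hNN₃ (1 / 7) (119 / 250) le_rfl (by norm_num) (by norm_num))).2
    have h2 : Real.log (119 / 250 / (1 / 7)) ≤ 2 := by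
      rw [Real.log_le_iff_le_exp (by norm_num)]
      have h3 := Real.add_one_le_exp (1 : ℝ)
      have h4 : Real.exp 2 = Real.exp 1 * Real.exp 1 := by
        rw [← Real.exp_add]
        norm_num
      nlinarith
    have h3 : ∑ q ∈ Q, g q ≤ ∑ q ∈ pr N (1 / 7) (119 / 250), 1 / ((q : ℝ) - 1) :=
      (sum_le_sum hgle).trans (Finset.sum_le_sum_of_subset_of_nonneg (fun q hq => hQp q hq)
        (fun q hq _ => g_nonneg q hq))
    linarith
  have hq3 : ∑ q ∈ Q, cw N q * (1 / (q : ℝ) * MM P (tt N) g K true (ta N q) (za N q)) ≤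
      ε₁ * A0 * (J + c₂ / 4) + ε₁ * A0 * c₂ / 32 * (19 / 17 * 3) := by
    calc ∑ q ∈ Q, cw N q * (1 / (q : ℝ) * MM P (tt N) g K true (ta N q) (za N q))
        ≤ ∑ q ∈ Q, (ε₁ * A0 * (g q * (cw N q / ta N q)) +
            ε₁ * A0 * c₂ / 32 * (19 / 17 * g q)) := by
          apply Finset.sum_le_sum
          intro q hq
          have h1 := hplus q hq
          have h2 := cw_nonneg q (hQp q hq)
          have h3 := cw_le hN2 q (hQp q hq)
          have h4 : 0 ≤ g q := by rw [hg]; positivity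
          have h5 := ta_pos (hQp q hq)
          calc cw N q * (g q * MM P (tt N) g K true (ta N q) (za N q))
              ≤ cw N q * (g q * (ε₁ * A0 / ta N q + ε₁ * A0 * c₂ / 32)) := by gcongr
            _ = ε₁ * A0 * (g q * (cw N q / ta N q)) +
                ε₁ * A0 * c₂ / 32 * (cw N q * g q) := by ring
            _ ≤ _ := by gcongr
      _ = ε₁ * A0 * (∑ q ∈ Q, g q * (cw N q / ta N q)) +
            ε₁ * A0 * c₂ / 32 * (19 / 17 * ∑ q ∈ Q, g q) := by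
          rw [Finset.sum_add_distrib, ← Finset.mul_sum, ← Finset.mul_sum, ← Finset.mul_sum]
      _ ≤ _ := by
          have h1 : 0 ≤ ε₁ * A0 := by positivity
          have h2 : 0 ≤ ε₁ * A0 * c₂ / 32 := by positivity
          gcongr
  have hfin : A0 * c₂ / 2 * ε₁ ≤
      (ε₁ * A0 * Z - ε₁ * A0 * c₂ / 32) -
      (ε₁ * A0 * (J + c₂ / 4) + ε₁ * A0 * c₂ / 32 * (19 / 17 * 3)) := by
    have h1 : (ε₁ * A0 * Z - ε₁ * A0 * c₂ / 32) -
      (ε₁ * A0 * (J + c₂ / 4) + ε₁ * A0 * c₂ / 32 * (19 / 17 * 3)) =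
        (ε₁ * A0 * c₂) * (1 - 1 / 32 - 1 / 4 - 57 / 544) := by
      rw [hc₂]
      ring
    rw [h1]
    have h2 : 0 ≤ ε₁ * A0 * c₂ := by positivity
    nlinarith
  unfold Lam
  rw [← hP, ← hQ, e1, Finset.sum_congr rfl (fun q hq => by rw [e2 q hq])]
  linarith

end Pool.Agent.Z296.AP
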