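import Mathlib
import Pool.Agent.Z296.AP.Sv2
import Pool.Agent.W25.UB.Stm

/-! Project AP (helper296): the weighted lower bound sieve, final form. -/

set_option autoImplicit false

namespace Pool.Agent.Z296.AP

open Finset Filter Topology
open Pool.Agent.W23.DC
open Pool.Agent.W25.UB (ds)

/-- from positive weight to an almost prime -/
theorem lam_pt {X K : ℕ} (hX : 2 ≤ X) {ε₁ : ℝ} {Cl : Finset ℕ} (n : ℕ) (hn0 : n ≠ 0)
    (hnX : (n : ℝ) ≤ (X : ℝ) ^ (1001 / 1000 : ℝ))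
    (hn1 : ∀ p : ℕ, p.Prime → (p : ℝ) ≤ (X : ℝ) ^ ε₁ → ¬ p ∣ n) (hn2 : ∀ p ∈ Cl, ¬ p ∣ n)
    (hn3 : ∀ q : ℕ, q.Prime → (X : ℝ) ^ (1 / 7 : ℝ) ≤ q → ¬ q ^ 2 ∣ n)
    (hL : 0 < Lam X K ((X : ℝ) ^ ε₁) Cl (fun e => if e ∣ n then 1 else 0)) :
    n.primeFactorsList.length ≤ 2 ∧ ∀ q : ℕ, q.Prime → q ∣ n → (X : ℝ) ^ (1 / 7 : ℝ) ≤ q := by
  classical
  have hX1 : (1 : ℝ) < X := by exact_mod_cast (by omega : 1 < X)
  have hX0 : (0 : ℝ) < X := by linarith
  have hlog : 0 < Real.log X := Real.log_pos hX1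
  have hS := siz' hX ((X : ℝ) ^ ε₁) Cl
  set P := PS X ((X : ℝ) ^ ε₁) Cl with hP
  have hQp : ∀ q ∈ QC X Cl, q ∈ pr X (1 / 7) (119 / 250) := fun q hq => (mem_QC.1 hq).1
  have hcw : ∀ q ∈ QC X Cl, 0 ≤ cw X q := fun q hq => cw_nonneg q (hQp q hq)
  have h1 := (Pool.Agent.W52.DC.PT P (tt X) hS n K (111 / 200) (1 / 7) 1
    (fun p hp _ h => (hS.pr p hp).one_lt.ne' (Nat.dvd_one.1 h))).2
  have h2 : ∀ q ∈ QC X Cl,
      (if q ∣ n ∧ ∀ p ∈ P, tt X p < za X q → ¬ p ∣ n then (1 : ℝ) else 0) ≤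
      LL P (tt X) (fun e => if e ∣ n then 1 else 0) K true (ta X q) (za X q) q := by
    intro q hq
    refine (Pool.Agent.W52.DC.PT P (tt X) hS n K (ta X q) (za X q) q (fun p hp h0 h => ?_)).1
    have h4 := (Nat.prime_dvd_prime_iff_eq (mem_PS.1 hp).2.1 (mem_pr.1 (hQp q hq)).2.1).1 h
    have h6 := (mem_pr.1 (hQp q hq)).2.2.1
    have h7 : za X q ≤ 1 / 7 := min_le_left _ _
    rw [h4] at h0
    linarith
  have h3 : ∀ q ∈ QC X Cl, 0 ≤
      LL P (tt X) (fun e => if e ∣ n then 1 else 0) K true (ta X q) (za X q) q := by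
    intro q hq
    refine le_trans ?_ (h2 q hq)
    split_ifs <;> norm_num
  have hI : ∀ p ∈ P, tt X p < 1 / 7 → ¬ p ∣ n := by
    by_contra hc
    have h4 : LL P (tt X) (fun e => if e ∣ n then 1 else 0) K false (111 / 200) (1 / 7) 1 ≤ 0 := by
      refine h1.trans (le_of_eq ?_)
      rw [if_neg]
      rintro ⟨-, h5⟩
      exact hc h5
    have h5 : 0 ≤ ∑ q ∈ QC X Cl, cw X q *
        LL P (tt X) (fun e => if e ∣ n then 1 else 0) K true (ta X q) (za X q) q :=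
      Finset.sum_nonneg fun q hq => mul_nonneg (hcw q hq) (h3 q hq)
    unfold Lam at hL
    rw [← hP] at hL
    linarith
  have hsum : ∑ q ∈ (QC X Cl).filter (fun q => q ∣ n), cw X q < 1 := by
    have h4 : LL P (tt X) (fun e => if e ∣ n then 1 else 0) K false (111 / 200) (1 / 7) 1 ≤ 1 := by
      refine h1.trans ?_
      split_ifs <;> norm_num
    have h5 : ∑ q ∈ (QC X Cl).filter (fun q => q ∣ n), cw X q ≤ ∑ q ∈ QC X Cl, cw X q *
        LL P (tt X) (fun e => if e ∣ n then 1 else 0) K true (ta X q) (za X q) q := by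
      rw [Finset.sum_filter]
      refine Finset.sum_le_sum fun q hq => ?_
      split_ifs with hqn
      · have h6 : (1 : ℝ) ≤ LL P (tt X) (fun e => if e ∣ n then 1 else 0) K true (ta X q)
            (za X q) q := by
          have h7 := h2 q hq
          rw [if_pos ⟨hqn, fun p hp hz => hI p hp (lt_of_lt_of_le hz (min_le_left _ _))⟩] at h7
          exact h7
        calc cw X q = cw X q * 1 := (mul_one _).symm
          _ ≤ _ := mul_le_mul_of_nonneg_left h6 (hcw q hq)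
      · exact mul_nonneg (hcw q hq) (h3 q hq)
    unfold Lam at hL
    rw [← hP] at hL
    linarith
  -- all the prime factors are large
  have hbig : ∀ q : ℕ, q.Prime → q ∣ n → (X : ℝ) ^ (1 / 7 : ℝ) ≤ q := by
    intro q hq hqn
    by_contra hc
    rw [not_le] at hc
    have h4 : tt X q < 1 / 7 := (tt_lt_iff' hX hq.pos _).2 hc
    have h5 : (X : ℝ) ^ ε₁ < q := not_le.1 fun h => hn1 q hq h hqn
    refine hI q (mem_PS.2 ⟨⟨hq.pos, ?_⟩, hq, h5, fun h => hn2 q h hqn⟩) h4 hqn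
    have h6 : (X : ℝ) ^ (1 / 7 : ℝ) ≤ X := by
      calc (X : ℝ) ^ (1 / 7 : ℝ) ≤ (X : ℝ) ^ (1 : ℝ) :=
            Real.rpow_le_rpow_of_exponent_le hX1.le (by norm_num)
        _ = X := Real.rpow_one _
    exact_mod_cast hc.le.trans h6
  have hsq : Squarefree n := by
    rw [Nat.squarefree_iff_prime_squarefree]
    intro q hq hqn
    exact hn3 q hq (hbig q hq ((Dvd.intro _ rfl).trans hqn)) (by rw [sq]; exact hqn)
  refine ⟨?_, hbig⟩
  set S : Finset ℕ := n.primeFactors with hSd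
  have hSp : ∀ q ∈ S, q.Prime ∧ q ∣ n ∧ (X : ℝ) ^ (1 / 7 : ℝ) ≤ q := by
    intro q hq
    rw [hSd, Nat.mem_primeFactors] at hq
    exact ⟨hq.1, hq.2.1, hbig q hq.1 hq.2.1⟩
  have hcard : n.primeFactorsList.length = S.card := by
    rw [← ArithmeticFunction.cardFactors_apply,
      ← (ArithmeticFunction.cardDistinctFactors_eq_cardFactors_iff_squarefree hn0).2 hsq,
      ArithmeticFunction.cardDistinctFactors_apply]
    rfl
  rw [hcard]
  by_contra hgt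
  have h3' : (3 : ℝ) ≤ S.card := by exact_mod_cast (by omega : 3 ≤ S.card)
  have hsz : ∑ q ∈ S, tt X q ≤ 1 + 1 / 1000 := by
    unfold tt
    rw [← Finset.sum_div, ← Real.log_prod (fun q hq => by
      have := (hSp q hq).1.ne_zero
      exact_mod_cast this), div_le_iff₀ hlog]
    have h4 : (∏ q ∈ S, (q : ℝ)) = (n : ℝ) := by
      have h5 := Nat.prod_primeFactors_of_squarefree hsq
      conv_rhs => rw [← h5]
      push_cast
      rfl
    rw [h4]
    have h6 : Real.log n ≤ Real.log ((X : ℝ) ^ (1001 / 1000 : ℝ)) :=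
      Real.log_le_log (by exact_mod_cast Nat.pos_of_ne_zero hn0) hnX
    rw [Real.log_rpow hX0] at h6
    linarith
  have h8 : ∑ q ∈ S, cw X q = 19 / 17 * (S.card - 250 / 119 * ∑ q ∈ S, tt X q) := by
    unfold cw
    rw [← Finset.mul_sum, Finset.sum_sub_distrib, Finset.sum_const, nsmul_eq_mul, mul_one,
      ← Finset.sum_div]
    ring
  have h9 : ∑ q ∈ S, cw X q ≤ ∑ q ∈ (QC X Cl).filter (fun q => q ∣ n), cw X q := by
    have h10 : ∑ q ∈ S, cw X q ≤ ∑ q ∈ S.filter (fun q => tt X q < 119 / 250), cw X q := by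
      rw [← Finset.sum_filter_add_sum_filter_not S (fun q => tt X q < 119 / 250)]
      have : ∑ q ∈ S.filter (fun q => ¬ tt X q < 119 / 250), cw X q ≤ 0 := by
        apply Finset.sum_nonpos
        intro q hq
        have h11 := not_lt.1 (mem_filter.1 hq).2
        unfold cw
        have : 1 ≤ tt X q / (119 / 250) := by
          rw [one_le_div (by norm_num)]
          exact h11
        nlinarith
      linarith
    refine h10.trans ?_
    apply Finset.sum_le_sum_of_subset_of_nonneg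
    · intro q hq
      rw [mem_filter] at hq
      obtain ⟨h13, h14, h15⟩ := hSp q hq.1
      rw [mem_filter]
      refine ⟨mem_QC.2 ⟨mem_pr.2 ⟨⟨h13.pos, ?_⟩, h13, (le_tt_iff' hX h13.pos _).2 h15, hq.2⟩,
        fun h => hn2 q h h14⟩, h14⟩
      have h16 := (tt_lt_iff' hX h13.pos _).1 hq.2
      have h2 : (X : ℝ) ^ (119 / 250 : ℝ) ≤ X := by
        calc (X : ℝ) ^ (119 / 250 : ℝ) ≤ (X : ℝ) ^ (1 : ℝ) :=
              Real.rpow_le_rpow_of_exponent_le hX1.le (by norm_num)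
          _ = X := Real.rpow_one _
      exact_mod_cast (h16.le.trans h2)
    · intro q hq _
      exact hcw q (mem_filter.1 hq).1
  rw [h8] at h9
  nlinarith

theorem ds_abs (b : ℕ → ℝ) (Z : ℕ) (m : ℤ) :
    ds b Z m = ∑ e ∈ Icc 1 Z, b e * (if e ∣ m.natAbs then 1 else 0) := by
  unfold ds
  refine Finset.sum_congr rfl fun d _ => ?_
  have h : ((d : ℤ) ∣ m) ↔ d ∣ m.natAbs := Int.natCast_dvd
  simp only [h]

/-- **the weighted lower bound sieve**: coefficients of mean exactly `f₀ ε₁` -/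
theorem svP : ∃ f₀ : ℝ, 0 < f₀ ∧ f₀ ≤ 1 ∧ ∀ ε₁ : ℝ, 0 < ε₁ → ε₁ ≤ 1 / 25 → ∃ X₀ : ℕ, ∀ X : ℕ,
    X₀ ≤ X → ∀ Cl : Finset ℕ, (Cl.card : ℝ) ≤ (Real.log X) ^ 2 → ∃ b : ℕ → ℝ,
      (∀ d, |b d| ≤ 1) ∧ (∀ d, b d ≠ 0 → Mod X ((X : ℝ) ^ ε₁) Cl d) ∧
      ∀ Z : ℕ, ⌊(X : ℝ) ^ (111 / 200 : ℝ)⌋₊ ≤ Z →
        ∑ d ∈ Icc 1 Z, b d / (d : ℝ) = f₀ * ε₁ ∧
        ∀ m : ℤ, m ≠ 0 → |(m : ℝ)| ≤ (X : ℝ) ^ (1001 / 1000 : ℝ) →
          (∀ p : ℕ, p.Prime → (p : ℝ) ≤ (X : ℝ) ^ ε₁ → ¬ (p : ℤ) ∣ m) →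
          (∀ p ∈ Cl, ¬ (p : ℤ) ∣ m) →
          (∀ q : ℕ, q.Prime → (X : ℝ) ^ (1 / 7 : ℝ) ≤ q → ¬ ((q : ℤ) ^ 2 ∣ m)) →
          0 < ds b Z m →
          m.natAbs.primeFactorsList.length ≤ 2 ∧
            ∀ q : ℕ, q.Prime → (q : ℤ) ∣ m → (X : ℝ) ^ (1 / 7 : ℝ) ≤ q := by
  classical
  obtain ⟨c₀', hc₀', H⟩ := lam_low
  obtain ⟨c₀, hc₀d⟩ : ∃ c₀ : ℝ, c₀ = min c₀' 1 := ⟨_, rfl⟩
  have hc₀ : 0 < c₀ := by rw [hc₀d]; exact lt_min hc₀' one_pos
  have hc₁ : c₀ ≤ c₀' := by rw [hc₀d]; exact min_le_left _ _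
  have hc₂ : c₀ ≤ 1 := by rw [hc₀d]; exact min_le_right _ _
  refine ⟨c₀ / 3, by positivity, by linarith, ?_⟩
  intro ε₁ hε hε2
  obtain ⟨N₀, hN₀⟩ := H ε₁ hε hε2
  refine ⟨max N₀ 2, fun X hX Cl hCl => ?_⟩
  have hX2 : 2 ≤ X := (le_max_right _ _).trans hX
  have hlow := hN₀ X ((le_max_left _ _).trans hX) Cl hCl
  set K := ⌈1 / ε₁⌉₊ with hK
  set y : ℝ := (X : ℝ) ^ ε₁ with hy
  set Λ : ℝ := Lam X K y Cl (fun e => 1 / (e : ℝ)) with hΛ
  have hcε : c₀ * ε₁ ≤ Λ := by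
    refine le_trans ?_ hlow
    exact mul_le_mul_of_nonneg_right hc₁ hε.le
  have hΛ0 : 0 < Λ := lt_of_lt_of_le (by positivity) hcε
  set s : ℝ := c₀ / 3 * ε₁ / Λ with hs
  have hs0 : 0 < s := by positivity
  have hs1 : s ≤ 1 / 3 := by
    rw [hs, div_le_iff₀ hΛ0]
    linarith
  refine ⟨fun d => s * bt X K y Cl d, ?_, ?_, ?_⟩
  · intro d
    have h1 := bt_le (K := K) (ε₁ := ε₁) (Cl := Cl) hX2 d
    rw [abs_mul, abs_of_pos hs0]
    calc s * |bt X K y Cl d| ≤ 1 / 3 * 3 := mul_le_mul hs1 h1 (abs_nonneg _) (by norm_num)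
      _ = 1 := by norm_num
  · intro d hd
    have h1 : bt X K y Cl d ≠ 0 := fun h => hd (by simp [h])
    exact bt_supp hX2 hε hε2 h1
  · intro Z hZ
    have hE := fun r => Lam_eq (K := K) (Cl := Cl) hX2 hε hε2 Z hZ r
    constructor
    · have h1 := hE (fun e => 1 / (e : ℝ))
      have h2 : ∑ d ∈ Icc 1 Z, s * bt X K y Cl d / (d : ℝ) = s * Λ := by
        rw [hΛ, h1, Finset.mul_sum]
        exact Finset.sum_congr rfl fun d _ => by ring
      rw [h2, hs]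
      field_simp
    · intro m hm0 hmX hm1 hm2 hm3 hds
      have h1 : ds (fun d => s * bt X K y Cl d) Z m =
          s * Lam X K y Cl (fun e => if e ∣ m.natAbs then 1 else 0) := by
        rw [ds_abs, hE, Finset.mul_sum]
        exact Finset.sum_congr rfl fun d _ => by ring
      rw [h1] at hds
      have h2 := (mul_pos_iff_of_pos_left hs0).1 hds
      obtain ⟨h3, h4⟩ := lam_pt (K := K) (ε₁ := ε₁) (Cl := Cl) hX2 m.natAbs
        (Int.natAbs_ne_zero.2 hm0) (by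
          rw [Nat.cast_natAbs, Int.cast_abs]
          exact hmX)
        (fun p hp hpy h => hm1 p hp hpy (Int.natCast_dvd.2 h))
        (fun p hp h => hm2 p hp (Int.natCast_dvd.2 h))
        (fun q hq hqX h => hm3 q hq hqX (by
          have h5 : ((q ^ 2 : ℕ) : ℤ) ∣ m := Int.natCast_dvd.2 h
          exact_mod_cast h5)) h2
      exact ⟨h3, fun q hq hqm => h4 q hq (Int.natCast_dvd.1 hqm)⟩

end Pool.Agent.Z296.AP
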