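import Mathlib
import Pool.Agent.Y827.LS.Core
import Pool.Agent.Z296.AP.DatM

/-! Project AP (helper296): most weight is carried by points with an almost prime value in every
class (Chebyshev's inequality for the weighted lower bound sieve). -/

set_option autoImplicit false

namespace Pool.Agent.Z296.AP

open Finset Filter Topology
open Pool.Agent.H410R2 hiding GP GP_prof GP_cut_some GP_cut_none GP_lip gg_pos gg_le_one gg_anti ee_bound ee_nonneg gg_lip LB_gg LB_ee Sums exists_sums yx wx wxi Br sum_GP_none sum_GP_some sum_GP_some_ee sum_GP_some_one sum_GPr_none sum_GPr_some S1_final QI_final S2_final w_abs_le wmax gg ee I1 I2 IE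
open Pool.Agent.H361R2.GM
open Pool.Agent.H362R2.CM
open Pool.Agent.W25.UN
open Pool.Agent.W25.UB
open Pool.Agent.TH899.UG
open Pool.Agent.W804.UBUD
open Pool.Agent.H442R2.KF (Wt)
open Pool.Agent.W23.PL (DW Ev hat xx)
open Pool.Agent.Y827.LS

/-- the variance constant of the small sieve part -/
noncomputable def vAc (Q : SPar) (T K : ℕ) (g0 ε₁ ε : ℝ) : ℝ :=
  K * (2 * (g0 * udc Q (T * K) ε₁ ε)) + (K : ℝ) ^ 2 * g0 ^ 2 * qc Q (T * K) ε₁ ε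

/-- the variance constant of one block -/
noncomputable def vBc (Q : SPar) (T K : ℕ) (ε₁ ρ CR κ ε : ℝ) : ℝ :=
  K * (4 * CR ^ 2 * ((ρ / ε₁) * udc Q (T * K) ε₁ ε)) +
    (K : ℝ) ^ 2 * (ρ / ε₁) ^ 2 * ofc Q (T * K) CR κ ε₁ ε

/-- the variance of the small sieve part -/
theorem varA {T K : ℕ} {Q : SPar} {α h : Fin (T * K) → ℤ} {ε₁ ρ ρ₁ ε : ℝ}
    {Mo A E₁ D B N v D₁ : ℕ} {Tr : ℤ → ℝ} {t : ℝ} {th dl : ℕ → ℝ}
    (h0 : St_U0F) (h1 : St_L1F) (h2 : St_U2F) (hd : St_UDF)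
    (hI1 : ε < Q.I1) (hI2 : ε < Q.I2) (hBr2 : 0 < Br2 Q (T * K) ε)
    (H : DatB Q α h Mo ε₁ ρ ρ₁ ε A E₁ D B N v D₁ Tr t th dl)
    (β₀ : ℝ) (hβ0 : 0 ≤ β₀) (hβ1 : β₀ ≤ 1) (g0 : ℝ) (hggle : β₀ * gB α h Mo N B ε₁ ρ ≤ g0)
    (i : Fin (T * K)) (J : Finset (Fin (T * K))) (hJ : i ∉ J) (hJK : J.card ≤ K) :
    Summable (fun n => muF Q α h Mo ρ ρ₁ D B N v Tr i n * (∑ j ∈ J, (β₀ * FF α h Mo ε₁ B N j n -
      β₀ * gB α h Mo N B ε₁ ρ * (Q.I1 ^ 2 / Q.I2))) ^ 2) ∧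
    ∑' n, muF Q α h Mo ρ ρ₁ D B N v Tr i n * (∑ j ∈ J, (β₀ * FF α h Mo ε₁ B N j n -
      β₀ * gB α h Mo N B ε₁ ρ * (Q.I1 ^ 2 / Q.I2))) ^ 2 ≤
      MMF α h Mo D N B ρ * vAc Q T K g0 ε₁ ε := by
  have hε := H.ε0
  have hI1p : 0 < Q.I1 := hε.trans hI1
  have hI2p : 0 < Q.I2 := hε.trans hI2
  have h1ε : 0 < 1 - ε := by linarith [H.ε3]
  have hε₁ := H.e10
  have hρ := H.ρ0
  set g' : ℝ := gB α h Mo N B ε₁ ρ with hg'
  have hgp' : 0 < g' := gB_pos H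
  set g : ℝ := β₀ * g' with hg
  have hgp : 0 ≤ g := by positivity
  have hg0p : 0 ≤ g0 := hgp.trans hggle
  have hMM : 0 < MMF α h Mo D N B ρ := MMF_pos H
  set m0 : ℝ := MMF α h Mo D N B ρ with hm0
  have hudc : 0 ≤ udc Q (T * K) ε₁ ε := by unfold udc; positivity
  have hu2c : 0 ≤ u2c Q (T * K) ε₁ ε := by unfold u2c; positivity
  set τ : ℝ := Q.I1 ^ 2 / Q.I2 with hτ
  have hτp : 0 < τ := by positivity
  have hqc : 0 ≤ qc Q (T * K) ε₁ ε := le_max_left _ _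
  have hqc' : u2c Q (T * K) ε₁ ε - 2 * τ * l1c Q (T * K) ε₁ ε +
      τ ^ 2 * r0c Q (T * K) ε ≤ qc Q (T * K) ε₁ ε := le_max_right _ _
  have hvg : vGF α h Mo N B 1 ε₁ * bb N B ρ = g' := rfl
  obtain ⟨hmu0, hsμ, hU0⟩ := h0 (T * K) Q α h Mo (-2) ε₁ ρ ρ₁ ε 1 1 A E₁ D B N v D₁ 1 Tr t th dl Pool.Agent.W804.UBUD.dlt
    hI1p hI2p H i
  have hne : ∀ j ∈ J, i ≠ j := fun j hj hij => hJ (hij ▸ hj)
  have hL1 := fun j (hj : j ∈ J) => h1 (T * K) Q α h Mo (-2) ε₁ ρ ρ₁ ε 1 1 A E₁ D B N v D₁ 1 Tr t th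
    dl Pool.Agent.W804.UBUD.dlt hI1p hI2p hI1 hI2 hBr2 H i j (hne j hj)
  have hU2 := fun j (hj : j ∈ J) l (hl : l ∈ J) (hjl : j ≠ l) => h2 (T * K) Q α h Mo (-2) ε₁ ρ ρ₁ ε 1
    1 A E₁ D B N v D₁ 1 Tr t th dl Pool.Agent.W804.UBUD.dlt hI1p hI2p H i j l (hne j hj) (hne l hl) hjl
  have hUD := fun j (hj : j ∈ J) => hd (T * K) Q α h Mo (-2) ε₁ ρ ρ₁ ε 1 1 A E₁ D B N v D₁ 1 Tr t th
    dl Pool.Agent.W804.UBUD.dlt hI1p hI2p H i j (hne j hj)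
  simp only [sjF_dlt] at hL1 hU2 hUD
  rw [hvg] at hL1 hU2 hUD
  set s : Fin (T * K) → ℤ → ℝ := fun j n => β₀ * FF α h Mo ε₁ B N j n with hs
  have e1 : ∀ j n, muF Q α h Mo ρ ρ₁ D B N v Tr i n * s j n =
      β₀ * (muF Q α h Mo ρ ρ₁ D B N v Tr i n * FF α h Mo ε₁ B N j n) := by
    intro j n
    rw [hs]
    ring
  have e2 : ∀ j l n, muF Q α h Mo ρ ρ₁ D B N v Tr i n * (s j n * s l n) =
      β₀ ^ 2 * (muF Q α h Mo ρ ρ₁ D B N v Tr i n *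
        (FF α h Mo ε₁ B N j n * FF α h Mo ε₁ B N l n)) := by
    intro j l n
    rw [hs]
    ring
  have e3 : ∀ j n, muF Q α h Mo ρ ρ₁ D B N v Tr i n * s j n ^ 2 =
      β₀ ^ 2 * (muF Q α h Mo ρ ρ₁ D B N v Tr i n * FF α h Mo ε₁ B N j n ^ 2) := by
    intro j n
    rw [hs]
    ring
  have hβ2 : β₀ ^ 2 ≤ β₀ := by nlinarith
  obtain ⟨hsV, hV'⟩ := tsum_centred (muF Q α h Mo ρ ρ₁ D B N v Tr i)
    s J (g * τ) (m0 * r0c Q (T * K) ε)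
    (m0 * g * l1c Q (T * K) ε₁ ε) (m0 * g ^ 2 * u2c Q (T * K) ε₁ ε)
    (2 * (m0 * g * udc Q (T * K) ε₁ ε)) (by positivity) (by positivity) hsμ
    hU0 (fun j hj => by
      simp only [e1]
      exact (hL1 j hj).1.mul_left _) (fun j hj => by
      simp only [e1]
      rw [tsum_mul_left]
      calc m0 * g * l1c Q (T * K) ε₁ ε = β₀ * (m0 * g' * l1c Q (T * K) ε₁ ε) := by rw [hg]; ring
        _ ≤ _ := mul_le_mul_of_nonneg_left (hL1 j hj).2 hβ0)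
    (fun j hj => by
      simp only [e3]
      exact (hUD j hj).1.mul_left _) (fun j hj => by
      simp only [e3]
      rw [tsum_mul_left]
      have h4 := (hUD j hj).2
      have h5 : 0 ≤ 2 * 1 * (m0 * g' * udc Q (T * K) ε₁ ε) := by positivity
      calc β₀ ^ 2 * ∑' n : ℤ, muF Q α h Mo ρ ρ₁ D B N v Tr i n * FF α h Mo ε₁ B N j n ^ 2 ≤
          β₀ ^ 2 * (2 * 1 * (m0 * g' * udc Q (T * K) ε₁ ε)) :=
            mul_le_mul_of_nonneg_left h4 (sq_nonneg _)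
        _ ≤ β₀ * (2 * 1 * (m0 * g' * udc Q (T * K) ε₁ ε)) :=
            mul_le_mul_of_nonneg_right hβ2 h5
        _ = _ := by rw [hg]; ring)
    (fun j hj l hl hjl => by
      simp only [e2]
      exact (hU2 j hj l hl hjl).1.mul_left _) (fun j hj l hl hjl => by
      simp only [e2]
      rw [tsum_mul_left]
      have h4 := (hU2 j hj l hl hjl).2
      calc β₀ ^ 2 * ∑' n : ℤ, muF Q α h Mo ρ ρ₁ D B N v Tr i n *
          (FF α h Mo ε₁ B N j n * FF α h Mo ε₁ B N l n) ≤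
          β₀ ^ 2 * (m0 * g' ^ 2 * u2c Q (T * K) ε₁ ε) :=
            mul_le_mul_of_nonneg_left h4 (sq_nonneg _)
        _ = _ := by rw [hg]; ring)
  have hJc : (J.card : ℝ) ≤ K := by exact_mod_cast hJK
  have hJ0 : (0 : ℝ) ≤ J.card := Nat.cast_nonneg _
  have hVb : (J.card : ℝ) * (2 * (m0 * g * udc Q (T * K) ε₁ ε)) +
      (J.card : ℝ) ^ 2 * (m0 * g ^ 2 * u2c Q (T * K) ε₁ ε -
        2 * (g * τ) * (m0 * g * l1c Q (T * K) ε₁ ε) +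
        (g * τ) ^ 2 * (m0 * r0c Q (T * K) ε)) ≤ m0 * vAc Q T K g0 ε₁ ε := by
    have e1 : (J.card : ℝ) * (2 * (m0 * g * udc Q (T * K) ε₁ ε)) ≤
        m0 * (K * (2 * (g0 * udc Q (T * K) ε₁ ε))) := by
      calc (J.card : ℝ) * (2 * (m0 * g * udc Q (T * K) ε₁ ε)) ≤
          K * (2 * (m0 * g0 * udc Q (T * K) ε₁ ε)) := by gcongr
        _ = _ := by ring
    have e2 : (J.card : ℝ) ^ 2 * (m0 * g ^ 2 * u2c Q (T * K) ε₁ ε -
        2 * (g * τ) * (m0 * g * l1c Q (T * K) ε₁ ε) +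
        (g * τ) ^ 2 * (m0 * r0c Q (T * K) ε)) ≤
        m0 * ((K : ℝ) ^ 2 * g0 ^ 2 * qc Q (T * K) ε₁ ε) := by
      calc (J.card : ℝ) ^ 2 * (m0 * g ^ 2 * u2c Q (T * K) ε₁ ε -
            2 * (g * τ) * (m0 * g * l1c Q (T * K) ε₁ ε) +
            (g * τ) ^ 2 * (m0 * r0c Q (T * K) ε)) =
          (J.card : ℝ) ^ 2 * (m0 * g ^ 2 * (u2c Q (T * K) ε₁ ε -
            2 * τ * l1c Q (T * K) ε₁ ε + τ ^ 2 * r0c Q (T * K) ε)) := by ring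
        _ ≤ (J.card : ℝ) ^ 2 * (m0 * g ^ 2 * qc Q (T * K) ε₁ ε) := by gcongr
        _ ≤ (K : ℝ) ^ 2 * (m0 * g0 ^ 2 * qc Q (T * K) ε₁ ε) := by gcongr
        _ = _ := by ring
    calc _ ≤ m0 * (K * (2 * (g0 * udc Q (T * K) ε₁ ε))) +
        m0 * ((K : ℝ) ^ 2 * g0 ^ 2 * qc Q (T * K) ε₁ ε) := add_le_add e1 e2
      _ = _ := by unfold vAc; ring
  exact ⟨hsV, hV'.trans hVb⟩

/-- the square root bookkeeping -/
theorem root_alg (F m0 c a b nb : ℝ) (hF : 0 ≤ F) (hm : 0 ≤ m0) (hc : 0 ≤ c) (hnb : 0 ≤ nb)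
    (h : c * F ≤ Real.sqrt (2 * F * (m0 * a)) + nb * Real.sqrt (2 * F * (m0 * b))) :
    F * c ^ 2 ≤ 2 * m0 * (Real.sqrt a + nb * Real.sqrt b) ^ 2 := by
  rcases hF.lt_or_eq with hF0 | hF0
  · have e1 : Real.sqrt (2 * F * (m0 * a)) = Real.sqrt (2 * F * m0) * Real.sqrt a := by
      rw [← mul_assoc, Real.sqrt_mul (by positivity)]
    have e2 : Real.sqrt (2 * F * (m0 * b)) = Real.sqrt (2 * F * m0) * Real.sqrt b := by
      rw [← mul_assoc, Real.sqrt_mul (by positivity)]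
    rw [e1, e2] at h
    have h1 : c * F ≤ Real.sqrt (2 * F * m0) * (Real.sqrt a + nb * Real.sqrt b) := by
      refine h.trans (le_of_eq ?_)
      ring
    have h2 : (c * F) ^ 2 ≤ (Real.sqrt (2 * F * m0) * (Real.sqrt a + nb * Real.sqrt b)) ^ 2 :=
      pow_le_pow_left₀ (by positivity) h1 2
    rw [mul_pow, mul_pow, Real.sq_sqrt (by positivity)] at h2
    have h3 : F * (F * c ^ 2) ≤ F * (2 * m0 * (Real.sqrt a + nb * Real.sqrt b) ^ 2) := by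
      calc F * (F * c ^ 2) = c ^ 2 * F ^ 2 := by ring
        _ ≤ _ := h2
        _ = _ := by ring
    exact le_of_mul_le_mul_left h3 hF0
  · rw [← hF0, zero_mul]
    positivity

theorem lowL {T K nb : ℕ} {Q : SPar} {α h : Fin (T * K) → ℤ} {θ ε₁ ρ ρ₁ ε η CR κ g0 f₀ : ℝ}
    {Mo A E₁ D B N v D₁ Z : ℕ} {Tr : ℤ → ℝ} {t : ℝ} {th dl b : ℕ → ℝ} {Zb : ℕ → ℕ}
    {cb : ℕ → ℕ → ℝ} {bm : ℕ → ℝ} {cbm : ℕ → ℕ → ℝ}
    (h0 : St_U0F) (h1 : St_L1F) (h2 : St_U2F) (hd : St_UDF) (hNWU : St_NWU) (hNWE : St_NWE)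
    (hI1 : ε < Q.I1) (hI2 : ε < Q.I2) (hBr2 : 0 < Br2 Q (T * K) ε) (hCR : 1 ≤ CR) (hκ : 0 ≤ κ)
    (hf₀ : 0 < f₀) (hf₁ : f₀ ≤ 1) (hg0ρ : f₀ * ρ ≤ g0)
    (H : DatM Q α h Mo θ ε₁ ρ ρ₁ ε η CR κ g0 f₀ nb A E₁ D B N v D₁ Z Tr t th dl b Zb cb bm cbm)
    (hHB : HB h Mo N) (hnd : Nd α h Mo)
    (i : Fin (T * K)) (J : Finset (Fin (T * K))) (hJ : i ∉ J) (hJK : J.card = K)
    (S : Finset ℕ) (f : ℕ → ℝ) (hf0 : ∀ n ∈ S, 0 ≤ f n)
    (hf : ∀ n ∈ S, f n ≤ 2 * muF Q α h Mo ρ ρ₁ D B N v Tr i n)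
    (hneg : ∀ n ∈ S, f n * ∑ j ∈ J, FF α h Mo ε₁ B N j n *
      ds bm Z (Lf α h Mo (some j) n) ≤ 0) :
    (∑ n ∈ S, f n) * (K * (f₀ / 8 * ρ * (Q.I1 ^ 2 / Q.I2))) ^ 2 ≤
      2 * MMF α h Mo D N B ρ * (Real.sqrt (vAc Q T K g0 ε₁ ε) +
        nb * Real.sqrt (vBc Q T K ε₁ ρ CR κ ε)) ^ 2 := by
  have HL := H.dL
  have HB' := HL.dB
  have hε := HB'.ε0
  have hε₁ := HB'.e10
  have hε₁1 := HB'.e11
  have hρ := HB'.ρ0
  have h1ε : 0 < 1 - ε := by linarith [HB'.ε3]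
  have hI1p : 0 < Q.I1 := hε.trans hI1
  have hI2p : 0 < Q.I2 := hε.trans hI2
  set τ : ℝ := Q.I1 ^ 2 / Q.I2 with hτ
  have hτp : 0 < τ := by positivity
  have hg' := gB_pos HB'
  have hm0 := MMF_pos HB'
  set m0 : ℝ := MMF α h Mo D N B ρ with hm0d
  set β₀ : ℝ := f₀ * ε₁ with hβ
  have hβ0 : 0 ≤ β₀ := by positivity
  have hβ1 : β₀ ≤ 1 := by
    rw [hβ]
    have : f₀ * ε₁ ≤ 1 * 1 := mul_le_mul hf₁ (by linarith) hε₁.le zero_le_one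
    linarith
  have hgg : β₀ * gB α h Mo N B ε₁ ρ ≤ g0 := by
    refine le_trans ?_ hg0ρ
    calc β₀ * gB α h Mo N B ε₁ ρ ≤ β₀ * (ρ / ε₁) := mul_le_mul_of_nonneg_left HL.gle hβ0
      _ = f₀ * ρ := by rw [hβ]; field_simp
  have hg0p : 0 ≤ g0 := le_trans (by positivity) hg0ρ
  have hsμ : ∀ i : Fin (T * K), Summable (muF Q α h Mo ρ ρ₁ D B N v Tr i) := fun i =>
    (h0 (T * K) Q α h Mo (-2) ε₁ ρ ρ₁ ε 1 1 A E₁ D B N v D₁ 1 Tr t th dl Pool.Agent.W804.UBUD.dlt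
      hI1p hI2p HB' i).2.1
  have hmu0 := muF_nonneg HB' i
  have hudc : 0 ≤ udc Q (T * K) ε₁ ε := by unfold udc; positivity
  have hofc : 0 ≤ ofc Q (T * K) CR κ ε₁ ε := by unfold ofc u2c; positivity
  have hqc : 0 ≤ qc Q (T * K) ε₁ ε := le_max_left _ _
  have hvA : 0 ≤ vAc Q T K g0 ε₁ ε := by unfold vAc; positivity
  have hvB : 0 ≤ vBc Q T K ε₁ ρ CR κ ε := by unfold vBc; positivity
  -- the small sieve part
  obtain ⟨hsA, hVA⟩ := varA h0 h1 h2 hd hI1 hI2 hBr2 HB' β₀ hβ0 hβ1 g0 hgg i J hJ hJK.le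
  set G : ℝ := β₀ * gB α h Mo N B ε₁ ρ with hG
  have esq : ∀ n : ℤ, muF Q α h Mo ρ ρ₁ D B N v Tr i n *
      (∑ j ∈ J, (-(β₀ * FF α h Mo ε₁ B N j n) - -(G * τ))) ^ 2 =
      muF Q α h Mo ρ ρ₁ D B N v Tr i n * (∑ j ∈ J, (β₀ * FF α h Mo ε₁ B N j n - G * τ)) ^ 2 := by
    intro n
    have : ∑ j ∈ J, (-(β₀ * FF α h Mo ε₁ B N j n) - -(G * τ)) =
        -∑ j ∈ J, (β₀ * FF α h Mo ε₁ B N j n - G * τ) := by
      rw [← Finset.sum_neg_distrib]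
      exact Finset.sum_congr rfl fun j _ => by ring
    rw [this, neg_sq]
  have hA := bessel S f hf0 (muF Q α h Mo ρ ρ₁ D B N v Tr i) hmu0 hf
    (fun j n => -(β₀ * FF α h Mo ε₁ B N j n)) J (-(G * τ)) (m0 * vAc Q T K g0 ε₁ ε)
    (hsA.congr fun n => (esq n).symm) (by rw [tsum_congr esq]; exact hVA)
  -- the blocks
  have hB : ∀ l ∈ range nb, ∑ n ∈ S, f n * ∑ j ∈ J, -(FF α h Mo ε₁ B N j n *
      dc (cbm l) (Zb l) (Lf α h Mo (some j) n)) ≤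
      Real.sqrt (2 * (∑ n ∈ S, f n) * (m0 * vBc Q T K ε₁ ρ CR κ ε)) := by
    intro l hl
    have hlb := H.blkm l (Finset.mem_range.1 hl)
    obtain ⟨hsV, hV⟩ := blkV hNWU hNWE HB' hI1p hI2p hsμ hHB hnd hCR hκ HL.hdl hlb HL.big i J hJ
    have hgle := HL.gle
    set g := gB α h Mo N B ε₁ ρ with hgd
    have hJc : (J.card : ℝ) = K := by exact_mod_cast hJK
    have hVb : (J.card : ℝ) * (4 * CR ^ 2 * (m0 * g * udc Q (T * K) ε₁ ε)) +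
        (J.card : ℝ) ^ 2 * (m0 * g ^ 2 * ofc Q (T * K) CR κ ε₁ ε) ≤
        m0 * vBc Q T K ε₁ ρ CR κ ε := by
      rw [hJc]
      have e1 : (K : ℝ) * (4 * CR ^ 2 * (m0 * g * udc Q (T * K) ε₁ ε)) ≤
          m0 * (K * (4 * CR ^ 2 * ((ρ / ε₁) * udc Q (T * K) ε₁ ε))) := by
        calc (K : ℝ) * (4 * CR ^ 2 * (m0 * g * udc Q (T * K) ε₁ ε)) ≤
            K * (4 * CR ^ 2 * (m0 * (ρ / ε₁) * udc Q (T * K) ε₁ ε)) := by gcongr
          _ = _ := by ring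
      have e2 : (K : ℝ) ^ 2 * (m0 * g ^ 2 * ofc Q (T * K) CR κ ε₁ ε) ≤
          m0 * ((K : ℝ) ^ 2 * (ρ / ε₁) ^ 2 * ofc Q (T * K) CR κ ε₁ ε) := by
        calc (K : ℝ) ^ 2 * (m0 * g ^ 2 * ofc Q (T * K) CR κ ε₁ ε) ≤
            (K : ℝ) ^ 2 * (m0 * (ρ / ε₁) ^ 2 * ofc Q (T * K) CR κ ε₁ ε) := by gcongr
          _ = _ := by ring
      calc _ ≤ _ := add_le_add e1 e2
        _ = _ := by unfold vBc; ring
    have esq' : ∀ n : ℤ, muF Q α h Mo ρ ρ₁ D B N v Tr i n *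
        (∑ j ∈ J, (-(FF α h Mo ε₁ B N j n * dc (cbm l) (Zb l) (Lf α h Mo (some j) n)) - 0)) ^ 2 =
        muF Q α h Mo ρ ρ₁ D B N v Tr i n *
        (∑ j ∈ J, (FF α h Mo ε₁ B N j n * dc (cbm l) (Zb l) (Lf α h Mo (some j) n) - 0)) ^ 2 := by
      intro n
      have : ∑ j ∈ J, (-(FF α h Mo ε₁ B N j n * dc (cbm l) (Zb l) (Lf α h Mo (some j) n)) - 0) =
          -∑ j ∈ J, (FF α h Mo ε₁ B N j n * dc (cbm l) (Zb l) (Lf α h Mo (some j) n) - 0) := by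
        rw [← Finset.sum_neg_distrib]
        exact Finset.sum_congr rfl fun j _ => by ring
      rw [this, neg_sq]
    have hbes := bessel S f hf0 (muF Q α h Mo ρ ρ₁ D B N v Tr i) hmu0 hf
      (fun j n => -(FF α h Mo ε₁ B N j n * dc (cbm l) (Zb l) (Lf α h Mo (some j) n))) J 0
      (m0 * vBc Q T K ε₁ ρ CR κ ε)
      (hsV.congr fun n => (esq' n).symm) (by rw [tsum_congr esq']; exact hV.trans hVb)
    refine hbes.trans (le_of_eq ?_)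
    ring
  -- the sum
  have e : ∑ n ∈ S, f n * ∑ j ∈ J, -(FF α h Mo ε₁ B N j n *
      ds bm Z (Lf α h Mo (some j) n)) =
      ∑ n ∈ S, f n * ∑ j ∈ J, -(β₀ * FF α h Mo ε₁ B N j n) +
      ∑ l ∈ range nb, ∑ n ∈ S, f n * ∑ j ∈ J, -(FF α h Mo ε₁ B N j n *
        dc (cbm l) (Zb l) (Lf α h Mo (some j) n)) := by
    rw [Finset.sum_comm, ← Finset.sum_add_distrib]
    refine Finset.sum_congr rfl fun n _ => ?_
    have e1 : ∑ l ∈ range nb, f n * ∑ j ∈ J, -(FF α h Mo ε₁ B N j n *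
        dc (cbm l) (Zb l) (Lf α h Mo (some j) n)) = f n * ∑ j ∈ J, ∑ l ∈ range nb,
        -(FF α h Mo ε₁ B N j n * dc (cbm l) (Zb l) (Lf α h Mo (some j) n)) := by
      rw [← Finset.mul_sum]
      congr 1
      exact Finset.sum_comm
    rw [e1, ← mul_add, ← Finset.sum_add_distrib]
    congr 1
    refine Finset.sum_congr rfl fun j _ => ?_
    have e2 : ∑ l ∈ range nb, -(FF α h Mo ε₁ B N j n *
        dc (cbm l) (Zb l) (Lf α h Mo (some j) n)) =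
        -(FF α h Mo ε₁ B N j n * ∑ l ∈ range nb, dc (cbm l) (Zb l) (Lf α h Mo (some j) n)) := by
      rw [Finset.mul_sum, Finset.sum_neg_distrib]
    rw [e2, H.spm, H.mean, ← hβ]
    ring
  have hpos : 0 ≤ ∑ n ∈ S, f n * ∑ j ∈ J, -(FF α h Mo ε₁ B N j n *
      ds bm Z (Lf α h Mo (some j) n)) := by
    apply Finset.sum_nonneg
    intro n hn
    have h3 := hneg n hn
    rw [Finset.sum_neg_distrib, mul_neg]
    linarith
  have h3 := Finset.sum_le_sum hB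
  rw [Finset.sum_const, Finset.card_range, nsmul_eq_mul] at h3
  have hJc : (J.card : ℝ) = K := by exact_mod_cast hJK
  rw [hJc] at hA
  set F : ℝ := ∑ n ∈ S, f n with hF
  have hF0 : 0 ≤ F := Finset.sum_nonneg hf0
  have hglo : f₀ / 8 * ρ ≤ G := by
    rw [hG, hβ]
    calc f₀ / 8 * ρ = f₀ * ε₁ * (ρ / (8 * ε₁)) := by field_simp
      _ ≤ _ := mul_le_mul_of_nonneg_left H.glo (by positivity)
  have h4 : K * (f₀ / 8 * ρ * τ) * F ≤ Real.sqrt (2 * F * (m0 * vAc Q T K g0 ε₁ ε)) +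
      nb * Real.sqrt (2 * F * (m0 * vBc Q T K ε₁ ρ CR κ ε)) := by
    have h5 : K * (f₀ / 8 * ρ * τ) * F ≤ K * (G * τ) * F := by gcongr
    have h6 : 0 ≤ ∑ n ∈ S, f n * ∑ j ∈ J, -(β₀ * FF α h Mo ε₁ B N j n) +
      ∑ l ∈ range nb, ∑ n ∈ S, f n * ∑ j ∈ J, -(FF α h Mo ε₁ B N j n *
        dc (cbm l) (Zb l) (Lf α h Mo (some j) n)) := by rw [← e]; exact hpos
    have e5 : (K : ℝ) * -(G * τ) * F = -(K * (G * τ) * F) := by ring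
    rw [e5] at hA
    linarith
  exact root_alg F m0 _ _ _ nb hF0 hm0.le (by positivity) (Nat.cast_nonneg _) h4

end Pool.Agent.Z296.AP
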