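import Mathlib
import Pool.Agent.W25.UB.Cnt

/-! Project AP (helper296): the counting argument for a subset of the classes. -/

set_option autoImplicit false

namespace Pool.Agent.Z296.AP

open Finset
open Pool.Agent.W25.UB (class_rel)

/-- the counting argument with the classes in `G₁` -/
theorem countS {k K T : ℕ} (M : ℕ) (cl : Fin k → Fin T)
    (hcl : ∀ g, (univ.filter (fun i => cl i = g)).card = K) (G₁ : Finset (Fin T))
    (S : Finset ℕ) (u : ℕ → ℝ) (hu : ∀ n ∈ S, 0 ≤ u n) (pr : Fin k → ℕ → Prop)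
    [∀ i n, Decidable (pr i n)] (E : Finset ℕ) (Z b Aₖ μ ε : ℝ) (hZ : 0 < Z) (hμ : 0 ≤ μ)
    (hS : ∑ n ∈ S, u n ≤ Z * Aₖ)
    (hF : ∀ i, Z * b ≤ ∑ n ∈ S, if pr i n then u n else 0)
    (hP : ∀ g : Fin T, ∀ i ∈ univ.filter (fun i => cl i = g),
      ∑ j ∈ (univ.filter (fun i => cl i = g)).erase i,
        (∑ n ∈ S, if pr i n ∧ pr j n then u n else 0) ≤
      μ * ∑ n ∈ S, if pr i n then u n else 0)
    (hE : ∀ n ∈ S, n ∉ E → (G₁.filter (fun g : Fin T => ∃ i, cl i = g ∧ pr i n)).card ≤ M)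
    (hsm : G₁.card * ∑ n ∈ S.filter (fun n => n ∈ E), u n ≤ Z * (ε * Aₖ)) :
    G₁.card * (K * b) ≤ (1 + μ) * ((M + ε) * Aₖ) := by
  classical
  have h1 : ∑ g ∈ G₁, (∑ n ∈ S, if ∃ i ∈ univ.filter (fun i => cl i = g), pr i n then u n else 0) ≤
      M * ∑ n ∈ S, u n + G₁.card * ∑ n ∈ S.filter (fun n => n ∈ E), u n := by
    rw [Finset.sum_comm, Finset.mul_sum, Finset.mul_sum, Finset.sum_filter, ← Finset.sum_add_distrib]
    refine Finset.sum_le_sum fun n hn => ?_
    have e1 : ∑ g ∈ G₁, (if ∃ i ∈ univ.filter (fun i => cl i = g), pr i n then u n else 0) =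
        ((G₁.filter (fun g : Fin T => ∃ i, cl i = g ∧ pr i n)).card : ℝ) * u n := by
      rw [← Finset.sum_filter, Finset.sum_const, nsmul_eq_mul]
      congr 3
      apply Finset.filter_congr
      intro g _
      constructor
      · rintro ⟨i, hi, hp⟩
        exact ⟨i, (Finset.mem_filter.1 hi).2, hp⟩
      · rintro ⟨i, hi, hp⟩
        exact ⟨i, Finset.mem_filter.2 ⟨Finset.mem_univ _, hi⟩, hp⟩
    rw [e1]
    have hun := hu n hn
    by_cases hnE : n ∈ E
    · rw [if_pos hnE]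
      have h2 : ((G₁.filter (fun g : Fin T => ∃ i, cl i = g ∧ pr i n)).card : ℝ) ≤ G₁.card := by
        exact_mod_cast Finset.card_le_card (Finset.filter_subset _ _)
      have h3 := mul_le_mul_of_nonneg_right h2 hun
      have h4 : 0 ≤ (M : ℝ) * u n := by positivity
      linarith
    · rw [if_neg hnE, add_zero]
      apply mul_le_mul_of_nonneg_right _ hun
      exact_mod_cast hE n hn hnE
  have h2 : ∀ g : Fin T, K * (Z * b) ≤
      (1 + μ) * ∑ n ∈ S, if ∃ i ∈ univ.filter (fun i => cl i = g), pr i n then u n else 0 := by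
    intro g
    refine le_trans ?_ (class_rel S u hu (univ.filter (fun i => cl i = g)) pr μ hμ (hP g))
    have h3 := Finset.card_nsmul_le_sum (univ.filter (fun i => cl i = g))
      (fun i => ∑ n ∈ S, if pr i n then u n else 0) (Z * b) (fun i _ => hF i)
    rw [hcl g, nsmul_eq_mul] at h3
    exact h3
  have h3 : G₁.card * (K * (Z * b)) ≤ (1 + μ) * ∑ g ∈ G₁,
      (∑ n ∈ S, if ∃ i ∈ univ.filter (fun i => cl i = g), pr i n then u n else 0) := by
    rw [Finset.mul_sum]
    have h4 := Finset.card_nsmul_le_sum G₁ (fun g => (1 + μ) * ∑ n ∈ S,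
      if ∃ i ∈ univ.filter (fun i => cl i = g), pr i n then u n else 0) (K * (Z * b))
      (fun g _ => h2 g)
    rw [nsmul_eq_mul] at h4
    exact_mod_cast h4
  have h4 : (∑ g ∈ G₁,
      (∑ n ∈ S, if ∃ i ∈ univ.filter (fun i => cl i = g), pr i n then u n else 0)) ≤
      Z * ((M + ε) * Aₖ) := by
    refine h1.trans ?_
    have : Z * ((M + ε) * Aₖ) = M * (Z * Aₖ) + Z * (ε * Aₖ) := by ring
    rw [this]
    have h5 : (M : ℝ) * ∑ n ∈ S, u n ≤ M * (Z * Aₖ) :=
      mul_le_mul_of_nonneg_left hS (Nat.cast_nonneg _)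
    linarith
  have h5 := mul_le_mul_of_nonneg_left h4 (by linarith : (0 : ℝ) ≤ 1 + μ)
  have h6 : Z * (G₁.card * (K * b)) ≤ Z * ((1 + μ) * ((M + ε) * Aₖ)) := by
    calc Z * (G₁.card * (K * b)) = G₁.card * (K * (Z * b)) := by ring
      _ ≤ _ := h3.trans h5
      _ = _ := by ring
  exact le_of_mul_le_mul_left h6 hZ

end Pool.Agent.Z296.AP
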