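import Mathlib
import Pool.Agent.Y827.RO.CoreR
import Pool.Agent.Z296.AP.Low
import Pool.Agent.Z296.AP.CntS

/-! Project AP (helper296): the counting argument with almost primes in all the classes.
Adapted from `Pool.Agent.Y827.RO.core_atR`. -/

set_option autoImplicit false

namespace Pool.Agent.Z296.AP

open Finset Filter Topology
open Pool.Agent.H410R2 hiding GP GP_prof GP_cut_some GP_cut_none GP_lip gg_pos gg_le_one gg_anti ee_bound ee_nonneg gg_lip LB_gg LB_ee Sums exists_sums yx wx wxi Br sum_GP_none sum_GP_some sum_GP_some_ee sum_GP_some_one sum_GPr_none sum_GPr_some S1_final QI_final S2_final w_abs_le wmax gg ee I1 I2 IE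
open Pool.Agent.H361R2.GM
open Pool.Agent.H362R2.CM
open Pool.Agent.W25.UN
open Pool.Agent.W25.UB
open Pool.Agent.TH899.UG
open Pool.Agent.W804.UBUD
open Pool.Agent.H442R2.KF (Wt)
open Pool.Agent.W23.PL (DW Ev hat xx)
open Pool.Agent.Y827.LS Pool.Agent.Y827.RO

/-- at most two prime factors -/
def P2 (m : ℤ) : Prop := m.natAbs.primeFactorsList.length ≤ 2

section
variable {k : ℕ}

/-- no small prime factors in the forms -/
def Rgh (α h : Fin k → ℤ) (Mo : ℕ) (lz : ℝ) (n : ℕ) : Prop :=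
  ∀ p : ℕ, p.Prime → Real.log p ≤ lz → ∀ q, ¬ p ∣ LZ (uB α) (wB h Mo) q n

/-- exceptional divisibilities -/
def Spc (α h : Fin k → ℤ) (Mo N : ℕ) (ε₁ : ℝ) (n : ℕ) : Prop :=
  ∃ j : Fin k, (∃ p : ℕ, p.Prime ∧ (p ∈ CL (uB α) (wB h Mo) ∨ p = ⌊((2 * N : ℕ) : ℝ) ^ ε₁⌋₊) ∧
      (p : ℤ) ∣ Lf α h Mo (some j) n) ∨
    ∃ q : ℕ, q.Prime ∧ ((2 * N : ℕ) : ℝ) ^ (1 / 7 : ℝ) ≤ q ∧ (q : ℤ) ^ 2 ∣ Lf α h Mo (some j) n

end

theorem P2_of_prime {m : ℤ} (h : m.toNat.Prime) : P2 m := by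
  have h1 : (m.toNat : ℤ) = m := by
    apply Int.toNat_of_nonneg
    by_contra hc
    rw [Int.toNat_of_nonpos (by omega)] at h
    exact Nat.not_prime_zero h
  have h2 : m.natAbs = m.toNat := by omega
  unfold P2
  rw [h2, Nat.primeFactorsList_prime h]
  simp

open Classical in
theorem sum_biU {ι : Type} (I : Finset ι) (S : ι → Finset ℕ) (f : ℕ → ℝ) (hf : ∀ n, 0 ≤ f n) :
    ∑ n ∈ I.biUnion S, f n ≤ ∑ g ∈ I, ∑ n ∈ S g, f n := by
  induction I using Finset.induction_on with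
  | empty => simp
  | insert a I ha ih =>
    rw [Finset.biUnion_insert, Finset.sum_insert ha]
    have h1 : ∑ n ∈ S a ∪ I.biUnion S, f n ≤ ∑ n ∈ S a, f n + ∑ n ∈ I.biUnion S, f n := by
      rw [← Finset.sum_union_inter]
      have : 0 ≤ ∑ n ∈ S a ∩ I.biUnion S, f n := Finset.sum_nonneg fun n _ => hf n
      linarith
    linarith

open Classical in
theorem core_atP {T K Mc nb : ℕ} {Q : SPar} {α h : Fin (T * K) → ℤ}
    {θ ε₁ ρ ρ₁ ε η₀ CR κ₁ g0 f₀ : ℝ}
    {Mo A E₁ D B N v D₁ Zl : ℕ} {Tr : ℤ → ℝ} {t : ℝ} {th dl b : ℕ → ℝ} {Zb : ℕ → ℕ}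
    {cb : ℕ → ℕ → ℝ} {bm : ℕ → ℝ} {cbm : ℕ → ℕ → ℝ}
    (h0 : St_U0F) (h1 : St_L1F) (h2 : St_U2F) (hd : St_UDF) (hNWU : St_NWU) (hNWE : St_NWE)
    (hI1 : ε < Q.I1) (hI2 : ε < Q.I2) (hBr : 0 < Br Q (T * K) ε) (hBr2 : 0 < Br2 Q (T * K) ε)
    (hCR : 1 ≤ CR) (hκ₁ : 0 ≤ κ₁) (hg0 : 0 ≤ g0) (hf₀ : 0 < f₀) (hf₁ : f₀ ≤ 1)
    (hg0ρ : f₀ * ρ ≤ g0) (G₁ : Finset (Fin T)) (s r₀ : ℝ) (hs0 : 0 < s) (hs1 : s < 1)
    (hnum : (1 + muL Q T K nb g0 ε₁ ρ CR κ₁ ε) * ((Mc + 2 * ε) * Ac Q (T * K) ε) <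
      G₁.card * (1 - s) ^ 2 * (K * (ρ * βc Q (T * K) ε)))
    (hnum2 : 1024 * (Real.sqrt (vAc Q T K g0 ε₁ ε) + nb * Real.sqrt (vBc Q T K ε₁ ρ CR κ₁ ε)) ^ 2 <
      r₀ ^ 2 * ((ρ * βc Q (T * K) ε) * (K * (f₀ / 8 * ρ * (Q.I1 ^ 2 / Q.I2))) ^ 2))
    (HM : DatM Q α h Mo θ ε₁ ρ ρ₁ ε η₀ CR κ₁ g0 f₀ nb A E₁ D B N v D₁ Zl Tr t th dl b Zb cb bm cbm)
    (hHB : HB h Mo N) (hnd : Nd α h Mo)
    (cl : Fin (T * K) → Fin T) (hcl : ∀ g, (univ.filter (fun i => cl i = g)).card = K)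
    (hD : 2 ≤ D)
    (hTa : ∀ r < Rn (ε / 400), ∑ n ∈ Ns α h D (DB (2 * N) B) Mo v N,
      lt (ctr (ε / 400) r * N) (ε / 400 * (ctr (ε / 400) r * N)) n *
        (wZ Q (uB α) (wB h Mo) (PBF α h Mo N B ρ₁) (ρ * Real.log N) n) ^ 2 ≤
      ZZ (T * K) (Pool.Agent.W25.UN.VV α h Mo D (DB (2 * N) B))
        (ε / 400 * (ctr (ε / 400) r * N)) (WW D) (BD (DB (2 * N) B)) (ρ * Real.log N) *
        Ac Q (T * K) ε)
    (hTb : ∀ r < Rn (ε / 400), ∀ i : Fin (T * K),
      ZZ (T * K) (Pool.Agent.W25.UN.VV α h Mo D (DB (2 * N) B))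
        (ε / 400 * (ctr (ε / 400) r * N)) (WW D) (BD (DB (2 * N) B)) (ρ * Real.log N) *
        (ρ * βc Q (T * K) ε) ≤ ∑ n ∈ Ns α h D (DB (2 * N) B) Mo v N,
      (if (Fm α h Mo i n).toNat.Prime then
        lt (ctr (ε / 400) r * N) (ε / 400 * (ctr (ε / 400) r * N)) n *
        (wZ Q (uB α) (wB h Mo) (PBF α h Mo N B ρ₁) (ρ * Real.log N) n) ^ 2 else 0))
    (hh : PosF α h Mo N) (hbig : ((2 * N : ℕ) : ℝ) ^ ε₁ ≤ N / 64)
    (hbigθ : ((2 * N : ℕ) : ℝ) ^ θ ≤ N / 64)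
    (hsz : ∀ (i : Fin (T * K)) (n : ℕ), n ≤ N →
      |(Fm α h Mo i n : ℝ)| ≤ ((2 * N : ℕ) : ℝ) ^ (1001 / 1000 : ℝ))
    (hns : ∀ n ∈ Ns α h D (DB (2 * N) B) Mo v N, ∀ p : ℕ, p.Prime → ∀ q,
      p ∣ LZ (uB α) (wB h Mo) q n → DB (2 * N) B < p)
    (lz Cq ε' ε'' c : ℝ) (hCq : 0 ≤ Cq) (hc : 0 ≤ c)
    (hsm : ∑ n ∈ Bad α h D (DB (2 * N) B) Mo v N lz,
        (wZ Q (uB α) (wB h Mo) (PBF α h Mo N B ρ₁) (ρ * Real.log N) n) ^ 2 ≤
      ε' * ((N : ℝ) / WW D * Pool.Agent.W25.UN.VV α h Mo D (DB (2 * N) B) *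
        (bb N B ρ) ^ (T * K + 1)))
    (hsp : ∑ n ∈ (Ns α h D (DB (2 * N) B) Mo v N).filter
        (fun n => Rgh α h Mo lz n ∧ Spc α h Mo N ε₁ n),
        (wZ Q (uB α) (wB h Mo) (PBF α h Mo N B ρ₁) (ρ * Real.log N) n) ^ 2 ≤
      ε'' * ((N : ℝ) / WW D * Pool.Agent.W25.UN.VV α h Mo D (DB (2 * N) B) *
        (bb N B ρ) ^ (T * K + 1)))
    (hpt : ∀ n : ℕ, 1 ≤ n → n ≤ N → (∀ i, (Mo : ℤ) + α i * n + h i ≠ 0) →
      (∀ p : ℕ, p.Prime → Real.log p ≤ lz → ∀ q, ¬ p ∣ LZ (uB α) (wB h Mo) q n) →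
      (wZ Q (uB α) (wB h Mo) (PBF α h Mo N B ρ₁) (ρ * Real.log N) n) ^ 2 ≤
        Cq * (bb N B ρ) ^ (2 * (T * K + 1)))
    (hε'' : 0 ≤ ε' + ε'')
    (hloss : 6144 * (ε' + ε'') + T * (r₀ ^ 2 * (ρ * βc Q (T * K) ε)) ≤
      s * (ρ * βc Q (T * K) ε))
    (hcE : 6144 * T * (c * Cq) ≤ ε * Ac Q (T * K) ε) :
    c * ((N : ℝ) / WW D * Pool.Agent.W25.UN.VV α h Mo D (DB (2 * N) B) /
      (bb N B ρ) ^ (T * K + 1)) ≤ (((Icc 1 N).filter (fun n : ℕ => n ≡ v [MOD (WW D)] ∧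
        (N : ℝ) / 16 ≤ n ∧ (n : ℝ) ≤ N / 2 ∧ Rgh α h Mo lz n ∧
        (∀ g : Fin T, ∃ i, cl i = g ∧ P2 (Fm α h Mo i n)) ∧
        Mc + 1 ≤ (G₁.filter (fun g : Fin T => ∃ i, cl i = g ∧
          (Fm α h Mo i n).toNat.Prime)).card)).card : ℝ) := by
  have HL := HM.dL
  have H := HL.dB
  have hε := H.ε0
  have hε3 := H.ε3
  have hI1p : 0 < Q.I1 := hε.trans hI1
  have hI2p : 0 < Q.I2 := hε.trans hI2
  have h1ε : 0 < 1 - ε := by linarith
  have hI1ε : 0 < Q.I1 - ε := by linarith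
  have hρ := H.ρ0
  have hAc : 0 < Ac Q (T * K) ε := by unfold Ac; positivity
  have hβc : 0 < βc Q (T * K) ε := by unfold βc; positivity
  have hN8 := H.N8
  have hN0 : 0 < N := by omega
  have hNR : (0 : ℝ) < N := by exact_mod_cast hN0
  have hl1 := H.l1
  have hl : 0 < Real.log N := by linarith
  have hW : (0 : ℝ) < ((WW D / 2 : ℕ) : ℝ) := by
    have := H.W2
    exact_mod_cast (by omega : 0 < WW D / 2)
  have hVp := H.Vp
  have hb1 := H.b1
  have hbp : 0 < bb N B ρ := by linarith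
  have hκ : 0 < ε / 400 := by positivity
  have hκ1 : ε / 400 ≤ 1 / 400 := by linarith
  set κ : ℝ := ε / 400 with hκd
  set E : Finset ℕ := (Icc 1 N).filter (fun n : ℕ => n ≡ v [MOD (WW D)] ∧
        (N : ℝ) / 16 ≤ n ∧ (n : ℝ) ≤ N / 2 ∧ Rgh α h Mo lz n ∧
        (∀ g : Fin T, ∃ i, cl i = g ∧ P2 (Fm α h Mo i n)) ∧
        Mc + 1 ≤ (G₁.filter (fun g : Fin T => ∃ i, cl i = g ∧
          (Fm α h Mo i n).toNat.Prime)).card) with hE
  by_contra hcon
  push Not at hcon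
  set w2 : ℕ → ℝ := fun n =>
    (wZ Q (uB α) (wB h Mo) (PBF α h Mo N B ρ₁) (ρ * Real.log N) n) ^ 2 with hw2
  have hw20 : ∀ n, 0 ≤ w2 n := fun n => sq_nonneg _
  set S : Finset ℕ := (Ns α h D (DB (2 * N) B) Mo v N).filter
    (fun n : ℕ => (N : ℝ) / 16 ≤ n ∧ (n : ℝ) ≤ N / 2) with hS
  set u : ℕ → ℝ := fun n => Ut κ N n * w2 n with hu
  have hu0 : ∀ n, 0 ≤ u n := fun n => mul_nonneg (Ut_nonneg _ _ _) (hw20 n)
  have hSm : ∀ n ∈ S, n ∈ Ns α h D (DB (2 * N) B) Mo v N ∧ (N : ℝ) / 16 ≤ n ∧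
      (n : ℝ) ≤ N / 2 := by
    intro n hn
    rw [hS, Finset.mem_filter] at hn
    exact hn
  have hNsm : ∀ n ∈ Ns α h D (DB (2 * N) B) Mo v N, 1 ≤ n ∧ n ≤ N ∧ n ≡ v [MOD (WW D)] := by
    intro n hn
    unfold Ns at hn
    rw [Finset.mem_filter, Finset.mem_Icc] at hn
    exact ⟨hn.1.1, hn.1.2, hn.2.1⟩
  set Zr : ℕ → ℝ := fun r => ZZ (T * K) (Pool.Agent.W25.UN.VV α h Mo D (DB (2 * N) B))
        (κ * (ctr κ r * N)) (WW D) (BD (DB (2 * N) B)) (ρ * Real.log N) with hZr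
  set Z : ℝ := ∑ r ∈ range (Rn κ), Zr r with hZ
  have hMM : MMF α h Mo D N B ρ ≤ 512 * Z :=
    MM_leF α h Mo D N B ρ κ hκ hD H.W2 hVp hbp
  -- the main size
  obtain ⟨Z1, hZ1⟩ : ∃ Z1 : ℝ, Z1 = (N : ℝ) / WW D * Pool.Agent.W25.UN.VV α h Mo D
      (DB (2 * N) B) * (bb N B ρ) ^ (T * K + 1) := ⟨_, rfl⟩
  have hWW : ((WW D : ℕ) : ℝ) = 2 * ((WW D / 2 : ℕ) : ℝ) := by
    have h1 : 2 * (WW D / 2) = WW D := Nat.mul_div_cancel' (two_dvd_WW hD)
    have h2 : ((2 * (WW D / 2) : ℕ) : ℝ) = ((WW D : ℕ) : ℝ) := by rw [h1]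
    rw [← h2]
    push_cast
    ring
  have hWp : (0 : ℝ) < WW D := by rw [hWW]; positivity
  have hZ1p : 0 < Z1 := by rw [hZ1]; positivity
  have hZ1M : Z1 = 12 * MMF α h Mo D N B ρ := by
    rw [hZ1, hWW]
    unfold MMF
    push_cast
    field_simp
    ring
  have hZ1Z : Z1 ≤ 6144 * Z := by rw [hZ1M]; linarith
  have hZp : 0 < Z := by linarith
  -- first sum
  have hS1 : ∑ n ∈ S, u n ≤ Z * Ac Q (T * K) ε := by
    have h3 : ∑ n ∈ S, u n ≤ ∑ n ∈ Ns α h D (DB (2 * N) B) Mo v N, u n :=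
      Finset.sum_le_sum_of_subset_of_nonneg (Finset.filter_subset _ _) (fun n _ _ => hu0 n)
    refine h3.trans ?_
    have h4 : ∑ n ∈ Ns α h D (DB (2 * N) B) Mo v N, u n =
        ∑ r ∈ range (Rn κ), ∑ n ∈ Ns α h D (DB (2 * N) B) Mo v N,
          lt (ctr κ r * N) (κ * (ctr κ r * N)) n * w2 n := by
      rw [Finset.sum_comm]
      refine Finset.sum_congr rfl fun n _ => ?_
      simp only [hu, Ut]
      rw [Finset.sum_mul]
    rw [h4, hZ, Finset.sum_mul]
    exact Finset.sum_le_sum fun r hr => hTa r (Finset.mem_range.1 hr)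
  -- prime sums
  have hS2 : ∀ i : Fin (T * K), Z * (ρ * βc Q (T * K) ε) ≤
      ∑ n ∈ S, if (Fm α h Mo i n).toNat.Prime then u n else 0 := by
    intro i
    have h3 : ∑ n ∈ S, (if (Fm α h Mo i n).toNat.Prime then u n else 0) =
        ∑ n ∈ Ns α h D (DB (2 * N) B) Mo v N,
          (if (Fm α h Mo i n).toNat.Prime then u n else 0) := by
      apply Finset.sum_subset (Finset.filter_subset _ _)
      intro n hn hnS
      have h4 : u n = 0 := by
        by_contra hne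
        apply hnS
        rw [Finset.mem_filter]
        refine ⟨hn, ?_⟩
        apply Ut_range hκ hκ1 hN0
        intro h5
        apply hne
        simp only [hu]
        rw [h5, zero_mul]
      rw [h4]
      simp
    rw [h3]
    have h4 : ∑ n ∈ Ns α h D (DB (2 * N) B) Mo v N,
          (if (Fm α h Mo i n).toNat.Prime then u n else 0) =
        ∑ r ∈ range (Rn κ), ∑ n ∈ Ns α h D (DB (2 * N) B) Mo v N,
          (if (Fm α h Mo i n).toNat.Prime then
            lt (ctr κ r * N) (κ * (ctr κ r * N)) n * w2 n else 0) := by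
      rw [Finset.sum_comm]
      refine Finset.sum_congr rfl fun n _ => ?_
      split_ifs
      · simp only [hu, Ut]
        rw [Finset.sum_mul]
      · simp
    rw [h4, hZ, Finset.sum_mul]
    exact Finset.sum_le_sum fun r hr => hTb r (Finset.mem_range.1 hr) i
  -- pair sums
  have hnn : ∀ (j : Fin (T * K)) (n : ℤ), 0 ≤ sjL α h Mo ε₁ B N Zl b j n := fun j n =>
    mul_nonneg (FF_nonneg _ _ _ _ _ _ _ _) (HL.bn _)
  have hone : ∀ (j : Fin (T * K)) (n : ℕ), (N : ℝ) / 16 ≤ n → (n : ℝ) ≤ N / 2 →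
      (Fm α h Mo j n).toNat.Prime → 1 ≤ sjL α h Mo ε₁ B N Zl b j n := by
    intro j n hn1 hn2 hp
    have h3 : FF α h Mo ε₁ B N j n = 1 := by
      unfold FF xx
      rw [if_pos]
      intro p hp'
      have h4 := H.gd p (Finset.mem_union_right _ hp')
      exact no_smallF hn1 hn2 hh hN0 hp h4.1.1 (h4.2.2.trans hbig)
    have h5 : ds b Zl (Lf α h Mo (some j) n) = 1 := by
      apply HL.bo
      intro p hp1 hp2
      exact no_smallF hn1 hn2 hh hN0 hp hp1 (hp2.trans hbigθ)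
    unfold sjL
    rw [h3, h5, mul_one]
  have hmuc : 0 ≤ muL Q T K nb g0 ε₁ ρ CR κ₁ ε := by
    unfold muL
    positivity
  have hS3 : ∀ g : Fin T, ∀ i ∈ univ.filter (fun i => cl i = g),
      ∑ j ∈ (univ.filter (fun i => cl i = g)).erase i,
        (∑ n ∈ S, if (Fm α h Mo i n).toNat.Prime ∧ (Fm α h Mo j n).toNat.Prime then u n else 0) ≤
      muL Q T K nb g0 ε₁ ρ CR κ₁ ε * ∑ n ∈ S, if (Fm α h Mo i n).toNat.Prime then u n else 0 := by
    intro g i hi
    set J := (univ.filter (fun i => cl i = g)).erase i with hJ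
    set f : ℕ → ℝ := fun n => if (Fm α h Mo i n).toNat.Prime then u n else 0 with hf
    have hf0 : ∀ n ∈ S, 0 ≤ f n := by
      intro n _
      simp only [hf]
      split_ifs
      · exact hu0 n
      · exact le_rfl
    have hmu0 := muF_nonneg H i
    have hfm : ∀ n ∈ S, f n ≤ 2 * muF Q α h Mo ρ ρ₁ D B N v Tr i n := by
      intro n hn
      obtain ⟨hn1, hn0, hn2⟩ := hSm n hn
      simp only [hf]
      split_ifs with hp
      · have h3 := pt_leF hNWE H hD i n hn1 hn0 hn2 hh hbig hp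
        have h4 : u n ≤ 1 * w2 n :=
          mul_le_mul_of_nonneg_right (Ut_le_one hκ hN0 _) (hw20 n)
        rw [one_mul] at h4
        exact h4.trans h3
      · have := hmu0 n
        linarith
    have hJK : J.card ≤ K := (Finset.card_le_card (Finset.erase_subset _ _)).trans (hcl g).le
    have hpair := pairL h0 h1 h2 hd hNWU hNWE hI1 hI2 hBr2 hCR hκ₁ HL hHB hnd i J
      (Finset.notMem_erase i _) hJK S f hf0 hfm hβc Z hMM (hS2 i)
    refine le_trans ?_ hpair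
    rw [Finset.sum_comm]
    apply Finset.sum_le_sum
    intro n hn
    obtain ⟨hn1, hn0, hn2⟩ := hSm n hn
    rw [Finset.mul_sum]
    apply Finset.sum_le_sum
    intro j _
    by_cases hpi : (Fm α h Mo i n).toNat.Prime
    · by_cases hpj : (Fm α h Mo j n).toNat.Prime
      · rw [if_pos ⟨hpi, hpj⟩]
        have h3 := hone j n hn0 hn2 hpj
        have h4 : f n = u n := by simp only [hf]; rw [if_pos hpi]
        rw [h4]
        exact le_mul_of_one_le_right (hu0 n) h3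
      · rw [if_neg (fun h' => hpj h'.2)]
        exact mul_nonneg (hf0 n hn) (hnn j n)
    · rw [if_neg (fun h' => hpi h'.1)]
      exact mul_nonneg (hf0 n hn) (hnn j n)
  -- the good points
  set Gd' : ℕ → Prop := fun n => Rgh α h Mo lz n ∧ ¬ Spc α h Mo N ε₁ n ∧
    ∀ g : Fin T, ∃ i, cl i = g ∧ P2 (Fm α h Mo i n) with hGd'
  set pr' : Fin (T * K) → ℕ → Prop := fun i n => (Fm α h Mo i n).toNat.Prime ∧ Gd' n with hpr'
  have hu2 : ∀ n, u n ≤ w2 n := by
    intro n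
    have h3 : u n ≤ 1 * w2 n :=
      mul_le_mul_of_nonneg_right (Ut_le_one hκ hN0 _) (hw20 n)
    rwa [one_mul] at h3
  have hρβ : 0 < ρ * βc Q (T * K) ε := mul_pos hρ hβc
  have hKp : 0 < K := by
    have h3 := H.k3
    rcases Nat.eq_zero_or_pos K with h4 | h4
    · rw [h4, Nat.mul_zero] at h3
      omega
    · exact h4
  have hKr : (0 : ℝ) < K := by exact_mod_cast hKp
  -- the points without almost primes in the class `g`
  set Sg : Fin T → Finset ℕ := fun g => S.filter (fun n => ¬ Spc α h Mo N ε₁ n ∧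
    ∀ j, cl j = g → ¬ P2 (Fm α h Mo j n)) with hSg
  have hLFm : ∀ (j : Fin (T * K)) (n : ℤ), Lf α h Mo (some j) n = Fm α h Mo j n := fun j n =>
    Lf_eq α h Mo j n
  have hloc : ∀ (i : Fin (T * K)) (g : Fin T),
      ∑ n ∈ Sg g, (if (Fm α h Mo i n).toNat.Prime then u n else 0) ≤
        Z * (r₀ ^ 2 * (ρ * βc Q (T * K) ε)) := by
    intro i g
    by_cases hig : cl i = g
    · rw [Finset.sum_eq_zero]
      · positivity
      · intro n hn
        rw [hSg, Finset.mem_filter] at hn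
        rw [if_neg]
        intro hp
        exact hn.2.2 i hig (P2_of_prime hp)
    · set J := univ.filter (fun j => cl j = g) with hJ
      have hiJ : i ∉ J := by
        rw [hJ, Finset.mem_filter]
        rintro ⟨-, h3⟩
        exact hig h3
      set f : ℕ → ℝ := fun n => if (Fm α h Mo i n).toNat.Prime then u n else 0 with hf
      have hf0 : ∀ n ∈ Sg g, 0 ≤ f n := by
        intro n _
        simp only [hf]
        split_ifs
        · exact hu0 n
        · exact le_rfl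
      have hmu0 := muF_nonneg H i
      have hSgS : ∀ n ∈ Sg g, n ∈ S := fun n hn => by
        rw [hSg, Finset.mem_filter] at hn
        exact hn.1
      have hfm : ∀ n ∈ Sg g, f n ≤ 2 * muF Q α h Mo ρ ρ₁ D B N v Tr i n := by
        intro n hn
        obtain ⟨hn1, hn0, hn2⟩ := hSm n (hSgS n hn)
        simp only [hf]
        split_ifs with hp
        · exact (hu2 n).trans (pt_leF hNWE H hD i n hn1 hn0 hn2 hh hbig hp)
        · have := hmu0 n
          linarith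
      have hneg : ∀ n ∈ Sg g, f n * ∑ j ∈ J, FF α h Mo ε₁ B N j n *
          ds bm Zl (Lf α h Mo (some j) n) ≤ 0 := by
        intro n hn
        apply mul_nonpos_of_nonneg_of_nonpos (hf0 n hn)
        apply Finset.sum_nonpos
        intro j hj
        have hjg : cl j = g := (Finset.mem_filter.1 hj).2
        obtain ⟨hn1, hn0, hn2⟩ := hSm n (hSgS n hn)
        obtain ⟨hn3, hn4, hn5⟩ := hNsm n hn1
        have hn' := hn
        rw [hSg, Finset.mem_filter] at hn'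
        obtain ⟨-, hspc, hnP⟩ := hn'
        rcases FF_cases α h Mo ε₁ B N j n with hx | ⟨hx, hx1⟩
        · rw [hx, zero_mul]
        · rw [hx, one_mul]
          by_contra hpos
          push Not at hpos
          have hpos5 := hh j n hn0 hn2
          have hFne : Lf α h Mo (some j) n ≠ 0 := by
            rw [hLFm]
            intro h6
            rw [h6] at hpos5
            push_cast at hpos5
            linarith
          have hP2 := (HM.pt (Lf α h Mo (some j) n) hFne (by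
            rw [hLFm]
            exact hsz j n hn4) (by
            intro p hp hpX hpd
            have hDBp : DB (2 * N) B < p := hns n hn1 p hp (some j) (by
              unfold LZ
              exact Int.natCast_dvd.1 hpd)
            by_cases hpC : p ∈ CL (uB α) (wB h Mo)
            · exact hspc ⟨j, Or.inl ⟨p, hp, Or.inl hpC, hpd⟩⟩
            · rcases hpX.lt_or_eq with hlt | heq
              · apply hx1 p _ hpd
                unfold PtF
                rw [Finset.mem_sdiff]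
                refine ⟨?_, hpC⟩
                unfold Pool.Agent.W23.PL.P1
                rw [Finset.mem_filter, Finset.mem_Icc]
                have h2N1 : (1 : ℝ) < ((2 * N : ℕ) : ℝ) := by
                  exact_mod_cast (by omega : 1 < 2 * N)
                have h2N0 : (0 : ℝ) < ((2 * N : ℕ) : ℝ) := by linarith
                have hp0 : (0 : ℝ) < p := by exact_mod_cast hp.pos
                refine ⟨⟨hp.one_lt.le, ?_⟩, hp, ?_, ?_⟩
                · have h7 : (p : ℝ) ≤ (N : ℝ) := by linarith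
                  have h8 : p ≤ N := by exact_mod_cast h7
                  omega
                · unfold DB at hDBp
                  have h7 : ⌈(Real.log ((2 * N : ℕ) : ℝ)) ^ B⌉₊ ≤ p := by omega
                  exact (Nat.le_ceil _).trans (by exact_mod_cast h7)
                · unfold Pool.Agent.W23.DC.tt
                  rw [div_lt_iff₀ (Real.log_pos h2N1), ← Real.log_rpow h2N0]
                  exact Real.log_lt_log hp0 hlt
              · exact hspc ⟨j, Or.inl ⟨p, hp, Or.inr (by rw [← heq, Nat.floor_natCast]), hpd⟩⟩)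
            (by
              intro p hpC hpd
              have hp : p.Prime := by
                unfold CL at hpC
                exact Nat.prime_of_mem_primeFactors hpC
              exact hspc ⟨j, Or.inl ⟨p, hp, Or.inl hpC, hpd⟩⟩)
            (by
              intro q hq hqX hqd
              exact hspc ⟨j, Or.inr ⟨q, hq, hqX, hqd⟩⟩) hpos).1
          rw [hLFm] at hP2
          exact hnP j hjg hP2
      have hlow := lowL h0 h1 h2 hd hNWU hNWE hI1 hI2 hBr2 hCR hκ₁ hf₀ hf₁ hg0ρ HM hHB hnd i J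
        hiJ (hcl g) (Sg g) f hf0 hfm hneg
      have hτ : 0 < K * (f₀ / 8 * ρ * (Q.I1 ^ 2 / Q.I2)) := by positivity
      have hτ2 : 0 < (K * (f₀ / 8 * ρ * (Q.I1 ^ 2 / Q.I2))) ^ 2 := by positivity
      have h3 : (∑ n ∈ Sg g, f n) * (K * (f₀ / 8 * ρ * (Q.I1 ^ 2 / Q.I2))) ^ 2 ≤
          (Z * (r₀ ^ 2 * (ρ * βc Q (T * K) ε))) * (K * (f₀ / 8 * ρ * (Q.I1 ^ 2 / Q.I2))) ^ 2 := by
        refine hlow.trans ?_
        have h4 : 0 ≤ (Real.sqrt (vAc Q T K g0 ε₁ ε) +
          nb * Real.sqrt (vBc Q T K ε₁ ρ CR κ₁ ε)) ^ 2 := sq_nonneg _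
        calc 2 * MMF α h Mo D N B ρ * (Real.sqrt (vAc Q T K g0 ε₁ ε) +
              nb * Real.sqrt (vBc Q T K ε₁ ρ CR κ₁ ε)) ^ 2 ≤
            2 * (512 * Z) * (Real.sqrt (vAc Q T K g0 ε₁ ε) +
              nb * Real.sqrt (vBc Q T K ε₁ ρ CR κ₁ ε)) ^ 2 := by
              apply mul_le_mul_of_nonneg_right _ h4
              linarith
          _ = Z * (1024 * (Real.sqrt (vAc Q T K g0 ε₁ ε) +
              nb * Real.sqrt (vBc Q T K ε₁ ρ CR κ₁ ε)) ^ 2) := by ring
          _ ≤ Z * (r₀ ^ 2 * ((ρ * βc Q (T * K) ε) *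
              (K * (f₀ / 8 * ρ * (Q.I1 ^ 2 / Q.I2))) ^ 2)) :=
              mul_le_mul_of_nonneg_left hnum2.le hZp.le
          _ = _ := by ring
      exact le_of_mul_le_mul_right h3 hτ2
  -- the loss
  have hfi0 : ∀ (i : Fin (T * K)) (n : ℕ),
      0 ≤ (if (Fm α h Mo i n).toNat.Prime then u n else 0) := by
    intro i n
    split_ifs
    · exact hu0 n
    · exact le_rfl
  have hfiw : ∀ (i : Fin (T * K)) (n : ℕ),
      (if (Fm α h Mo i n).toNat.Prime then u n else 0) ≤ w2 n := by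
    intro i n
    split_ifs
    · exact hu2 n
    · exact hw20 n
  set Sp : Finset ℕ := (Ns α h D (DB (2 * N) B) Mo v N).filter
        (fun n => Rgh α h Mo lz n ∧ Spc α h Mo N ε₁ n) with hSp
  have hlossi : ∀ i : Fin (T * K),
      ∑ n ∈ S.filter (fun n => ¬ Gd' n), (if (Fm α h Mo i n).toNat.Prime then u n else 0) ≤
        s * (Z * (ρ * βc Q (T * K) ε)) := by
    intro i
    have hcov : S.filter (fun n => ¬ Gd' n) ⊆ (Bad α h D (DB (2 * N) B) Mo v N lz ∪ Sp) ∪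
        univ.biUnion Sg := by
      intro n hn
      rw [Finset.mem_filter] at hn
      obtain ⟨hnS, hnG⟩ := hn
      obtain ⟨hn1, hn2, hn3⟩ := hSm n hnS
      by_cases hR : Rgh α h Mo lz n
      · by_cases hC : Spc α h Mo N ε₁ n
        · apply Finset.mem_union_left
          apply Finset.mem_union_right
          rw [hSp, Finset.mem_filter]
          exact ⟨hn1, hR, hC⟩
        · apply Finset.mem_union_right
          rw [Finset.mem_biUnion]
          have h3 : ¬ ∀ g : Fin T, ∃ i, cl i = g ∧ P2 (Fm α h Mo i n) := fun h4 =>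
            hnG ⟨hR, hC, h4⟩
          push Not at h3
          obtain ⟨g, hg⟩ := h3
          refine ⟨g, Finset.mem_univ _, ?_⟩
          rw [hSg, Finset.mem_filter]
          exact ⟨hnS, hC, hg⟩
      · apply Finset.mem_union_left
        apply Finset.mem_union_left
        unfold Rgh at hR
        push Not at hR
        obtain ⟨p, hp, hpl, q, hq⟩ := hR
        unfold Bad
        rw [Finset.mem_filter]
        exact ⟨hn1, p, hp, hpl, q, hq⟩
    have hsumU : ∀ (A' B' : Finset ℕ) (f : ℕ → ℝ), (∀ n, 0 ≤ f n) →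
        ∑ n ∈ A' ∪ B', f n ≤ ∑ n ∈ A', f n + ∑ n ∈ B', f n := by
      intro A' B' f hf
      rw [← Finset.sum_union_inter]
      have : 0 ≤ ∑ n ∈ A' ∩ B', f n := Finset.sum_nonneg fun n _ => hf n
      linarith
    have h3 : ∑ n ∈ univ.biUnion Sg, (if (Fm α h Mo i n).toNat.Prime then u n else 0) ≤
        T * (Z * (r₀ ^ 2 * (ρ * βc Q (T * K) ε))) := by
      calc ∑ n ∈ univ.biUnion Sg, (if (Fm α h Mo i n).toNat.Prime then u n else 0) ≤
          ∑ g : Fin T, ∑ n ∈ Sg g, (if (Fm α h Mo i n).toNat.Prime then u n else 0) := by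
            exact sum_biU (univ : Finset (Fin T)) Sg
              (fun n => if (Fm α h Mo i n).toNat.Prime then u n else 0) (hfi0 i)
        _ ≤ ∑ _g : Fin T, Z * (r₀ ^ 2 * (ρ * βc Q (T * K) ε)) :=
            Finset.sum_le_sum fun g _ => hloc i g
        _ = _ := by rw [Finset.sum_const, Finset.card_univ, Fintype.card_fin, nsmul_eq_mul]
    have h4 : ∑ n ∈ Bad α h D (DB (2 * N) B) Mo v N lz,
        (if (Fm α h Mo i n).toNat.Prime then u n else 0) ≤ ε' * Z1 := by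
      rw [← hZ1] at hsm
      exact (Finset.sum_le_sum fun n _ => hfiw i n).trans hsm
    have h5 : ∑ n ∈ Sp, (if (Fm α h Mo i n).toNat.Prime then u n else 0) ≤ ε'' * Z1 := by
      rw [← hZ1] at hsp
      exact (Finset.sum_le_sum fun n _ => hfiw i n).trans hsp
    have h6 : ∑ n ∈ S.filter (fun n => ¬ Gd' n),
        (if (Fm α h Mo i n).toNat.Prime then u n else 0) ≤
        (ε' * Z1 + ε'' * Z1) + T * (Z * (r₀ ^ 2 * (ρ * βc Q (T * K) ε))) := by
      refine (Finset.sum_le_sum_of_subset_of_nonneg hcov fun n _ _ => hfi0 i n).trans ?_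
      refine (hsumU _ _ _ (hfi0 i)).trans ?_
      have h7 := hsumU (Bad α h D (DB (2 * N) B) Mo v N lz) Sp _ (hfi0 i)
      linarith
    refine h6.trans ?_
    have h8 : (ε' + ε'') * Z1 ≤ (ε' + ε'') * (6144 * Z) :=
      mul_le_mul_of_nonneg_left hZ1Z hε''
    have h9 := mul_le_mul_of_nonneg_right hloss hZp.le
    calc (ε' * Z1 + ε'' * Z1) + T * (Z * (r₀ ^ 2 * (ρ * βc Q (T * K) ε))) ≤
        (ε' + ε'') * (6144 * Z) + T * (Z * (r₀ ^ 2 * (ρ * βc Q (T * K) ε))) := by linarith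
      _ = (6144 * (ε' + ε'') + T * (r₀ ^ 2 * (ρ * βc Q (T * K) ε))) * Z := by ring
      _ ≤ _ := h9
      _ = _ := by ring
  have hsplit : ∀ i : Fin (T * K),
      ∑ n ∈ S, (if (Fm α h Mo i n).toNat.Prime then u n else 0) =
      ∑ n ∈ S, (if pr' i n then u n else 0) +
      ∑ n ∈ S.filter (fun n => ¬ Gd' n), (if (Fm α h Mo i n).toNat.Prime then u n else 0) := by
    intro i
    have hsf := Finset.sum_filter (s := S) (fun n => ¬ Gd' n)
      (fun n => if (Fm α h Mo i n).toNat.Prime then u n else 0)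
    rw [hsf, ← Finset.sum_add_distrib]
    refine Finset.sum_congr rfl fun n _ => ?_
    simp only [hpr']
    by_cases hp : (Fm α h Mo i n).toNat.Prime
    · by_cases hG : Gd' n
      · rw [if_pos hp, if_pos ⟨hp, hG⟩, if_neg (not_not.2 hG), add_zero]
      · rw [if_pos hp, if_neg (fun h3 => hG h3.2), if_pos hG, zero_add]
    · rw [if_neg hp, if_neg (fun h3 => hp h3.1)]
      simp
  have hF' : ∀ i : Fin (T * K), Z * ((1 - s) * (ρ * βc Q (T * K) ε)) ≤
      ∑ n ∈ S, if pr' i n then u n else 0 := by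
    intro i
    have h3 := hS2 i
    have h4 := hlossi i
    have h5 := hsplit i
    have h6 : Z * ((1 - s) * (ρ * βc Q (T * K) ε)) = Z * (ρ * βc Q (T * K) ε) -
      s * (Z * (ρ * βc Q (T * K) ε)) := by ring
    rw [h6]
    linarith
  have h1s : 0 < 1 - s := by linarith
  have hP' : ∀ g : Fin T, ∀ i ∈ univ.filter (fun i => cl i = g),
      ∑ j ∈ (univ.filter (fun i => cl i = g)).erase i,
        (∑ n ∈ S, if pr' i n ∧ pr' j n then u n else 0) ≤
      (muL Q T K nb g0 ε₁ ρ CR κ₁ ε / (1 - s)) * ∑ n ∈ S, if pr' i n then u n else 0 := by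
    intro g i hi
    have h3 := hS3 g i hi
    have h4 : ∑ j ∈ (univ.filter (fun i => cl i = g)).erase i,
        (∑ n ∈ S, if pr' i n ∧ pr' j n then u n else 0) ≤
        ∑ j ∈ (univ.filter (fun i => cl i = g)).erase i,
        (∑ n ∈ S, if (Fm α h Mo i n).toNat.Prime ∧ (Fm α h Mo j n).toNat.Prime then u n
          else 0) := by
      refine Finset.sum_le_sum fun j _ => Finset.sum_le_sum fun n _ => ?_
      simp only [hpr']
      split_ifs with c1 c2
      · exact le_rfl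
      · exact absurd ⟨c1.1.1, c1.2.1⟩ c2
      · exact hu0 n
      · exact le_rfl
    have h5 := hS2 i
    have h6 := hlossi i
    have h7 := hsplit i
    set Fi := ∑ n ∈ S, (if (Fm α h Mo i n).toNat.Prime then u n else 0) with hFi
    set Fi' := ∑ n ∈ S, (if pr' i n then u n else 0) with hFi'
    have h8 : (1 - s) * Fi ≤ Fi' := by
      have h9 : s * (Z * (ρ * βc Q (T * K) ε)) ≤ s * Fi := mul_le_mul_of_nonneg_left h5 hs0.le
      linarith
    calc _ ≤ muL Q T K nb g0 ε₁ ρ CR κ₁ ε * Fi := h4.trans h3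
      _ = (muL Q T K nb g0 ε₁ ρ CR κ₁ ε / (1 - s)) * ((1 - s) * Fi) := by field_simp
      _ ≤ _ := mul_le_mul_of_nonneg_left h8 (div_nonneg hmuc h1s.le)
  -- the exceptional set
  set E2 : Finset ℕ := (Icc 1 N).filter (fun n : ℕ => n ≡ v [MOD (WW D)] ∧
        (N : ℝ) / 16 ≤ n ∧ (n : ℝ) ≤ N / 2 ∧ Gd' n ∧
        Mc + 1 ≤ (G₁.filter (fun g : Fin T => ∃ i, cl i = g ∧
          (Fm α h Mo i n).toNat.Prime)).card) with hE2
  have hE2E : E2 ⊆ E := by
    intro n hn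
    rw [hE2, Finset.mem_filter] at hn
    rw [hE, Finset.mem_filter]
    exact ⟨hn.1, hn.2.1, hn.2.2.1, hn.2.2.2.1, hn.2.2.2.2.1.1, hn.2.2.2.2.1.2.2,
      hn.2.2.2.2.2⟩
  have hS4 : ∀ n ∈ S, n ∉ E2 → (G₁.filter (fun g : Fin T => ∃ i, cl i = g ∧ pr' i n)).card ≤
      Mc := by
    intro n hn hnE
    by_contra hc
    rw [not_le] at hc
    obtain ⟨hn1, hn2, hn3⟩ := hSm n hn
    obtain ⟨hn4, hn5, hn6⟩ := hNsm n hn1
    have h3 : (G₁.filter (fun g : Fin T => ∃ i, cl i = g ∧ pr' i n)).Nonempty := by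
      rw [← Finset.card_pos]
      omega
    obtain ⟨g, hg⟩ := h3
    obtain ⟨-, i, -, hpi⟩ := Finset.mem_filter.1 hg
    apply hnE
    rw [hE2, Finset.mem_filter, Finset.mem_Icc]
    refine ⟨⟨hn4, hn5⟩, hn6, hn2, hn3, hpi.2, hc.trans_le (Finset.card_le_card ?_)⟩
    intro g' hg'
    rw [Finset.mem_filter] at hg' ⊢
    obtain ⟨h4, j, h5, h6⟩ := hg'
    exact ⟨h4, j, h5, h6.1⟩
  have hS5 : G₁.card * ∑ n ∈ S.filter (fun n => n ∈ E2), u n ≤
      Z * (2 * ε * Ac Q (T * K) ε) := by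
    have h2 : ∑ n ∈ S.filter (fun n => n ∈ E2), w2 n ≤ c * Cq * Z1 := by
      have h3 : ∑ n ∈ S.filter (fun n => n ∈ E2), w2 n ≤
          ∑ _n ∈ S.filter (fun n => n ∈ E2), Cq * (bb N B ρ) ^ (2 * (T * K + 1)) := by
        apply Finset.sum_le_sum
        intro n hn
        rw [Finset.mem_filter] at hn
        obtain ⟨hn1, hn2, hn3⟩ := hSm n hn.1
        obtain ⟨hn4, hn5, hn6⟩ := hNsm n hn1
        have hnE := hn.2
        rw [hE2, Finset.mem_filter] at hnE
        refine hpt n hn4 hn5 ?_ hnE.2.2.2.2.1.1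
        intro i h4
        have h5 := hh i n hn2 hn3
        have h6 : Fm α h Mo i n = 0 := h4
        rw [h6] at h5
        push_cast at h5
        linarith
      refine h3.trans ?_
      rw [Finset.sum_const, nsmul_eq_mul]
      have h4 : ((S.filter (fun n => n ∈ E2)).card : ℝ) ≤ E.card := by
        exact_mod_cast Finset.card_le_card (fun n hn => hE2E (Finset.mem_filter.1 hn).2)
      have h5 : ((S.filter (fun n => n ∈ E2)).card : ℝ) ≤ c * ((N : ℝ) / WW D *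
          Pool.Agent.W25.UN.VV α h Mo D (DB (2 * N) B) / (bb N B ρ) ^ (T * K + 1)) :=
        h4.trans hcon.le
      calc ((S.filter (fun n => n ∈ E2)).card : ℝ) * (Cq * (bb N B ρ) ^ (2 * (T * K + 1))) ≤
          c * ((N : ℝ) / WW D * Pool.Agent.W25.UN.VV α h Mo D (DB (2 * N) B) /
            (bb N B ρ) ^ (T * K + 1)) * (Cq * (bb N B ρ) ^ (2 * (T * K + 1))) :=
            mul_le_mul_of_nonneg_right h5 (by positivity)
        _ = c * Cq * Z1 := by
            rw [hZ1, two_mul (T * K + 1), pow_add (bb N B ρ) (T * K + 1) (T * K + 1)]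
            have hbq : 0 < bb N B ρ ^ (T * K + 1) := by positivity
            obtain ⟨bq, hbqd⟩ : ∃ bq : ℝ, bq = bb N B ρ ^ (T * K + 1) := ⟨_, rfl⟩
            rw [← hbqd] at hbq ⊢
            field_simp
    have h3 : ∑ n ∈ S.filter (fun n => n ∈ E2), u n ≤ (c * Cq) * Z1 :=
      (Finset.sum_le_sum fun n _ => hu2 n).trans h2
    have hTr : (0 : ℝ) ≤ T := Nat.cast_nonneg _
    have hGT : (G₁.card : ℝ) ≤ T := by
      have h4 := Finset.card_le_univ G₁
      rw [Fintype.card_fin] at h4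
      exact_mod_cast h4
    have hεA : 0 ≤ ε * Ac Q (T * K) ε * Z := by positivity
    calc G₁.card * ∑ n ∈ S.filter (fun n => n ∈ E2), u n ≤ T * ((c * Cq) * Z1) := by
          apply mul_le_mul hGT h3 (Finset.sum_nonneg fun n _ => hu0 n) hTr
      _ ≤ T * ((c * Cq) * (6144 * Z)) := by gcongr
      _ = (6144 * T * (c * Cq)) * Z := by ring
      _ ≤ (ε * Ac Q (T * K) ε) * Z := by gcongr
      _ ≤ _ := by linarith
  have hfin := countS Mc cl hcl G₁ S u (fun n _ => hu0 n) pr' E2 Z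
    ((1 - s) * (ρ * βc Q (T * K) ε)) (Ac Q (T * K) ε)
    (muL Q T K nb g0 ε₁ ρ CR κ₁ ε / (1 - s)) (2 * ε) hZp (div_nonneg hmuc h1s.le) hS1 hF' hP'
    hS4 hS5
  have h3 := mul_le_mul_of_nonneg_left hfin h1s.le
  have h4 : (1 - s) * ((1 + muL Q T K nb g0 ε₁ ρ CR κ₁ ε / (1 - s)) *
      ((Mc + 2 * ε) * Ac Q (T * K) ε)) =
      ((1 - s) + muL Q T K nb g0 ε₁ ρ CR κ₁ ε) * ((Mc + 2 * ε) * Ac Q (T * K) ε) := by
    field_simp
  rw [h4] at h3
  have h5 : ((1 - s) + muL Q T K nb g0 ε₁ ρ CR κ₁ ε) * ((Mc + 2 * ε) * Ac Q (T * K) ε) ≤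
      (1 + muL Q T K nb g0 ε₁ ρ CR κ₁ ε) * ((Mc + 2 * ε) * Ac Q (T * K) ε) := by
    apply mul_le_mul_of_nonneg_right _ (by positivity)
    linarith
  have h6 : (1 - s) * (G₁.card * (K * ((1 - s) * (ρ * βc Q (T * K) ε)))) =
      G₁.card * (1 - s) ^ 2 * (K * (ρ * βc Q (T * K) ε)) := by ring
  rw [h6] at h3
  linarith

end Pool.Agent.Z296.AP
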