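import Mathlib
import Pool.Agent.Z296.AP.CoreP
import Pool.Agent.Y827.RO.SmallE

/-! Project AP (helper296): the exceptional divisibilities have small mass. -/

set_option autoImplicit false

namespace Pool.Agent.Z296.AP

open Finset Filter Topology
open Pool.Agent.H410R2 hiding GP GP_prof GP_cut_some GP_cut_none GP_lip gg_pos gg_le_one gg_anti ee_bound ee_nonneg gg_lip LB_gg LB_ee Sums exists_sums yx wx wxi Br sum_GP_none sum_GP_some sum_GP_some_ee sum_GP_some_one sum_GPr_none sum_GPr_some S1_final QI_final S2_final w_abs_le wmax gg ee I1 I2 IE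
open Pool.Agent.H361R2.GM
open Pool.Agent.H362R2.CM
open Pool.Agent.W25.UN
open Pool.Agent.W25.UB
open Pool.Agent.TH899.UG
open Pool.Agent.Y827.LS Pool.Agent.Y827.RO

/-- the number of the `n ≤ N` with `m ∣ a n + b` -/
theorem cnt_dvd (m N : ℕ) (hm : 0 < m) (a b : ℤ) (hco : IsCoprime (m : ℤ) a) :
    (((Icc 1 N).filter (fun n : ℕ => (m : ℤ) ∣ a * n + b)).card : ℝ) ≤ (N : ℝ) / m + 1 := by
  rcases Finset.eq_empty_or_nonempty ((Icc 1 N).filter (fun n : ℕ => (m : ℤ) ∣ a * n + b)) with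
    he | ⟨n₀, hn₀⟩
  · rw [he, Finset.card_empty, Nat.cast_zero]
    positivity
  · rw [Finset.mem_filter] at hn₀
    have hsub : (Icc 1 N).filter (fun n : ℕ => (m : ℤ) ∣ a * n + b) ⊆
        (Ioc 0 N).filter (fun n => n ≡ n₀ [MOD m]) := by
      intro n hn
      rw [Finset.mem_filter, Finset.mem_Icc] at hn
      rw [Finset.mem_filter, Finset.mem_Ioc]
      refine ⟨⟨by omega, hn.1.2⟩, ?_⟩
      have h1 : (m : ℤ) ∣ a * ((n₀ : ℤ) - n) := by
        have e : a * ((n₀ : ℤ) - n) = (a * n₀ + b) - (a * n + b) := by ring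
        rw [e]
        exact dvd_sub hn₀.2 hn.2
      have h2 := hco.dvd_of_dvd_mul_left h1
      exact (Nat.modEq_iff_dvd).2 h2
    have h2 := Nat.Ioc_filter_modEq_card 0 N hm n₀
    have h3 : (((Ioc 0 N).filter (fun n => n ≡ n₀ [MOD m])).card : ℝ) ≤ (N : ℝ) / m + 1 := by
      have h4 : ((((Ioc 0 N).filter (fun n => n ≡ n₀ [MOD m])).card : ℤ) : ℚ) ≤
          (N : ℚ) / m + 1 := by
        rw [h2]
        push_cast
        apply max_le
        · have h5 := Int.floor_le (((N : ℚ) - n₀) / m)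
          have h6 := Int.lt_floor_add_one (((0 : ℚ) - n₀) / m)
          have h7 : ((N : ℚ) - n₀) / m - ((0 : ℚ) - n₀) / m = (N : ℚ) / m := by ring
          linarith
        · positivity
      have h5 : (((((Ioc 0 N).filter (fun n => n ≡ n₀ [MOD m])).card : ℤ) : ℚ) : ℝ) ≤
          (((N : ℚ) / m + 1 : ℚ) : ℝ) := by exact_mod_cast h4
      push_cast at h5
      exact h5
    exact le_trans (by exact_mod_cast Finset.card_le_card hsub) h3

/-- a tail of the sum of the inverse squares -/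
theorem sq_tail (m Y : ℕ) (hm : 1 ≤ m) : ∑ q ∈ Icc m Y, (1 : ℝ) / (q : ℝ) ^ 2 ≤ 2 / m := by
  have h1 : Icc m Y = Ioo (m - 1) (Y + 1) := by
    ext x
    rw [Finset.mem_Icc, Finset.mem_Ioo]
    omega
  have h2 := sum_Ioo_inv_sq_le (α := ℝ) (m - 1) (Y + 1)
  rw [h1]
  have h3 : (((m - 1 : ℕ) : ℝ) + 1) = m := by
    have : ((m - 1 : ℕ) : ℝ) = (m : ℝ) - 1 := by
      rw [Nat.cast_sub hm]
      simp
    rw [this]
    ring
  rw [h3] at h2
  refine le_trans (le_of_eq ?_) h2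
  refine Finset.sum_congr rfl fun q _ => ?_
  rw [one_div]

open Classical in
theorem card_bi {ι : Type} (I : Finset ι) (A : ι → Finset ℕ) (f : ι → ℝ)
    (hf : ∀ i ∈ I, ((A i).card : ℝ) ≤ f i) : ((I.biUnion A).card : ℝ) ≤ ∑ i ∈ I, f i := by
  have h1 : ((I.biUnion A).card : ℝ) ≤ ∑ i ∈ I, ((A i).card : ℝ) := by
    exact_mod_cast Finset.card_biUnion_le
  exact h1.trans (Finset.sum_le_sum hf)

open Classical in
theorem spc_cnt {k : ℕ} (α h : Fin k → ℤ) (Mo N D : ℕ) (ε₁ lz : ℝ) (hN : 1 ≤ N)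
    (hα : ∀ i, α i ≠ 0) (hαD : ∀ i, (α i).natAbs ≤ D) (hHB : HB h Mo N)
    (hlz2 : Real.log 2 ≤ lz) (hlzD : (D : ℝ) < Real.exp lz)
    (hX7 : (D : ℝ) + 1 < ((2 * N : ℕ) : ℝ) ^ (1 / 7 : ℝ)) (S : Finset ℕ) (hS : S ⊆ Icc 1 N) :
    ((S.filter (fun n => Rgh α h Mo lz n ∧ Spc α h Mo N ε₁ n)).card : ℝ) ≤
      k * ((((CL (uB α) (wB h Mo)).card : ℝ) + 1) * (N / Real.exp lz + 1) +
        (2 * N / ((2 * N : ℕ) : ℝ) ^ (1 / 7 : ℝ) + Real.sqrt ((D + 2) * N))) := by
  have hN0 : (0 : ℝ) < N := by exact_mod_cast hN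
  set X7 : ℝ := ((2 * N : ℕ) : ℝ) ^ (1 / 7 : ℝ) with hX7d
  have hX70 : 0 < X7 := lt_of_le_of_lt (by positivity) hX7
  obtain ⟨Y, hY⟩ : ∃ Y : ℕ, Y = Nat.sqrt ((D + 2) * N) := ⟨_, rfl⟩
  obtain ⟨C', hC'⟩ : ∃ C' : Finset ℕ, C' = (insert ⌊((2 * N : ℕ) : ℝ) ^ ε₁⌋₊
      (CL (uB α) (wB h Mo))).filter (fun p : ℕ => p.Prime ∧ lz < Real.log p) := ⟨_, rfl⟩
  obtain ⟨Qs, hQs⟩ : ∃ Qs : Finset ℕ, Qs = (Icc ⌈X7⌉₊ Y).filter Nat.Prime := ⟨_, rfl⟩
  have hexp : 0 < Real.exp lz := Real.exp_pos _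
  -- coprimality
  have hcop : ∀ (p : ℕ) (j : Fin k), p.Prime → (D : ℝ) < p → IsCoprime (p : ℤ) (α j) := by
    intro p j hp hDp
    have h1 : D < p := by exact_mod_cast hDp
    have h2 : ¬ p ∣ (α j).natAbs := by
      intro h3
      have h4 := Nat.le_of_dvd (Int.natAbs_pos.2 (hα j)) h3
      have := hαD j
      omega
    have h3 := (Nat.Prime.coprime_iff_not_dvd hp).2 h2
    rw [Int.isCoprime_iff_gcd_eq_one, Int.gcd_eq_natAbs, Int.natAbs_natCast]
    exact h3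
  have hcov : S.filter (fun n => Rgh α h Mo lz n ∧ Spc α h Mo N ε₁ n) ⊆
      (univ : Finset (Fin k)).biUnion (fun j =>
        C'.biUnion (fun p => (Icc 1 N).filter (fun n : ℕ => (p : ℤ) ∣ α j * n + (Mo + h j))) ∪
        Qs.biUnion (fun q => (Icc 1 N).filter
          (fun n : ℕ => ((q ^ 2 : ℕ) : ℤ) ∣ α j * n + (Mo + h j)))) := by
    intro n hn
    rw [Finset.mem_filter] at hn
    obtain ⟨hnS, hR, j, hj⟩ := hn
    have hn1 := hS hnS
    rw [Finset.mem_biUnion]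
    refine ⟨j, Finset.mem_univ _, ?_⟩
    have hL : ∀ x : ℕ, Lf α h Mo (some j) x = α j * x + (Mo + h j) := fun x => rfl
    rcases hj with ⟨p, hp, hpC, hpd⟩ | ⟨q, hq, hqX, hqd⟩
    · apply Finset.mem_union_left
      rw [Finset.mem_biUnion]
      refine ⟨p, ?_, ?_⟩
      · rw [hC', Finset.mem_filter, Finset.mem_insert]
        refine ⟨?_, hp, ?_⟩
        · rcases hpC with h1 | h1
          · exact Or.inr h1
          · exact Or.inl h1
        · by_contra hc
          push Not at hc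
          apply hR p hp hc (some j)
          unfold LZ
          exact Int.natCast_dvd.1 hpd
      · rw [Finset.mem_filter]
        exact ⟨hn1, by rw [← hL]; exact hpd⟩
    · apply Finset.mem_union_right
      rw [Finset.mem_biUnion]
      refine ⟨q, ?_, ?_⟩
      · rw [hQs, Finset.mem_filter, Finset.mem_Icc]
        refine ⟨⟨Nat.ceil_le.2 hqX, ?_⟩, hq⟩
        rw [hY, Nat.le_sqrt']
        have hne : Lf α h Mo (some j) n ≠ 0 := by
          intro h0
          apply hR 2 Nat.prime_two (by exact_mod_cast hlz2) (some j)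
          unfold LZ
          apply Int.natCast_dvd.1
          have h1 : uB α (some j) * (n : ℤ) + wB h Mo (some j) = 0 := h0
          rw [h1]
          exact dvd_zero _
        have h1 : ((q : ℤ) ^ 2).natAbs ≤ (Lf α h Mo (some j) n).natAbs :=
          Nat.le_of_dvd (Int.natAbs_pos.2 hne) (Int.natAbs_dvd_natAbs.2 hqd)
        have h2 : ((q : ℤ) ^ 2).natAbs = q ^ 2 := by
          rw [Int.natAbs_pow, Int.natAbs_natCast]
        rw [h2] at h1
        refine h1.trans ?_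
        have h3 : |Lf α h Mo (some j) n| ≤ ((D + 2) * N : ℕ) := by
          rw [hL]
          have h4 := hHB j
          have h5 : |α j * (n : ℤ)| ≤ D * N := by
            rw [abs_mul]
            have h6 : |α j| ≤ D := by
              have := hαD j
              rw [Int.abs_eq_natAbs]
              exact_mod_cast this
            have h7 : |(n : ℤ)| ≤ N := by
              rw [Nat.abs_cast]
              have := (Finset.mem_Icc.1 hn1).2
              exact_mod_cast this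
            exact mul_le_mul h6 h7 (abs_nonneg _) (by positivity)
          have h6 := abs_add_le (α j * (n : ℤ)) (Mo + h j)
          push_cast
          have h7 : (0 : ℤ) ≤ N := by positivity
          nlinarith
        have h4 : ((Lf α h Mo (some j) n).natAbs : ℤ) ≤ (((D + 2) * N : ℕ) : ℤ) := by
          rw [← Int.abs_eq_natAbs]
          exact h3
        exact_mod_cast h4
      · rw [Finset.mem_filter]
        refine ⟨hn1, ?_⟩
        rw [← hL]
        push_cast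
        exact hqd
  have h1 : ((S.filter (fun n => Rgh α h Mo lz n ∧ Spc α h Mo N ε₁ n)).card : ℝ) ≤
      (((univ : Finset (Fin k)).biUnion (fun j =>
        C'.biUnion (fun p => (Icc 1 N).filter (fun n : ℕ => (p : ℤ) ∣ α j * n + (Mo + h j))) ∪
        Qs.biUnion (fun q => (Icc 1 N).filter
          (fun n : ℕ => ((q ^ 2 : ℕ) : ℤ) ∣ α j * n + (Mo + h j))))).card : ℝ) := by
    exact_mod_cast Finset.card_le_card hcov
  refine h1.trans ?_
  have hCc : (C'.card : ℝ) ≤ ((CL (uB α) (wB h Mo)).card : ℝ) + 1 := by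
    rw [hC']
    exact_mod_cast (Finset.card_le_card (Finset.filter_subset _ _)).trans
      (Finset.card_insert_le _ _)
  have hYr : (Y : ℝ) ≤ Real.sqrt ((D + 2) * N) := by
    apply Real.le_sqrt_of_sq_le
    have h2 : Y * Y ≤ (D + 2) * N := by rw [hY]; exact Nat.sqrt_le _
    have h3 : ((Y * Y : ℕ) : ℝ) ≤ (((D + 2) * N : ℕ) : ℝ) := by exact_mod_cast h2
    push_cast at h3
    nlinarith
  have h2 := card_bi (univ : Finset (Fin k)) (fun j =>
        C'.biUnion (fun p => (Icc 1 N).filter (fun n : ℕ => (p : ℤ) ∣ α j * n + (Mo + h j))) ∪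
        Qs.biUnion (fun q => (Icc 1 N).filter
          (fun n : ℕ => ((q ^ 2 : ℕ) : ℤ) ∣ α j * n + (Mo + h j))))
    (fun _ => (((CL (uB α) (wB h Mo)).card : ℝ) + 1) * (N / Real.exp lz + 1) +
        (2 * N / X7 + Real.sqrt ((D + 2) * N))) (by
      intro j _
      have g1 : ((C'.biUnion (fun p => (Icc 1 N).filter
          (fun n : ℕ => (p : ℤ) ∣ α j * n + (Mo + h j)))).card : ℝ) ≤
          (((CL (uB α) (wB h Mo)).card : ℝ) + 1) * (N / Real.exp lz + 1) := by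
        refine (card_bi C' _ (fun _ => N / Real.exp lz + 1) ?_).trans ?_
        · intro p hp
          rw [hC', Finset.mem_filter] at hp
          have hp0 : (0 : ℝ) < p := by exact_mod_cast hp.2.1.pos
          have h3 : Real.exp lz < p := (Real.lt_log_iff_exp_lt hp0).1 hp.2.2
          refine (cnt_dvd p N hp.2.1.pos (α j) _ (hcop p j hp.2.1 (hlzD.trans h3))).trans ?_
          have h4 : (N : ℝ) / p ≤ N / Real.exp lz :=
            div_le_div_of_nonneg_left hN0.le hexp h3.le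
          linarith
        · rw [Finset.sum_const, nsmul_eq_mul]
          exact mul_le_mul_of_nonneg_right hCc (by positivity)
      have g2 : ((Qs.biUnion (fun q => (Icc 1 N).filter
          (fun n : ℕ => ((q ^ 2 : ℕ) : ℤ) ∣ α j * n + (Mo + h j)))).card : ℝ) ≤
          2 * N / X7 + Real.sqrt ((D + 2) * N) := by
        refine (card_bi Qs _ (fun q => N * (1 / (q : ℝ) ^ 2) + 1) ?_).trans ?_
        · intro q hq
          rw [hQs, Finset.mem_filter, Finset.mem_Icc] at hq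
          have hqX : X7 ≤ q := Nat.ceil_le.1 hq.1.1
          have h3 : IsCoprime ((q ^ 2 : ℕ) : ℤ) (α j) := by
            push_cast
            exact (hcop q j hq.2 (by linarith)).pow_left
          refine (cnt_dvd (q ^ 2) N (pow_pos hq.2.pos 2) (α j) _ h3).trans (le_of_eq ?_)
          push_cast
          ring
        · rw [Finset.sum_add_distrib, ← Finset.mul_sum, Finset.sum_const, nsmul_eq_mul, mul_one]
          have h3 : ∑ q ∈ Qs, (1 : ℝ) / (q : ℝ) ^ 2 ≤ 2 / X7 := by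
            have h4 : 1 ≤ ⌈X7⌉₊ := Nat.one_le_ceil_iff.2 hX70
            calc ∑ q ∈ Qs, (1 : ℝ) / (q : ℝ) ^ 2 ≤ ∑ q ∈ Icc ⌈X7⌉₊ Y, (1 : ℝ) / (q : ℝ) ^ 2 := by
                  apply Finset.sum_le_sum_of_subset_of_nonneg
                  · rw [hQs]; exact Finset.filter_subset _ _
                  · intro q _ _
                    positivity
              _ ≤ 2 / (⌈X7⌉₊ : ℝ) := sq_tail _ _ h4
              _ ≤ 2 / X7 := div_le_div_of_nonneg_left (by norm_num) hX70 (Nat.le_ceil _)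
          have h4 : (Qs.card : ℝ) ≤ Y := by
            have h5 : Qs ⊆ Icc 1 Y := by
              intro q hq
              rw [hQs, Finset.mem_filter, Finset.mem_Icc] at hq
              rw [Finset.mem_Icc]
              exact ⟨hq.2.one_lt.le, hq.1.2⟩
            have h6 := Finset.card_le_card h5
            rw [Nat.card_Icc] at h6
            exact_mod_cast (by omega : Qs.card ≤ Y)
          have h5 := mul_le_mul_of_nonneg_left h3 hN0.le
          have h6 : (N : ℝ) * (2 / X7) = 2 * N / X7 := by ring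
          linarith
      have g3 : ((C'.biUnion (fun p => (Icc 1 N).filter
            (fun n : ℕ => (p : ℤ) ∣ α j * n + (Mo + h j))) ∪
          Qs.biUnion (fun q => (Icc 1 N).filter
            (fun n : ℕ => ((q ^ 2 : ℕ) : ℤ) ∣ α j * n + (Mo + h j)))).card : ℝ) ≤
          ((C'.biUnion (fun p => (Icc 1 N).filter
            (fun n : ℕ => (p : ℤ) ∣ α j * n + (Mo + h j)))).card : ℝ) +
          ((Qs.biUnion (fun q => (Icc 1 N).filter
            (fun n : ℕ => ((q ^ 2 : ℕ) : ℤ) ∣ α j * n + (Mo + h j)))).card : ℝ) := by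
        exact_mod_cast Finset.card_union_le _ _
      linarith)
  refine h2.trans (le_of_eq ?_)
  rw [Finset.sum_const, Finset.card_univ, Fintype.card_fin, nsmul_eq_mul]


open Classical in
/-- **the exceptional divisibilities have small mass** -/
theorem spc_mass (k : ℕ) (Q : SPar) (ρ ρ₁ δ ε₁ : ℝ) (B D : ℕ) (hρ : 0 < ρ) (hρ1 : ρ ≤ 1)
    (hδ : 0 < δ) (Cq ε'' : ℝ) (hCq : 0 ≤ Cq) (hε'' : 0 < ε'') (α : Fin k → ℤ)
    (hα : ∀ i, α i ≠ 0) (hαD : ∀ i, (α i).natAbs ≤ D) (hW : (0 : ℝ) < WW D) :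
    ∀ᶠ N : ℕ in atTop, ∀ (h : Fin k → ℤ) (Mo : ℕ), HB h Mo N → Nd α h Mo →
      1 / Real.log N ≤ Pool.Agent.W25.UN.VV α h Mo D (DB (2 * N) B) → 1 ≤ bb N B ρ → ∀ v : ℕ,
      (∀ n : ℕ, 1 ≤ n → n ≤ N → (∀ i, (Mo : ℤ) + α i * n + h i ≠ 0) →
        (∀ p : ℕ, p.Prime → Real.log p ≤ δ * Real.log N → ∀ q,
          ¬ p ∣ LZ (uB α) (wB h Mo) q n) →
        (wZ Q (uB α) (wB h Mo) (PBF α h Mo N B ρ₁) (ρ * Real.log N) n) ^ 2 ≤
          Cq * (bb N B ρ) ^ (2 * (k + 1))) →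
      ∑ n ∈ (Ns α h D (DB (2 * N) B) Mo v N).filter
        (fun n => Rgh α h Mo (δ * Real.log N) n ∧ Spc α h Mo N ε₁ n),
        (wZ Q (uB α) (wB h Mo) (PBF α h Mo N B ρ₁) (ρ * Real.log N) n) ^ 2 ≤
      ε'' * ((N : ℝ) / WW D * Pool.Agent.W25.UN.VV α h Mo D (DB (2 * N) B) *
        (bb N B ρ) ^ (k + 1)) := by
  obtain ⟨C', hCC⟩ := clH k α
  obtain ⟨δ', hδ'd⟩ : ∃ δ' : ℝ, δ' = min δ (1 / 7) := ⟨_, rfl⟩
  have hδ'0 : 0 < δ' := by rw [hδ'd]; exact lt_min hδ (by norm_num)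
  have hδ'1 : δ' ≤ δ := by rw [hδ'd]; exact min_le_left _ _
  have hδ'2 : δ' ≤ 1 / 7 := by rw [hδ'd]; exact min_le_right _ _
  obtain ⟨c0, hc0⟩ : ∃ c0 : ℝ, c0 = k * Cq * WW D / ε'' := ⟨_, rfl⟩
  have hc00 : 0 ≤ c0 := by rw [hc0]; positivity
  filter_upwards [hCC, ev_poly (c0 * (2 * (|C'| + 1) + D + 4)) (k + 3) (1 - δ') 1 (by linarith),
    ev_log 1, ev_log (Real.log 2 / δ), ev_log ((Real.log (D + 1) + 1) / δ),
    ev_poly ((D : ℝ) + 2) 0 0 (1 / 7) (by norm_num), eventually_ge_atTop 3]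
    with N hCC hpoly hl1 hl2 hlD hX7 hN3 h Mo hMo hnd hV hb v hpt
  replace hCC := hCC h Mo hMo hnd
  have hN1 : 1 ≤ N := by omega
  have hN0 : (0 : ℝ) < N := by exact_mod_cast hN1
  have hNge1 : (1 : ℝ) ≤ N := by exact_mod_cast hN1
  obtain ⟨l, hl⟩ : ∃ l : ℝ, l = Real.log N := ⟨_, rfl⟩
  rw [← hl] at hCC hpoly hl1 hl2 hlD hV hpt ⊢
  have hl0 : 0 < l := by linarith
  have hlz2 : Real.log 2 ≤ δ * l := by
    rw [div_le_iff₀ hδ] at hl2
    linarith
  have hlzD : (D : ℝ) < Real.exp (δ * l) := by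
    rw [div_le_iff₀ hδ] at hlD
    have h1 : Real.log (D + 1) < δ * l := by linarith
    have h2 : (0 : ℝ) < D + 1 := by positivity
    have h3 := (Real.log_lt_iff_lt_exp h2).1 h1
    linarith
  rw [pow_zero, mul_one, Real.rpow_zero, mul_one] at hX7
  have h2N : (N : ℝ) ≤ ((2 * N : ℕ) : ℝ) := by push_cast; linarith
  have hX7' : (N : ℝ) ^ (1 / 7 : ℝ) ≤ ((2 * N : ℕ) : ℝ) ^ (1 / 7 : ℝ) :=
    Real.rpow_le_rpow hN0.le h2N (by norm_num)
  have hNsub : Ns α h D (DB (2 * N) B) Mo v N ⊆ Icc 1 N := by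
    unfold Ns
    exact Finset.filter_subset _ _
  have hcnt := spc_cnt α h Mo N D ε₁ (δ * l) hN1 hα hαD hMo hlz2 hlzD (by linarith)
    (Ns α h D (DB (2 * N) B) Mo v N) hNsub
  have hbb0 : 0 < bb N B ρ := by linarith
  have hbbl : bb N B ρ ≤ l := by
    unfold bb
    rw [← hl]
    have h1 := Pool.Agent.W25.UN.BD_le_one (DB (2 * N) B)
    have h2 := Pool.Agent.W25.UN.BD_pos (DB (2 * N) B)
    calc BD (DB (2 * N) B) * (ρ * l) ≤ 1 * (1 * l) :=
          mul_le_mul h1 (mul_le_mul_of_nonneg_right hρ1 hl0.le) (by positivity) (by norm_num)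
      _ = l := by ring
  have hsum : ∑ n ∈ (Ns α h D (DB (2 * N) B) Mo v N).filter
        (fun n => Rgh α h Mo (δ * l) n ∧ Spc α h Mo N ε₁ n),
        (wZ Q (uB α) (wB h Mo) (PBF α h Mo N B ρ₁) (ρ * l) n) ^ 2 ≤
      (((Ns α h D (DB (2 * N) B) Mo v N).filter
        (fun n => Rgh α h Mo (δ * l) n ∧ Spc α h Mo N ε₁ n)).card : ℝ) *
        (Cq * (bb N B ρ) ^ (2 * (k + 1))) := by
    rw [← nsmul_eq_mul, ← Finset.sum_const]
    apply Finset.sum_le_sum
    intro n hn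
    rw [Finset.mem_filter] at hn
    have hn1 := Finset.mem_Icc.1 (hNsub hn.1)
    apply hpt n hn1.1 hn1.2 _ hn.2.1
    intro i hi
    apply hn.2.1 2 Nat.prime_two (by exact_mod_cast hlz2) (some i)
    unfold LZ
    apply Int.natCast_dvd.1
    have h1 : uB α (some i) * (n : ℤ) + wB h Mo (some i) = 0 := by
      show α i * (n : ℤ) + (Mo + h i) = 0
      linarith
    rw [h1]
    exact dvd_zero _
  refine hsum.trans ?_
  -- the bound for the count
  have hNδ : (1 : ℝ) ≤ (N : ℝ) ^ (1 - δ') := Real.one_le_rpow hNge1 (by linarith)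
  have t1 : (((CL (uB α) (wB h Mo)).card : ℝ) + 1) * (N / Real.exp (δ * l) + 1) ≤
      ((|C'| + 1) * l) * (2 * (N : ℝ) ^ (1 - δ')) := by
    have h1 : ((CL (uB α) (wB h Mo)).card : ℝ) + 1 ≤ (|C'| + 1) * l := by
      have h2 : C' * l ≤ |C'| * l := mul_le_mul_of_nonneg_right (le_abs_self _) hl0.le
      have h3 : (|C'| + 1) * l = |C'| * l + l := by ring
      linarith
    have h2 : (N : ℝ) / Real.exp (δ * l) ≤ (N : ℝ) ^ (1 - δ') := by
      have h3 : Real.exp (δ * l) = (N : ℝ) ^ δ := by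
        rw [Real.rpow_def_of_pos hN0, ← hl, mul_comm]
      rw [h3]
      calc (N : ℝ) / (N : ℝ) ^ δ = (N : ℝ) ^ (1 - δ) := by
            rw [Real.rpow_sub hN0, Real.rpow_one]
        _ ≤ _ := Real.rpow_le_rpow_of_exponent_le hNge1 (by linarith)
    exact mul_le_mul h1 (by linarith) (by positivity) (by positivity)
  have t2 : 2 * (N : ℝ) / ((2 * N : ℕ) : ℝ) ^ (1 / 7 : ℝ) ≤ 2 * (N : ℝ) ^ (1 - δ') := by
    have h1 : 2 * (N : ℝ) / ((2 * N : ℕ) : ℝ) ^ (1 / 7 : ℝ) ≤ 2 * (N : ℝ) / (N : ℝ) ^ (1 / 7 : ℝ) :=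
      div_le_div_of_nonneg_left (by positivity) (by positivity) hX7'
    have h2 : 2 * (N : ℝ) / (N : ℝ) ^ (1 / 7 : ℝ) = 2 * (N : ℝ) ^ (1 - 1 / 7 : ℝ) := by
      rw [Real.rpow_sub hN0, Real.rpow_one]
      ring
    have h3 : (N : ℝ) ^ (1 - 1 / 7 : ℝ) ≤ (N : ℝ) ^ (1 - δ') :=
      Real.rpow_le_rpow_of_exponent_le hNge1 (by linarith)
    linarith
  have t3 : Real.sqrt ((D + 2) * N) ≤ (D + 2) * (N : ℝ) ^ (1 - δ') := by
    rw [Real.sqrt_le_left (by positivity)]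
    have h1 : (N : ℝ) ≤ ((N : ℝ) ^ (1 - δ')) ^ 2 := by
      rw [← Real.rpow_natCast ((N : ℝ) ^ (1 - δ')) 2, ← Real.rpow_mul hN0.le]
      calc (N : ℝ) = (N : ℝ) ^ (1 : ℝ) := (Real.rpow_one _).symm
        _ ≤ _ := Real.rpow_le_rpow_of_exponent_le hNge1 (by push_cast; linarith)
    have h2 : ((D : ℝ) + 2) ≤ ((D : ℝ) + 2) ^ 2 := by
      have : (0 : ℝ) ≤ D := Nat.cast_nonneg _
      nlinarith
    calc ((D : ℝ) + 2) * N ≤ ((D : ℝ) + 2) ^ 2 * ((N : ℝ) ^ (1 - δ')) ^ 2 :=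
          mul_le_mul h2 h1 hN0.le (by positivity)
      _ = _ := by ring
  have hcnt2 : (((Ns α h D (DB (2 * N) B) Mo v N).filter
        (fun n => Rgh α h Mo (δ * l) n ∧ Spc α h Mo N ε₁ n)).card : ℝ) ≤
      k * ((2 * (|C'| + 1) + D + 4) * l * (N : ℝ) ^ (1 - δ')) := by
    refine hcnt.trans ?_
    apply mul_le_mul_of_nonneg_left _ (Nat.cast_nonneg _)
    have h1 : 2 * (N : ℝ) ^ (1 - δ') + (D + 2) * (N : ℝ) ^ (1 - δ') ≤
        ((D : ℝ) + 4) * l * (N : ℝ) ^ (1 - δ') := by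
      have h2 : (D : ℝ) + 4 ≤ (D + 4) * l := le_mul_of_one_le_right (by positivity) hl1
      have h3 := mul_le_mul_of_nonneg_right h2 (by positivity : (0 : ℝ) ≤ (N : ℝ) ^ (1 - δ'))
      linarith
    have h4 : ((|C'| + 1) * l) * (2 * (N : ℝ) ^ (1 - δ')) +
        ((D : ℝ) + 4) * l * (N : ℝ) ^ (1 - δ') =
        (2 * (|C'| + 1) + D + 4) * l * (N : ℝ) ^ (1 - δ') := by ring
    linarith
  have hCb : 0 ≤ Cq * (bb N B ρ) ^ (2 * (k + 1)) := by positivity
  have hbk : (bb N B ρ) ^ (k + 1) ≤ l ^ (k + 1) := pow_le_pow_left₀ hbb0.le hbbl _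
  have hfin : k * ((2 * (|C'| + 1) + D + 4) * l * (N : ℝ) ^ (1 - δ')) *
      (Cq * l ^ (k + 1)) ≤ ε'' * ((N : ℝ) / WW D * (1 / l)) := by
    rw [Real.rpow_one] at hpoly
    have h1 : k * ((2 * (|C'| + 1) + D + 4) * l * (N : ℝ) ^ (1 - δ')) * (Cq * l ^ (k + 1)) =
        (c0 * (2 * (|C'| + 1) + D + 4) * l ^ (k + 3) * (N : ℝ) ^ (1 - δ')) *
        (ε'' / WW D * (1 / l)) := by
      rw [hc0]
      have : l ^ (k + 3) = l ^ (k + 1) * l * l := by ring
      rw [this]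
      field_simp
    rw [h1]
    calc _ ≤ (N : ℝ) * (ε'' / WW D * (1 / l)) :=
          mul_le_mul_of_nonneg_right hpoly (by positivity)
      _ = _ := by ring
  calc (((Ns α h D (DB (2 * N) B) Mo v N).filter
        (fun n => Rgh α h Mo (δ * l) n ∧ Spc α h Mo N ε₁ n)).card : ℝ) *
        (Cq * (bb N B ρ) ^ (2 * (k + 1))) ≤
      k * ((2 * (|C'| + 1) + D + 4) * l * (N : ℝ) ^ (1 - δ')) *
        (Cq * (bb N B ρ) ^ (2 * (k + 1))) := mul_le_mul_of_nonneg_right hcnt2 hCb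
    _ = (k * ((2 * (|C'| + 1) + D + 4) * l * (N : ℝ) ^ (1 - δ')) *
        (Cq * (bb N B ρ) ^ (k + 1))) * (bb N B ρ) ^ (k + 1) := by ring
    _ ≤ (k * ((2 * (|C'| + 1) + D + 4) * l * (N : ℝ) ^ (1 - δ')) *
        (Cq * l ^ (k + 1))) * (bb N B ρ) ^ (k + 1) := by
        apply mul_le_mul_of_nonneg_right _ (by positivity)
        apply mul_le_mul_of_nonneg_left _ (by positivity)
        exact mul_le_mul_of_nonneg_left hbk hCq
    _ ≤ (ε'' * ((N : ℝ) / WW D * (1 / l))) * (bb N B ρ) ^ (k + 1) :=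
        mul_le_mul_of_nonneg_right hfin (by positivity)
    _ ≤ (ε'' * ((N : ℝ) / WW D * Pool.Agent.W25.UN.VV α h Mo D (DB (2 * N) B))) *
        (bb N B ρ) ^ (k + 1) := by
        apply mul_le_mul_of_nonneg_right _ (by positivity)
        apply mul_le_mul_of_nonneg_left _ hε''.le
        exact mul_le_mul_of_nonneg_left hV (by positivity)
    _ = _ := by ring

end Pool.Agent.Z296.AP
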