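import Mathlib
import Pool.Agent.Y827.RO.FinalR
import Pool.Agent.Z296.AP.AsmP

/-! Project AP (helper296): the coloured theorem with the constant `18 / 5` for arbitrary linear
forms with almost primes in all the classes, unconditionally. -/

set_option autoImplicit false

namespace Pool.Agent.Z296.AP

open Pool.Agent
open Pool.Agent.W25.UN Pool.Agent.W25.UB
open Pool.Agent.H442R2
open Pool.Agent.TH899.UG
open Pool.Agent.Y827.LS Pool.Agent.Y827.GS Pool.Agent.Y827.RO

/-- **the uniform coloured theorem with almost primes, constant `18 / 5`, arbitrary slopes** -/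
theorem thmP : ThmP (fun _ => True) :=
  thmP_of hSML Pool.Agent.W493.UN.WD.main Pool.Agent.W398.UNFO.rc (r2bg (r2tr ttc)) hR2LF hEXM
    Pool.Agent.W505.UBGAU.main hFT3
    (Pool.Agent.W308.UB.main hEXM) (flc3 Pool.Agent.W308.PL.FLW Pool.Agent.W655.PL.VLB)
    hSUM hMASH (Pool.Agent.W940.UBNWL.main Pool.Agent.W21.UN.main)
    Pool.Agent.W398.UNFO.sd hTWaH hTWbH
    (u0F hNWU) (l1F hNWU Pool.Agent.W469.UBNWE.main)
    (u2F hNWU Pool.Agent.W469.UBNWE.main)
    (udF hNWU Pool.Agent.W469.UBNWE.main) hNWU Pool.Agent.W469.UBNWE.main hVLNF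

end Pool.Agent.Z296.AP
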