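import Mathlib
import Pool.Agent.H362R2.CM.Box

/-! Project AP (helper296): Erdos's box lemma with a power saving, and the counting of the tuples
with a property which does not hold on any box. -/

set_option autoImplicit false

namespace Pool.Agent.Z296.AP

open Finset
open Pool.Agent.H362R2.CM

/-- **the box lemma with explicit exponents** -/
theorem boxQ (K : ℕ) (hK : 1 ≤ K) : ∀ T : ℕ, ∃ C₀ : ℝ, 1 ≤ C₀ ∧ ∀ ε : ℝ, 0 < ε → ε ≤ 1 →
    ∀ (α : Type) (V : Fin T → Finset α), (∀ i, C₀ / ε ^ (K ^ T) ≤ ((V i).card : ℝ)) →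
    ∀ B : Finset (Fin T → α),
    B ⊆ Fintype.piFinset V → ε * ∏ i, ((V i).card : ℝ) ≤ B.card →
    ∃ A : Fin T → Fin K → α, (∀ i, Function.Injective (A i)) ∧
      ∀ c : Fin T → Fin K, (fun i => A i (c i)) ∈ B := by
  classical
  intro T
  induction T with
  | zero =>
    refine ⟨1, le_rfl, ?_⟩
    intro ε hε hε1 α V _ B hB hcard
    have h1 : (0 : ℝ) < B.card := by
      refine lt_of_lt_of_le ?_ hcard
      simp [hε]
    have h2 : B.Nonempty := by
      rw [← Finset.card_pos]; exact_mod_cast h1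
    obtain ⟨f, hf⟩ := h2
    refine ⟨fun i => i.elim0, fun i => i.elim0, fun c => ?_⟩
    have : (fun i : Fin 0 => (fun i : Fin 0 => i.elim0 : Fin 0 → Fin K → α) i (c i)) = f := by
      funext i; exact i.elim0
    rw [this]; exact hf
  | succ T ih =>
    obtain ⟨C₀, hC₀, hih⟩ := ih
    refine ⟨C₀ * 2 ^ (K ^ T) + (2 * (K : ℝ) ^ 2 + 1), ?_, ?_⟩
    · have h1 : (0 : ℝ) ≤ C₀ * 2 ^ (K ^ T) := by positivity
      have h2 : (0 : ℝ) ≤ 2 * (K : ℝ) ^ 2 := by positivity
      linarith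
    intro ε hε hε1 α V hV B hB hcard
    have hpp : 0 < ε ^ (K ^ (T + 1)) := by positivity
    have hge : ∀ i, 1 ≤ (V i).card := by
      intro i
      have h1 : (0 : ℝ) < ((V i).card : ℝ) := lt_of_lt_of_le (by positivity) (hV i)
      exact_mod_cast h1
    have hv0 : 2 * (K : ℝ) ^ 2 / ε ^ K < (V 0).card := by
      have h1 : ε ^ (K ^ (T + 1)) ≤ ε ^ K := by
        apply pow_le_pow_of_le_one hε.le hε1
        calc K = K ^ 1 := (pow_one K).symm
          _ ≤ K ^ (T + 1) := Nat.pow_le_pow_right hK (by omega)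
      have h2 : 2 * (K : ℝ) ^ 2 / ε ^ K < (2 * (K : ℝ) ^ 2 + 1) / ε ^ K := by
        apply div_lt_div_of_pos_right _ (by positivity)
        linarith
      have h3 : (2 * (K : ℝ) ^ 2 + 1) / ε ^ K ≤
          (C₀ * 2 ^ (K ^ T) + (2 * (K : ℝ) ^ 2 + 1)) / ε ^ (K ^ (T + 1)) := by
        apply div_le_div₀ (by positivity) _ hpp h1
        have h4 : (0 : ℝ) ≤ C₀ * 2 ^ (K ^ T) := by positivity
        linarith
      exact h2.trans_le (h3.trans (hV 0))
    set V' : Fin T → Finset α := fun i => V i.succ with hV'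
    have hMcard : ((Fintype.piFinset V').card : ℝ) = ∏ i, ((V' i).card : ℝ) := by
      rw [Fintype.card_piFinset]; push_cast; rfl
    have hprod : ∏ i, ((V i).card : ℝ) = (V 0).card * (Fintype.piFinset V').card := by
      rw [Fin.prod_univ_succ, hMcard]
    have hBcard : (B.card : ℝ) =
        ∑ g ∈ Fintype.piFinset V', (((V 0).filter (fun x => glue B x g)).card : ℝ) := by
      have h1 := card_eq_sum_glue B V hB
      rw [h1]
      push_cast
      rfl
    obtain ⟨φ, hφ1, hφ2, hφ3⟩ := box_step K ε hε (V 0) (Fintype.piFinset V') (glue B)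
      hv0 (by
        rw [Fintype.card_piFinset]
        apply Finset.prod_pos
        intro i _
        exact hge i.succ) (by
        rw [← hBcard, mul_assoc, ← hprod]; exact hcard)
    rw [hMcard] at hφ3
    have hε2 : ε ^ K / 2 ≤ 1 := by
      have : ε ^ K ≤ 1 := pow_le_one₀ hε.le hε1
      linarith
    obtain ⟨A', hA'1, hA'2⟩ := hih (ε ^ K / 2) (by positivity) hε2 α V' (fun i => by
        have h1 : C₀ / (ε ^ K / 2) ^ (K ^ T) = C₀ * 2 ^ (K ^ T) / ε ^ (K ^ (T + 1)) := by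
          rw [div_pow, ← pow_mul, pow_succ K T, mul_comm (K ^ T) K]
          field_simp
        rw [h1]
        refine le_trans ?_ (hV i.succ)
        apply div_le_div_of_nonneg_right _ hpp.le
        have h2 : (0 : ℝ) ≤ 2 * (K : ℝ) ^ 2 := by positivity
        linarith)
      ((Fintype.piFinset V').filter (fun g => ∀ j, glue B (φ j) g)) (Finset.filter_subset _ _) hφ3
    refine ⟨Fin.cons φ A', ?_, ?_⟩
    · intro i
      refine Fin.cases ?_ (fun i => ?_) i
      · simp only [Fin.cons_zero]; exact hφ1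
      · simp only [Fin.cons_succ]; exact hA'1 i
    · intro c
      have h1 : glue B (φ (c 0)) (fun i => A' i (c i.succ)) :=
        (mem_filter.1 (hA'2 (fun i => c i.succ))).2 (c 0)
      have h2 : (fun i => (Fin.cons φ A' : Fin (T + 1) → Fin K → α) i (c i)) =
          Fin.cons (φ (c 0)) (fun i => A' i (c i.succ)) := by
        funext i
        refine Fin.cases ?_ (fun i => ?_) i
        · simp
        · simp
      rw [h2]; exact h1

/-- a set without boxes is small -/
theorem no_box_card (T K : ℕ) (hK : 1 ≤ K) : ∃ C₁ : ℝ, 1 ≤ C₁ ∧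
    ∀ (α : Type) (V : Fin T → Finset α) (m : ℝ), 1 ≤ m → (∀ i, m ≤ ((V i).card : ℝ)) →
    ∀ B : Finset (Fin T → α), B ⊆ Fintype.piFinset V →
    (¬ ∃ A : Fin T → Fin K → α, (∀ i, Function.Injective (A i)) ∧
      ∀ c : Fin T → Fin K, (fun i => A i (c i)) ∈ B) →
    (B.card : ℝ) ≤ C₁ * (∏ i, ((V i).card : ℝ)) * m ^ (-(1 / (K : ℝ) ^ T)) := by
  classical
  obtain ⟨C₀, hC₀, H⟩ := boxQ K hK T
  refine ⟨C₀, hC₀, ?_⟩
  intro α V m hm hVm B hB hno
  have hKr : (0 : ℝ) < (K : ℝ) ^ T := by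
    have : (0 : ℝ) < K := by exact_mod_cast hK
    positivity
  have hP : 0 < ∏ i, ((V i).card : ℝ) := Finset.prod_pos fun i _ => by
    have := hVm i
    linarith
  obtain ⟨ε, hε⟩ : ∃ ε : ℝ, ε = (B.card : ℝ) / ∏ i, ((V i).card : ℝ) := ⟨_, rfl⟩
  have hBε : (B.card : ℝ) = ε * ∏ i, ((V i).card : ℝ) := by
    rw [hε]
    field_simp
  have hε0 : 0 ≤ ε := by rw [hε]; exact div_nonneg (Nat.cast_nonneg _) hP.le
  rcases hε0.eq_or_lt with h0 | hεp
  · rw [hBε, ← h0, zero_mul]
    exact mul_nonneg (mul_nonneg (by linarith) hP.le) (Real.rpow_nonneg (by linarith) _)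
  have hε1 : ε ≤ 1 := by
    rw [hε, div_le_one hP]
    have h1 := Finset.card_le_card hB
    rw [Fintype.card_piFinset] at h1
    exact_mod_cast h1
  have hlt : m < C₀ / ε ^ (K ^ T) := by
    by_contra hc
    push Not at hc
    exact hno (H ε hεp hε1 α V (fun i => hc.trans (hVm i)) B hB hBε.symm.le)
  have hεm : ε ^ (K ^ T) ≤ C₀ / m := by
    rw [lt_div_iff₀ (by positivity)] at hlt
    rw [le_div_iff₀ (by linarith)]
    linarith
  have h1 : ε ≤ C₀ * m ^ (-(1 / (K : ℝ) ^ T)) := by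
    have h2 : ε = (ε ^ (K ^ T)) ^ (1 / (K : ℝ) ^ T) := by
      rw [← Real.rpow_natCast ε (K ^ T), ← Real.rpow_mul hε0]
      push_cast
      rw [mul_one_div_cancel hKr.ne', Real.rpow_one]
    have h3 : (ε ^ (K ^ T)) ^ (1 / (K : ℝ) ^ T) ≤ (C₀ / m) ^ (1 / (K : ℝ) ^ T) :=
      Real.rpow_le_rpow (by positivity) hεm (by positivity)
    have h4 : (C₀ / m) ^ (1 / (K : ℝ) ^ T) = C₀ ^ (1 / (K : ℝ) ^ T) * m ^ (-(1 / (K : ℝ) ^ T)) := by
      rw [Real.div_rpow (by linarith) (by linarith), Real.rpow_neg (by linarith)]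
      rfl
    have h5 : C₀ ^ (1 / (K : ℝ) ^ T) ≤ C₀ := by
      have hK1 : (1 : ℝ) ≤ (K : ℝ) ^ T := one_le_pow₀ (by exact_mod_cast hK)
      calc C₀ ^ (1 / (K : ℝ) ^ T) ≤ C₀ ^ (1 : ℝ) := by
            apply Real.rpow_le_rpow_of_exponent_le hC₀
            rw [div_le_one hKr]
            exact hK1
        _ = C₀ := Real.rpow_one _
    calc ε = (ε ^ (K ^ T)) ^ (1 / (K : ℝ) ^ T) := h2
      _ ≤ C₀ ^ (1 / (K : ℝ) ^ T) * m ^ (-(1 / (K : ℝ) ^ T)) := by rw [← h4]; exact h3
      _ ≤ _ := mul_le_mul_of_nonneg_right h5 (Real.rpow_nonneg (by linarith) _)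
  rw [hBε]
  calc ε * ∏ i, ((V i).card : ℝ) ≤ (C₀ * m ^ (-(1 / (K : ℝ) ^ T))) * ∏ i, ((V i).card : ℝ) :=
        mul_le_mul_of_nonneg_right h1 hP.le
    _ = _ := by ring

open Classical in
/-- **the tuples with a property without boxes**: let `Bad` be a property of `T`-tuples which does
not hold for all the transversals of any `K × ... × K` box of distinct elements of `V` with one
residue in every class; then at most `C |V| ^ (T - η)` of the tuples have the property -/
theorem count_res (T K r : ℕ) (hT : 1 ≤ T) (hK : 1 ≤ K) : ∃ C : ℝ, 1 ≤ C ∧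
    ∀ (α R : Type) [Fintype R] (res : α → R), Fintype.card R ≤ r → ∀ (V : Finset α)
      (Bad : (Fin T → α) → Prop),
      (¬ ∃ A : Fin T → Fin K → α, (∀ g i, A g i ∈ V) ∧
        Function.Injective (fun x : Fin T × Fin K => A x.1 x.2) ∧
        (∀ g i j, res (A g i) = res (A g j)) ∧ ∀ c : Fin T → Fin K, Bad (fun g => A g (c g))) →
      (((Fintype.piFinset (fun _ : Fin T => V)).filter (fun f => Bad f)).card : ℝ) ≤
        C * (V.card : ℝ) ^ ((T : ℝ) - 1 / (2 * (K : ℝ) ^ T)) := by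
  obtain ⟨C₁, hC₁, H⟩ := no_box_card T K hK
  refine ⟨(r : ℝ) ^ T * C₁ + (T : ℝ) ^ 2 + 1, ?_, ?_⟩
  · have : (0 : ℝ) ≤ (r : ℝ) ^ T * C₁ := by positivity
    have : (0 : ℝ) ≤ (T : ℝ) ^ 2 := by positivity
    linarith
  intro α R _ res hr V Bad hno
  obtain ⟨v, hv⟩ : ∃ v : ℝ, v = (V.card : ℝ) := ⟨_, rfl⟩
  rcases Nat.eq_zero_or_pos V.card with hv0 | hvp
  · have h1 : Fintype.piFinset (fun _ : Fin T => V) = ∅ := by
      rw [← Finset.card_eq_zero, Fintype.card_piFinset]
      apply Finset.prod_eq_zero (Finset.mem_univ (⟨0, hT⟩ : Fin T))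
      exact hv0
    rw [h1, Finset.filter_empty, Finset.card_empty, Nat.cast_zero]
    positivity
  have hv1 : 1 ≤ v := by rw [hv]; exact_mod_cast hvp
  have hv0 : 0 < v := by linarith
  have hTr : (1 : ℝ) ≤ T := by exact_mod_cast hT
  have hK1 : (1 : ℝ) ≤ (K : ℝ) ^ T := one_le_pow₀ (by exact_mod_cast hK)
  obtain ⟨η, hη⟩ : ∃ η : ℝ, η = 1 / (2 * (K : ℝ) ^ T) := ⟨_, rfl⟩
  have hη0 : 0 < η := by rw [hη]; positivity
  have hη1 : η ≤ 1 / 2 := by
    rw [hη]
    apply one_div_le_one_div_of_le (by norm_num)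
    linarith
  rw [← hη, ← hv]
  have hvη : 0 < v ^ ((T : ℝ) - η) := Real.rpow_pos_of_pos hv0 _
  -- the parts
  set P := Fintype.piFinset (fun _ : Fin T => V) with hP
  set Bρ : (Fin T → R) → Finset (Fin T → α) := fun ρ => P.filter (fun f =>
    Bad f ∧ Function.Injective f ∧ ∀ i, res (f i) = ρ i) with hBρ
  have hcov : P.filter (fun f => Bad f) ⊆ (univ : Finset (Fin T → R)).biUnion Bρ ∪
      P.filter (fun f => ¬ Function.Injective f) := by
    intro f hf
    rw [Finset.mem_filter] at hf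
    by_cases hi : Function.Injective f
    · apply Finset.mem_union_left
      rw [Finset.mem_biUnion]
      refine ⟨fun i => res (f i), Finset.mem_univ _, ?_⟩
      rw [hBρ, Finset.mem_filter]
      exact ⟨hf.1, hf.2, hi, fun _ => rfl⟩
    · apply Finset.mem_union_right
      rw [Finset.mem_filter]
      exact ⟨hf.1, hi⟩
  have hone : ∀ ρ : Fin T → R, ((Bρ ρ).card : ℝ) ≤ C₁ * v ^ ((T : ℝ) - η) := by
    intro ρ
    set Vρ : Fin T → Finset α := fun i => V.filter (fun x => res x = ρ i) with hVρ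
    have hsub : Bρ ρ ⊆ Fintype.piFinset Vρ := by
      intro f hf
      rw [hBρ, Finset.mem_filter] at hf
      rw [Fintype.mem_piFinset]
      intro i
      rw [hVρ, Finset.mem_filter]
      exact ⟨Fintype.mem_piFinset.1 hf.1 i, hf.2.2.2 i⟩
    have hle : ∀ i, ((Vρ i).card : ℝ) ≤ v := by
      intro i
      rw [hv]
      exact_mod_cast Finset.card_le_card (Finset.filter_subset _ _)
    by_cases hbig : ∀ i, v ^ (1 / 2 : ℝ) ≤ ((Vρ i).card : ℝ)
    · have h1 := H α Vρ (v ^ (1 / 2 : ℝ)) (Real.one_le_rpow hv1 (by norm_num)) hbig (Bρ ρ) hsub (by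
        rintro ⟨A, hA1, hA2⟩
        have hA3 : ∀ c : Fin T → Fin K, (∀ g, A g (c g) ∈ V) ∧ Bad (fun g => A g (c g)) ∧
            Function.Injective (fun g => A g (c g)) ∧ ∀ g, res (A g (c g)) = ρ g := by
          intro c
          have h2 := hA2 c
          rw [hBρ, Finset.mem_filter] at h2
          exact ⟨fun g => Fintype.mem_piFinset.1 h2.1 g, h2.2.1, h2.2.2.1, h2.2.2.2⟩
        apply hno
        refine ⟨A, fun g i => (hA3 (fun _ => i)).1 g, ?_, fun g i j => ?_, fun c => (hA3 c).2.1⟩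
        · rintro ⟨g, l⟩ ⟨g', l'⟩ h
          simp only at h
          by_cases hgg : g = g'
          · subst hgg
            rw [hA1 g h]
          · exfalso
            have h1 := (hA3 (Function.update (fun _ => l) g' l')).2.2.1
            apply hgg
            apply h1
            simp only [Function.update_self, Function.update_of_ne hgg]
            exact h
        · rw [(hA3 (fun _ => i)).2.2.2 g, (hA3 (fun _ => j)).2.2.2 g])
      have h2 : ∏ i, ((Vρ i).card : ℝ) ≤ v ^ T := by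
        calc ∏ i, ((Vρ i).card : ℝ) ≤ ∏ _i : Fin T, v :=
              Finset.prod_le_prod (fun i _ => Nat.cast_nonneg _) (fun i _ => hle i)
          _ = v ^ T := by rw [Finset.prod_const, Finset.card_univ, Fintype.card_fin]
      have h3 : (v ^ (1 / 2 : ℝ)) ^ (-(1 / (K : ℝ) ^ T)) = v ^ (-η) := by
        rw [← Real.rpow_mul hv0.le]
        congr 1
        rw [hη]
        ring
      rw [h3] at h1
      calc ((Bρ ρ).card : ℝ) ≤ C₁ * (∏ i, ((Vρ i).card : ℝ)) * v ^ (-η) := h1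
        _ ≤ C₁ * v ^ T * v ^ (-η) := by gcongr
        _ = C₁ * v ^ ((T : ℝ) - η) := by
            rw [sub_eq_add_neg, Real.rpow_add hv0, Real.rpow_natCast]
            ring
    · push Not at hbig
      obtain ⟨i₀, hi₀⟩ := hbig
      have h1 : ((Bρ ρ).card : ℝ) ≤ ∏ i, ((Vρ i).card : ℝ) := by
        have h2 := Finset.card_le_card hsub
        rw [Fintype.card_piFinset] at h2
        exact_mod_cast h2
      have h2 : ∏ i, ((Vρ i).card : ℝ) ≤ v ^ (1 / 2 : ℝ) * v ^ (T - 1) := by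
        rw [← Finset.mul_prod_erase _ _ (Finset.mem_univ i₀)]
        apply mul_le_mul hi₀.le _ (Finset.prod_nonneg fun i _ => Nat.cast_nonneg _) (by positivity)
        calc ∏ i ∈ univ.erase i₀, ((Vρ i).card : ℝ) ≤ ∏ _i ∈ univ.erase i₀, v :=
              Finset.prod_le_prod (fun i _ => Nat.cast_nonneg _) (fun i _ => hle i)
          _ = v ^ (T - 1) := by
              rw [Finset.prod_const, Finset.card_erase_of_mem (Finset.mem_univ _),
                Finset.card_univ, Fintype.card_fin]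
      have h3 : v ^ (1 / 2 : ℝ) * v ^ (T - 1) = v ^ ((T : ℝ) - 1 / 2) := by
        rw [← Real.rpow_natCast v (T - 1), ← Real.rpow_add hv0]
        congr 1
        rw [Nat.cast_sub hT]
        push_cast
        ring
      have h4 : v ^ ((T : ℝ) - 1 / 2) ≤ v ^ ((T : ℝ) - η) :=
        Real.rpow_le_rpow_of_exponent_le hv1 (by linarith)
      have h5 : v ^ ((T : ℝ) - η) ≤ C₁ * v ^ ((T : ℝ) - η) :=
        le_mul_of_one_le_left hvη.le hC₁
      linarith
  have hninj : ((P.filter (fun f => ¬ Function.Injective f)).card : ℝ) ≤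
      (T : ℝ) ^ 2 * v ^ ((T : ℝ) - η) := by
    have h1 := card_not_injective_le T V
    rw [← hv] at h1
    have h2 : ((P.filter (fun f => ¬ Function.Injective f)).card : ℝ) ≤
        (T : ℝ) ^ 2 * v ^ ((T : ℝ) - 1) := by
      rw [Real.rpow_sub hv0, Real.rpow_one, Real.rpow_natCast, ← mul_div_assoc,
        le_div_iff₀ hv0]
      exact h1
    refine h2.trans (mul_le_mul_of_nonneg_left ?_ (by positivity))
    exact Real.rpow_le_rpow_of_exponent_le hv1 (by linarith)
  have h1 : ((P.filter (fun f => Bad f)).card : ℝ) ≤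
      ∑ ρ : Fin T → R, ((Bρ ρ).card : ℝ) +
        ((P.filter (fun f => ¬ Function.Injective f)).card : ℝ) := by
    have h2 := (Finset.card_le_card hcov).trans (Finset.card_union_le _ _)
    have h3 : ((univ : Finset (Fin T → R)).biUnion Bρ).card ≤
        ∑ ρ : Fin T → R, (Bρ ρ).card := Finset.card_biUnion_le
    exact_mod_cast h2.trans (Nat.add_le_add_right h3 _)
  have h2 : ∑ ρ : Fin T → R, ((Bρ ρ).card : ℝ) ≤ (r : ℝ) ^ T * (C₁ * v ^ ((T : ℝ) - η)) := by
    have h3 : ∑ ρ : Fin T → R, ((Bρ ρ).card : ℝ) ≤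
        ∑ _ρ : Fin T → R, C₁ * v ^ ((T : ℝ) - η) := Finset.sum_le_sum fun ρ _ => hone ρ
    refine h3.trans ?_
    rw [Finset.sum_const, nsmul_eq_mul, Finset.card_univ, Fintype.card_fun, Fintype.card_fin]
    apply mul_le_mul_of_nonneg_right _ (by positivity)
    push_cast
    exact pow_le_pow_left₀ (Nat.cast_nonneg _) (by exact_mod_cast hr) T
  calc ((P.filter (fun f => Bad f)).card : ℝ) ≤
      (r : ℝ) ^ T * (C₁ * v ^ ((T : ℝ) - η)) + (T : ℝ) ^ 2 * v ^ ((T : ℝ) - η) := by linarith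
    _ ≤ ((r : ℝ) ^ T * C₁ + (T : ℝ) ^ 2 + 1) * v ^ ((T : ℝ) - η) := by nlinarith

end Pool.Agent.Z296.AP
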