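import Mathlib
import Pool.Agent.W25.QL.Main

/-! Project AP (helper296): the combinatorial theorem with companions. -/

set_option autoImplicit false

namespace Pool.Agent.Z296.AP

open Finset
open Pool.Agent.W70.QP (Cx mem_Cx card_pull)
open Pool.Agent.W25.QL (Fails)

/-- the property for boxes with `T'` classes, `T' ≤ M`, and `k` classes of companions -/
def QProp2 (lam : ℝ) {α : Type} [DecidableEq α] (Kf : ℕ → ℕ) (k M : ℕ) (V : Finset α)
    (G : Finset α → (Fin k → α) → Prop) : Prop :=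
  ∀ T' : ℕ, 1 ≤ T' → T' ≤ M → ∀ (H : Fin T' → Fin (Kf T') → α) (H2 : Fin k → Fin (Kf T') → α),
    (∀ g i, H g i ∈ V) → (∀ g i, H2 g i ∈ V) →
    Function.Injective (fun x : Fin T' × Fin (Kf T') => H x.1 x.2) →
    Function.Injective (fun x : Fin k × Fin (Kf T') => H2 x.1 x.2) →
    (∀ g i j l, H g i ≠ H2 j l) →
    ∃ (S : Finset (Fin T')) (c : Fin T' → Fin (Kf T')) (c2 : Fin k → Fin (Kf T')),
      (T' : ℝ) ≤ lam * (S.card : ℝ) ∧ G (S.image (fun g => H g (c g))) (fun j => H2 j (c2 j))

/-- the complex of a tuple with companions -/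
noncomputable def CX {α : Type} [DecidableEq α] {T k : ℕ} (G : Finset α → (Fin k → α) → Prop)
    (z : Fin (T + k) → α) : Finset (Finset (Fin T)) :=
  Cx (fun F => G F (fun j => z (Fin.natAdd T j))) (fun g => z (Fin.castAdd k g))

theorem no_box2 {lam : ℝ} (hlam : 0 < lam) {α : Type} [DecidableEq α] {Kf : ℕ → ℕ} {k T M L : ℕ}
    {V : Finset α} {G : Finset α → (Fin k → α) → Prop}
    (hG : ∀ (F F' : Finset α) (y : Fin k → α), F' ⊆ F → G F y → G F' y)
    (hQ : QProp2 lam Kf k M V G)
    (C : Finset (Finset (Fin T))) (m : Fin T → ℕ) (hm : Fails lam C m) (hM : ∑ g, m g ≤ M)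
    (hL : (∑ g, m g) * Kf (∑ g, m g) < L) (A : Fin (T + k) → Fin L → α)
    (hA : ∀ g, Function.Injective (A g))
    (hB : ∀ c : Fin (T + k) → Fin L, (∀ g, A g (c g) ∈ V) ∧
      Function.Injective (fun g => A g (c g)) ∧ CX G (fun g => A g (c g)) = C) : False := by
  classical
  set T' : ℕ := ∑ g, m g with hT'
  set K' : ℕ := Kf T' with hK'
  have hL0 : 0 < L := by omega
  have hT1 : 1 ≤ T' := hm.1
  have hKL : K' < L := by
    have h1 : 1 * K' ≤ T' * K' := Nat.mul_le_mul_right _ hT1
    omega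
  set e : (g : Fin T) × Fin (m g) ≃ Fin T' := finSigmaFinEquiv with he
  have hidx : ∀ (g : Fin T) (j : Fin (m g)) (i : Fin K'), (j : ℕ) * K' + i < L := by
    intro g j i
    have h1 : (j : ℕ) + 1 ≤ T' := by
      have h2 : m g ≤ T' := by
        rw [hT']
        exact Finset.single_le_sum (f := m) (fun _ _ => Nat.zero_le _) (mem_univ g)
      have := j.2
      omega
    have h3 : ((j : ℕ) + 1) * K' ≤ T' * K' := Nat.mul_le_mul_right _ h1
    have := i.2
    have h4 : ((j : ℕ) + 1) * K' = (j : ℕ) * K' + K' := by ring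
    omega
  set ix : Fin T' → Fin K' → Fin L := fun x i =>
    ⟨((e.symm x).2 : ℕ) * K' + i, hidx (e.symm x).1 (e.symm x).2 i⟩ with hix
  set H : Fin T' → Fin K' → α := fun x i => A (Fin.castAdd k (e.symm x).1) (ix x i) with hH
  set H2 : Fin k → Fin K' → α := fun j i => A (Fin.natAdd T j) ⟨i, i.2.trans hKL⟩ with hH2
  have hV : ∀ g l, A g l ∈ V := fun g l => (hB (fun _ => l)).1 g
  have hcross : ∀ g g' l l', g ≠ g' → A g l ≠ A g' l' := by
    intro g g' l l' hgg h
    have h1 := (hB (Function.update (fun _ => l) g' l')).2.1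
    apply hgg
    apply h1
    simp only [Function.update_self, Function.update_of_ne hgg]
    exact h
  obtain ⟨S', c', c2', hS', hGS⟩ := hQ T' hm.1 hM H H2 (fun g i => hV _ _) (fun g i => hV _ _) (by
    rintro ⟨x, i⟩ ⟨x', i'⟩ h
    simp only [hH] at h
    have h1 : (e.symm x).1 = (e.symm x').1 := by
      by_contra hne
      exact hcross _ _ _ _ (fun h5 => hne (Fin.castAdd_injective T k h5)) h
    have key : ∀ (s s' : (g : Fin T) × Fin (m g)), s.1 = s'.1 →
        A (Fin.castAdd k s.1) ⟨(s.2 : ℕ) * K' + i, hidx s.1 s.2 i⟩ =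
          A (Fin.castAdd k s'.1) ⟨(s'.2 : ℕ) * K' + i', hidx s'.1 s'.2 i'⟩ →
        s = s' ∧ i = i' := by
      rintro ⟨g, j⟩ ⟨g', j'⟩ hg hA'
      simp only at hg
      subst hg
      have h2 := hA _ hA'
      simp only [Fin.mk.injEq] at h2
      have hKpos : 0 < K' := lt_of_le_of_lt (Nat.zero_le _) i.2
      have h3 : (j : ℕ) = j' := by
        have e1 : ((j : ℕ) * K' + i) / K' = ((j' : ℕ) * K' + i') / K' := by rw [h2]
        rw [Nat.mul_comm (j : ℕ), Nat.mul_comm (j' : ℕ), Nat.mul_add_div hKpos,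
          Nat.mul_add_div hKpos, Nat.div_eq_of_lt i.2, Nat.div_eq_of_lt i'.2] at e1
        omega
      have h4 : (i : ℕ) = i' := by
        rw [h3] at h2
        omega
      refine ⟨?_, Fin.ext h4⟩
      rw [Fin.ext h3]
    obtain ⟨h5, h6⟩ := key (e.symm x) (e.symm x') h1 h
    rw [e.symm.injective h5, h6]) (by
    rintro ⟨x, i⟩ ⟨x', i'⟩ h
    simp only [hH2] at h
    have h1 : x = x' := by
      by_contra hne
      exact hcross _ _ _ _ (fun h5 => hne (Fin.natAdd_injective k T h5)) h
    subst h1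
    have h2 := hA _ h
    simp only [Fin.mk.injEq] at h2
    rw [Fin.ext h2]) (by
    intro g i j l h
    refine hcross _ _ _ _ ?_ h
    intro h5
    have h6 := congrArg Fin.val h5
    simp only [Fin.val_castAdd, Fin.val_natAdd] at h6
    have := (e.symm g).1.2
    omega)
  -- the classes that are hit
  set S : Finset (Fin T) := S'.image (fun x => (e.symm x).1) with hS
  have hsel : ∀ g : Fin T, ∃ x : Fin T', g ∈ S → (x ∈ S' ∧ (e.symm x).1 = g) := by
    intro g
    by_cases hg : g ∈ S
    · obtain ⟨x, hx, hxg⟩ := mem_image.1 hg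
      exact ⟨x, fun _ => ⟨hx, hxg⟩⟩
    · exact ⟨⟨0, by have := hm.1; omega⟩, fun h => absurd h hg⟩
  choose X hX using hsel
  set c : Fin (T + k) → Fin L := Fin.append (fun g => ix (X g) (c' (X g)))
    (fun j => ⟨c2' j, (c2' j).2.trans hKL⟩) with hc
  have hcl : ∀ g : Fin T, c (Fin.castAdd k g) = ix (X g) (c' (X g)) := by
    intro g
    rw [hc, Fin.append_left]
  have hcr : ∀ j : Fin k, c (Fin.natAdd T j) = ⟨c2' j, (c2' j).2.trans hKL⟩ := by
    intro j
    rw [hc, Fin.append_right]
  have himg : S.image (fun g => A (Fin.castAdd k g) (c (Fin.castAdd k g))) ⊆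
      S'.image (fun x => H x (c' x)) := by
    intro a ha
    obtain ⟨g, hg, rfl⟩ := mem_image.1 ha
    obtain ⟨h1, h2⟩ := hX g hg
    rw [mem_image]
    refine ⟨X g, h1, ?_⟩
    simp only [hH]
    rw [hcl, h2]
  have hSC : S ∈ C := by
    rw [← (hB c).2.2]
    unfold CX
    rw [mem_Cx]
    have h1 := hG _ _ _ himg hGS
    have h2 : (fun j => A (Fin.natAdd T j) (c (Fin.natAdd T j))) = fun j => H2 j (c2' j) := by
      funext j
      simp only [hH2]
      rw [hcr]
    rw [h2]
    exact h1
  have h1 := hm.2 S hSC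
  have h2 : S'.card ≤ ∑ g ∈ S, m g := by
    have h3 : S'.card = (S'.image e.symm).card := (card_image_of_injective _ e.symm.injective).symm
    rw [h3]
    have h4 : S'.image e.symm ⊆ S.sigma (fun g => (univ : Finset (Fin (m g)))) := by
      intro s hs
      obtain ⟨x, hx, rfl⟩ := mem_image.1 hs
      rw [mem_sigma]
      exact ⟨mem_image_of_mem _ hx, mem_univ _⟩
    calc (S'.image e.symm).card ≤ _ := card_le_card h4
      _ = ∑ g ∈ S, m g := by rw [card_sigma]; simp
  have h3 : (S'.card : ℝ) ≤ ((∑ g ∈ S, m g : ℕ) : ℝ) := by exact_mod_cast h2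
  have h4 : lam * (S'.card : ℝ) ≤ lam * ((∑ g ∈ S, m g : ℕ) : ℝ) :=
    mul_le_mul_of_nonneg_left h3 hlam.le
  have h5 : (T' : ℝ) ≤ lam * (S'.card : ℝ) := hS'
  linarith

open Classical in
/-- the bad tuples with companions are rare -/
theorem bad_rare2 {lam : ℝ} (hlam : 0 < lam) (T k : ℕ) (Kf : ℕ → ℕ) (δ : ℝ) (hδ : 0 < δ) :
    ∃ M n₀ : ℕ, ∀ (α : Type) [DecidableEq α]
      (V : Finset α) (G : Finset α → (Fin k → α) → Prop), n₀ ≤ V.card →
      (∀ (F F' : Finset α) (y : Fin k → α), F' ⊆ F → G F y → G F' y) → QProp2 lam Kf k M V G →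
      (((Fintype.piFinset (fun _ : Fin (T + k) => V)).filter (fun z => Function.Injective z ∧
        ∃ m, Fails lam (CX G z) m)).card : ℝ) ≤ δ * (V.card : ℝ) ^ (T + k) := by
  set sz : Finset (Finset (Fin T)) → ℕ := fun C =>
    if h : ∃ m, Fails lam C m then ∑ g, h.choose g else 0 with hsz
  refine ⟨∑ C, sz C, ?_⟩
  set L : ℕ := ∑ C, sz C * Kf (sz C) + 1 with hL
  set N1 : ℕ := Fintype.card (Finset (Finset (Fin T))) with hN1
  set δ' : ℝ := δ / (N1 + 1) with hδ'
  have hN1p : (0 : ℝ) < N1 + 1 := by positivity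
  have hδ'0 : 0 < δ' := by positivity
  obtain ⟨N0, hN0⟩ := Pool.Agent.H362R2.CM.box_lemma (T + k) L δ' hδ'0
  refine ⟨N0 + 1, ?_⟩
  intro α _ V G hV hG hQ
  by_contra hcon'
  have hcon := not_le.1 hcon'
  set Bad := (Fintype.piFinset (fun _ : Fin (T + k) => V)).filter (fun z => Function.Injective z ∧
        ∃ m, Fails lam (CX G z) m) with hBad
  obtain ⟨C, _, hCρ⟩ := Finset.exists_le_card_fiber_of_nsmul_le_card_of_maps_to
    (s := Bad) (t := (univ : Finset (Finset (Finset (Fin T)))))
    (f := fun x => CX G x) (fun _ _ => mem_univ _) ⟨∅, mem_univ _⟩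
    (b := δ' * (V.card : ℝ) ^ (T + k)) (by
      rw [nsmul_eq_mul, card_univ, ← hN1]
      refine le_trans ?_ hcon.le
      rw [← mul_assoc]
      apply mul_le_mul_of_nonneg_right _ (by positivity)
      rw [hδ', mul_div_assoc', div_le_iff₀ hN1p]
      nlinarith)
  set B := Bad.filter (fun x => CX G x = C) with hB
  have hBmem : ∀ x ∈ B, (∀ i, x i ∈ V) ∧ Function.Injective x ∧ (∃ m, Fails lam C m) ∧
      CX G x = C := by
    intro x hx
    rw [hB, mem_filter, hBad, mem_filter, Fintype.mem_piFinset] at hx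
    refine ⟨hx.1.1, hx.1.2.1, ?_, hx.2⟩
    rw [← hx.2]
    exact hx.1.2.2
  have hBsub : B ⊆ Fintype.piFinset (fun _ : Fin (T + k) => V) := by
    intro x hx
    rw [Fintype.mem_piFinset]
    exact (hBmem x hx).1
  obtain ⟨A, hA1, hA2⟩ := hN0 α (fun _ => V) (fun _ => by omega) B hBsub (by
    rw [prod_const, card_univ, Fintype.card_fin]
    exact hCρ)
  have hex : ∃ m, Fails lam C m := by
    have hL0 : 0 < L := by omega
    exact (hBmem _ (hA2 (fun _ => ⟨0, hL0⟩))).2.2.1
  have hszC : sz C = ∑ g, hex.choose g := by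
    rw [hsz]
    simp only [dif_pos hex]
  have h1 : sz C ≤ ∑ C, sz C := Finset.single_le_sum (f := sz) (fun _ _ => Nat.zero_le _) (mem_univ C)
  have h2 : sz C * Kf (sz C) ≤ ∑ C, sz C * Kf (sz C) :=
    Finset.single_le_sum (f := fun C => sz C * Kf (sz C)) (fun _ _ => Nat.zero_le _) (mem_univ C)
  refine no_box2 hlam hG hQ C hex.choose hex.choose_spec (by rw [← hszC]; exact h1)
    (by rw [← hszC]; omega) A hA1 (fun c => ?_)
  obtain ⟨a1, a2, _, a4⟩ := hBmem _ (hA2 c)
  exact ⟨a1, a2, a4⟩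

open Classical in
/-- the second half of the combinatorial theorem -/
theorem count_half {lam : ℝ} (k : ℕ) (δ : ℝ) (hδ1 : δ ≤ 1) (ε : ℝ) (hε : 0 < ε) (hδε : ε < δ)
    (T : ℕ) (hT1 : 1 ≤ T)
    (hTc : ∀ C : Finset (Finset (Fin T)),
      (∀ S ∈ C, ∀ S', S' ⊆ S → S' ∈ C) → (∀ m, ¬ Fails lam C m) →
      (δ - ε / 4) * (T : ℝ) ^ (k + 1) ≤ ((univ.filter (fun u : Fin (k + 1) → Fin T =>
        Function.Injective u ∧ univ.image u ∈ C)).card : ℝ))
    (α : Type) [DecidableEq α] (V : Finset α) (G : Finset α → Prop)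
    (hn1 : ⌈4 * (T : ℝ) ^ 2 / ε⌉₊ + 1 ≤ V.card)
    (hG : ∀ F F' : Finset α, F' ⊆ F → G F → G F')
    (hbad : (((Fintype.piFinset (fun _ : Fin T => V)).filter (fun x => Function.Injective x ∧
        ∃ m, Fails lam (Cx G x) m)).card : ℝ) ≤ ε / 4 * (V.card : ℝ) ^ T) :
      (δ - ε) * (V.card : ℝ) ^ (k + 1) ≤
        (((Fintype.piFinset (fun _ : Fin (k + 1) => V)).filter (fun y => Function.Injective y ∧
          G (univ.image y))).card : ℝ) := by
  have hε1 : ε ≤ 1 := by linarith
  have hTp : (0 : ℝ) < T := by exact_mod_cast hT1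
  set n : ℝ := (V.card : ℝ) with hn
  have hn0 : 0 < n := by
    have : 0 < V.card := by omega
    rw [hn]; exact_mod_cast this
  have hnT : (T : ℝ) ^ 2 ≤ ε / 4 * n := by
    have h1 : 4 * (T : ℝ) ^ 2 / ε ≤ n := by
      calc 4 * (T : ℝ) ^ 2 / ε ≤ ⌈4 * (T : ℝ) ^ 2 / ε⌉₊ := Nat.le_ceil _
        _ ≤ n := by rw [hn]; exact_mod_cast (by omega : ⌈4 * (T : ℝ) ^ 2 / ε⌉₊ ≤ V.card)
    rw [div_le_iff₀ hε] at h1
    linarith
  have hni := Pool.Agent.H362R2.CM.card_not_injective_le T V
  rw [← hn] at hni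
  have hni' : (((Fintype.piFinset (fun _ : Fin T => V)).filter
      (fun φ => ¬ Function.Injective φ)).card : ℝ) ≤ ε / 4 * n ^ T := by
    have h1 : (((Fintype.piFinset (fun _ : Fin T => V)).filter
      (fun φ => ¬ Function.Injective φ)).card : ℝ) * n ≤ (ε / 4 * n ^ T) * n := by
      refine le_trans (le_of_eq (by congr!)) (hni.trans ?_)
      calc (T : ℝ) ^ 2 * n ^ T ≤ (ε / 4 * n) * n ^ T :=
            mul_le_mul_of_nonneg_right hnT (by positivity)
        _ = _ := by ring
    exact le_of_mul_le_mul_right h1 hn0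
  set Bad := (Fintype.piFinset (fun _ : Fin T => V)).filter (fun x => Function.Injective x ∧
        ∃ m, Fails lam (Cx G x) m) with hBad
  set NI := (Fintype.piFinset (fun _ : Fin T => V)).filter
      (fun φ => ¬ Function.Injective φ) with hNI
  set Gd := (Fintype.piFinset (fun _ : Fin T => V)).filter (fun x => Function.Injective x ∧
        ¬ ∃ m, Fails lam (Cx G x) m) with hGd
  have hGd' : (1 - ε / 2) * n ^ T ≤ (Gd.card : ℝ) := by
    have h1 : (Fintype.piFinset (fun _ : Fin T => V)).card ≤ Bad.card + NI.card + Gd.card := by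
      have h2 : Fintype.piFinset (fun _ : Fin T => V) ⊆ Bad ∪ NI ∪ Gd := by
        intro x hx
        simp only [hBad, hNI, hGd, mem_union, mem_filter]
        by_cases h3 : Function.Injective x
        · by_cases h4 : ∃ m, Fails lam (Cx G x) m
          · exact Or.inl (Or.inl ⟨hx, h3, h4⟩)
          · exact Or.inr ⟨hx, h3, h4⟩
        · exact Or.inl (Or.inr ⟨hx, h3⟩)
      refine (card_le_card h2).trans ((card_union_le _ _).trans ?_)
      exact Nat.add_le_add_right (card_union_le _ _) _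
    have h2 : (Fintype.piFinset (fun _ : Fin T => V)).card = V.card ^ T := by
      rw [Fintype.card_piFinset, prod_const, card_univ, Fintype.card_fin]
    rw [h2] at h1
    have h3 : n ^ T ≤ (Bad.card : ℝ) + NI.card + Gd.card := by
      rw [hn]; exact_mod_cast h1
    linarith
  set P : (Fin (k + 1) → α) → Prop := fun y => Function.Injective y ∧ G (univ.image y) with hP
  set Y := (Fintype.piFinset (fun _ : Fin (k + 1) => V)).filter P with hY
  -- every good tuple contains many good subtuples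
  have hlow : ∀ x ∈ Gd, (δ - ε / 4) * (T : ℝ) ^ (k + 1) ≤
      ((univ.filter (fun u : Fin (k + 1) → Fin T => Function.Injective u ∧
        P (fun i => x (u i)))).card : ℝ) := by
    intro x hx
    rw [hGd, mem_filter] at hx
    obtain ⟨_, hxi, hxf⟩ := hx
    push Not at hxf
    have hdc : ∀ S ∈ Cx G x, ∀ S', S' ⊆ S → S' ∈ Cx G x := by
      intro S hS S' hS'
      rw [mem_Cx] at hS ⊢
      exact hG _ _ (image_subset_image hS') hS
    refine (hTc (Cx G x) hdc hxf).trans ?_
    have : (univ.filter (fun u : Fin (k + 1) → Fin T =>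
      Function.Injective u ∧ univ.image u ∈ Cx G x)) ⊆ (univ.filter (fun u : Fin (k + 1) → Fin T =>
        Function.Injective u ∧ P (fun i => x (u i)))) := by
      intro u hu
      rw [mem_filter] at hu ⊢
      refine ⟨mem_univ _, hu.2.1, hxi.comp hu.2.1, ?_⟩
      have h1 := mem_Cx.1 hu.2.2
      rw [image_image] at h1
      exact h1
    exact_mod_cast card_le_card this
  -- double counting
  have hdc : (∑ x ∈ Fintype.piFinset (fun _ : Fin T => V),
      (univ.filter (fun u : Fin (k + 1) → Fin T => Function.Injective u ∧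
        P (fun i => x (u i)))).card) * V.card ^ (k + 1) ≤
      T ^ (k + 1) * (V.card ^ T * Y.card) := by
    have h1 : (∑ x ∈ Fintype.piFinset (fun _ : Fin T => V),
      (univ.filter (fun u : Fin (k + 1) → Fin T => Function.Injective u ∧
        P (fun i => x (u i)))).card) = ∑ u : Fin (k + 1) → Fin T, if Function.Injective u then
          ((Fintype.piFinset (fun _ : Fin T => V)).filter (fun x => P (fun i => x (u i)))).card else 0 := by
      simp only [card_filter]
      rw [Finset.sum_comm]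
      refine Finset.sum_congr rfl fun u _ => ?_
      split_ifs with h
      · simp [h]
      · simp [h]
    rw [h1, Finset.sum_mul]
    calc ∑ u : Fin (k + 1) → Fin T, (if Function.Injective u then
          ((Fintype.piFinset (fun _ : Fin T => V)).filter (fun x => P (fun i => x (u i)))).card else 0) *
            V.card ^ (k + 1) ≤ ∑ _u : Fin (k + 1) → Fin T, V.card ^ T * Y.card := by
          refine Finset.sum_le_sum fun u _ => ?_
          split_ifs with h
          · refine le_of_eq ?_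
            have h9 := card_pull V u h P
            convert h9
          · rw [Nat.zero_mul]; exact Nat.zero_le _
      _ = T ^ (k + 1) * (V.card ^ T * Y.card) := by
          rw [sum_const, card_univ, Fintype.card_fun, Fintype.card_fin, Fintype.card_fin, smul_eq_mul]
  have hdcR : ((∑ x ∈ Fintype.piFinset (fun _ : Fin T => V),
      (univ.filter (fun u : Fin (k + 1) → Fin T => Function.Injective u ∧
        P (fun i => x (u i)))).card : ℕ) : ℝ) * n ^ (k + 1) ≤
      (T : ℝ) ^ (k + 1) * (n ^ T * Y.card) := by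
    rw [hn]; exact_mod_cast hdc
  have hsum : (Gd.card : ℝ) * ((δ - ε / 4) * (T : ℝ) ^ (k + 1)) ≤
      ((∑ x ∈ Fintype.piFinset (fun _ : Fin T => V),
      (univ.filter (fun u : Fin (k + 1) → Fin T => Function.Injective u ∧
        P (fun i => x (u i)))).card : ℕ) : ℝ) := by
    push_cast
    rw [← nsmul_eq_mul]
    refine (Finset.card_nsmul_le_sum Gd _ _ hlow).trans ?_
    exact Finset.sum_le_sum_of_subset_of_nonneg (filter_subset _ _) fun _ _ _ => Nat.cast_nonneg _
  have hx1 : 0 ≤ 1 - ε / 2 := by linarith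
  have ha0 : 0 < δ - ε / 4 := by linarith
  have hTk1 : 0 < (T : ℝ) ^ (k + 1) := by positivity
  have hnT1 : 0 < n ^ T := by positivity
  have hfin : (δ - ε / 4) * (1 - ε / 2) * n ^ (k + 1) ≤ Y.card := by
    have h1 : ((1 - ε / 2) * n ^ T) * ((δ - ε / 4) * (T : ℝ) ^ (k + 1)) * n ^ (k + 1) ≤
        (T : ℝ) ^ (k + 1) * (n ^ T * Y.card) := by
      refine le_trans ?_ hdcR
      apply mul_le_mul_of_nonneg_right _ (by positivity)
      refine le_trans ?_ hsum
      exact mul_le_mul_of_nonneg_right hGd' (by positivity)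
    have h2 : ((T : ℝ) ^ (k + 1) * n ^ T) * ((δ - ε / 4) * (1 - ε / 2) * n ^ (k + 1)) ≤
        ((T : ℝ) ^ (k + 1) * n ^ T) * Y.card := by
      calc ((T : ℝ) ^ (k + 1) * n ^ T) * ((δ - ε / 4) * (1 - ε / 2) * n ^ (k + 1)) =
          ((1 - ε / 2) * n ^ T) * ((δ - ε / 4) * (T : ℝ) ^ (k + 1)) * n ^ (k + 1) := by ring
        _ ≤ _ := h1
        _ = _ := by ring
    exact le_of_mul_le_mul_left h2 (by positivity)
  refine le_trans ?_ hfin
  apply mul_le_mul_of_nonneg_right _ (by positivity)
  nlinarith [sq_nonneg ε]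

open Classical in
/-- **the combinatorial theorem with companions** -/
theorem main_gen2 {lam : ℝ} (hlam : 0 < lam) (l k : ℕ) (δ : ℝ) (hδ1 : δ ≤ 1)
    (hcount : ∀ ε : ℝ, 0 < ε → ∃ T : ℕ, 1 ≤ T ∧ ∀ C : Finset (Finset (Fin T)),
      (∀ S ∈ C, ∀ S', S' ⊆ S → S' ∈ C) → (∀ m, ¬ Fails lam C m) →
      (δ - ε) * (T : ℝ) ^ (l + 1) ≤ ((univ.filter (fun u : Fin (l + 1) → Fin T =>
        Function.Injective u ∧ univ.image u ∈ C)).card : ℝ))
    (ε : ℝ) (hε : 0 < ε) (Kf : ℕ → ℕ) : ∃ M n₀ : ℕ,
    ∀ (α : Type) [DecidableEq α] (V : Finset α) (G : Finset α → (Fin k → α) → Prop),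
      n₀ ≤ V.card → (∀ (F F' : Finset α) (y : Fin k → α), F' ⊆ F → G F y → G F' y) →
      QProp2 lam Kf k M V G →
      (((Fintype.piFinset (fun _ : Fin k => V)).filter (fun y =>
        (((Fintype.piFinset (fun _ : Fin (l + 1) => V)).filter (fun x => Function.Injective x ∧
          G (univ.image x) y)).card : ℝ) < (δ - ε) * (V.card : ℝ) ^ (l + 1))).card : ℝ) ≤
        ε * (V.card : ℝ) ^ k := by
  rcases le_or_gt δ ε with hδε | hδε
  · refine ⟨0, 0, fun α _ V G _ _ _ => ?_⟩
    have h0 : (Fintype.piFinset (fun _ : Fin k => V)).filter (fun y =>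
        (((Fintype.piFinset (fun _ : Fin (l + 1) => V)).filter (fun x => Function.Injective x ∧
          G (univ.image x) y)).card : ℝ) < (δ - ε) * (V.card : ℝ) ^ (l + 1)) = ∅ := by
      rw [filter_eq_empty_iff]
      intro y _ h
      have h1 : (δ - ε) * (V.card : ℝ) ^ (l + 1) ≤ 0 :=
        mul_nonpos_of_nonpos_of_nonneg (by linarith) (by positivity)
      have h2 : (0 : ℝ) ≤ (((Fintype.piFinset (fun _ : Fin (l + 1) => V)).filter
        (fun x => Function.Injective x ∧ G (univ.image x) y)).card : ℝ) := Nat.cast_nonneg _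
      linarith
    rw [h0, card_empty, Nat.cast_zero]
    positivity
  obtain ⟨T, hT1, hTc⟩ := hcount (ε / 4) (by linarith)
  have hTp : (0 : ℝ) < T := by exact_mod_cast hT1
  obtain ⟨M, n₀, hM⟩ := bad_rare2 hlam T k Kf (ε * (ε / 8)) (by positivity)
  refine ⟨M, max n₀ (max (⌈4 * (T : ℝ) ^ 2 / ε⌉₊ + 1) (⌈((T + k : ℕ) : ℝ) ^ 2 / (ε * (ε / 8))⌉₊ + 1)),
    ?_⟩
  intro α _ V G hV hG hQ
  have hV1 : n₀ ≤ V.card := (le_max_left _ _).trans hV
  have hV2 : ⌈4 * (T : ℝ) ^ 2 / ε⌉₊ + 1 ≤ V.card :=
    (le_max_left _ _).trans ((le_max_right _ _).trans hV)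
  have hV3 : ⌈((T + k : ℕ) : ℝ) ^ 2 / (ε * (ε / 8))⌉₊ + 1 ≤ V.card :=
    (le_max_right _ _).trans ((le_max_right _ _).trans hV)
  have hbad := hM α V G hV1 hG hQ
  obtain ⟨v, hv⟩ : ∃ v : ℝ, v = (V.card : ℝ) := ⟨_, rfl⟩
  have hv0 : 0 < v := by
    rw [hv]
    exact_mod_cast (by omega : 0 < V.card)
  rw [← hv] at hbad ⊢
  -- the non injective tuples
  have hnon : (((Fintype.piFinset (fun _ : Fin (T + k) => V)).filter
      (fun φ => ¬ Function.Injective φ)).card : ℝ) ≤ ε * (ε / 8) * v ^ (T + k) := by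
    have h1 := Pool.Agent.H362R2.CM.card_not_injective_le (T + k) V
    rw [← hv] at h1
    have h2 : ((T + k : ℕ) : ℝ) ^ 2 ≤ ε * (ε / 8) * v := by
      have h3 : ((T + k : ℕ) : ℝ) ^ 2 / (ε * (ε / 8)) ≤ v := by
        calc ((T + k : ℕ) : ℝ) ^ 2 / (ε * (ε / 8)) ≤
            ⌈((T + k : ℕ) : ℝ) ^ 2 / (ε * (ε / 8))⌉₊ := Nat.le_ceil _
          _ ≤ v := by
              rw [hv]
              exact_mod_cast (by omega : ⌈((T + k : ℕ) : ℝ) ^ 2 / (ε * (ε / 8))⌉₊ ≤ V.card)
      rw [div_le_iff₀ (by positivity)] at h3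
      linarith
    have h4 : (((Fintype.piFinset (fun _ : Fin (T + k) => V)).filter
      (fun φ => ¬ Function.Injective φ)).card : ℝ) * v ≤ (ε * (ε / 8) * v ^ (T + k)) * v := by
      refine le_trans (le_of_eq (by congr!)) (h1.trans ?_)
      calc ((T + k : ℕ) : ℝ) ^ 2 * v ^ (T + k) ≤ (ε * (ε / 8) * v) * v ^ (T + k) :=
            mul_le_mul_of_nonneg_right h2 (by positivity)
        _ = _ := by ring
    exact le_of_mul_le_mul_right h4 hv0
  -- the bad tuples over `y`
  set bd : (Fin k → α) → Finset (Fin T → α) := fun y =>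
    (Fintype.piFinset (fun _ : Fin T => V)).filter (fun x => Function.Injective x ∧
        ∃ m, Fails lam (Cx (fun F => G F y) x) m) with hbd
  have hsum : ∑ y ∈ Fintype.piFinset (fun _ : Fin k => V), ((bd y).card : ℝ) ≤
      ε * (ε / 4) * v ^ (T + k) := by
    set P : Finset ((Fin k → α) × (Fin T → α)) :=
      (Fintype.piFinset (fun _ : Fin k => V)).sigma (fun y => bd y) |>.map
        ⟨fun s => (s.1, s.2), fun s s' h => by
          rcases s with ⟨a, b⟩
          rcases s' with ⟨a', b'⟩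
          simp only [Prod.mk.injEq] at h
          obtain ⟨rfl, rfl⟩ := h
          rfl⟩ with hP
    have h1 : P.card = ∑ y ∈ Fintype.piFinset (fun _ : Fin k => V), (bd y).card := by
      rw [hP, card_map, card_sigma]
    have h2 : P.card ≤ ((Fintype.piFinset (fun _ : Fin (T + k) => V)).filter
        (fun z => Function.Injective z ∧ ∃ m, Fails lam (CX G z) m)).card +
        ((Fintype.piFinset (fun _ : Fin (T + k) => V)).filter
          (fun φ => ¬ Function.Injective φ)).card := by
      rw [← card_union_of_disjoint (by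
        rw [disjoint_filter]
        intro z _ h3 h4
        exact h4 h3.1)]
      apply card_le_card_of_injOn (fun s => Fin.append s.2 s.1)
      · rintro ⟨y, x⟩ hs
        rw [mem_coe, hP, mem_map] at hs
        obtain ⟨s, hs, he⟩ := hs
        rw [mem_sigma] at hs
        simp only [Function.Embedding.coeFn_mk, Prod.mk.injEq] at he
        obtain ⟨he1, he2⟩ := he
        rw [he1, he2] at hs
        obtain ⟨hy, hx⟩ := hs
        rw [hbd, mem_filter] at hx
        obtain ⟨hx1, hx2, m, hx3⟩ := hx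
        have hmem : (Fin.append x y) ∈ Fintype.piFinset (fun _ : Fin (T + k) => V) := by
          rw [Fintype.mem_piFinset]
          intro i
          refine Fin.addCases (fun i => ?_) (fun i => ?_) i
          · rw [Fin.append_left]
            exact Fintype.mem_piFinset.1 hx1 i
          · rw [Fin.append_right]
            exact Fintype.mem_piFinset.1 hy i
        rw [mem_coe, mem_union, mem_filter, mem_filter]
        by_cases hinj : Function.Injective (Fin.append x y)
        · left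
          refine ⟨hmem, hinj, m, ?_⟩
          unfold CX
          simp only [Fin.append_left, Fin.append_right]
          exact hx3
        · right
          exact ⟨hmem, hinj⟩
      · rintro ⟨y, x⟩ _ ⟨y', x'⟩ _ h
        simp only at h
        have h3 : x = x' := by
          funext i
          have := congrFun h (Fin.castAdd k i)
          rwa [Fin.append_left, Fin.append_left] at this
        have h4 : y = y' := by
          funext i
          have := congrFun h (Fin.natAdd T i)
          rwa [Fin.append_right, Fin.append_right] at this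
        rw [h3, h4]
    have h3 : ((P.card : ℕ) : ℝ) ≤ ε * (ε / 4) * v ^ (T + k) := by
      have h4 : ((P.card : ℕ) : ℝ) ≤ (((Fintype.piFinset (fun _ : Fin (T + k) => V)).filter
        (fun z => Function.Injective z ∧ ∃ m, Fails lam (CX G z) m)).card : ℝ) +
        (((Fintype.piFinset (fun _ : Fin (T + k) => V)).filter
          (fun φ => ¬ Function.Injective φ)).card : ℝ) := by exact_mod_cast h2
      have h5 : ε * (ε / 4) * v ^ (T + k) = ε * (ε / 8) * v ^ (T + k) +
        ε * (ε / 8) * v ^ (T + k) := by ring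
      linarith
    rw [h1] at h3
    push_cast at h3
    exact h3
  -- Markov
  set Yb := (Fintype.piFinset (fun _ : Fin k => V)).filter (fun y =>
    ε / 4 * v ^ T < ((bd y).card : ℝ)) with hYb
  have hYbc : (Yb.card : ℝ) ≤ ε * v ^ k := by
    have h1 : (Yb.card : ℝ) * (ε / 4 * v ^ T) ≤ ε * (ε / 4) * v ^ (T + k) := by
      refine le_trans ?_ hsum
      rw [← nsmul_eq_mul]
      refine (Finset.card_nsmul_le_sum Yb (fun y => ((bd y).card : ℝ)) _ (fun y hy => ?_)).trans ?_
      · rw [hYb, mem_filter] at hy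
        exact hy.2.le
      · exact Finset.sum_le_sum_of_subset_of_nonneg (filter_subset _ _) fun _ _ _ =>
          Nat.cast_nonneg _
    have h2 : (Yb.card : ℝ) * (ε / 4 * v ^ T) ≤ (ε * v ^ k) * (ε / 4 * v ^ T) := by
      refine h1.trans (le_of_eq ?_)
      rw [pow_add]
      ring
    exact le_of_mul_le_mul_right h2 (by positivity)
  refine le_trans ?_ hYbc
  rw [Nat.cast_le]
  apply card_le_card
  intro y hy
  rw [mem_filter] at hy
  rw [hYb, mem_filter]
  refine ⟨hy.1, ?_⟩
  by_contra hc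
  push Not at hc
  have h1 := count_half (lam := lam) l δ hδ1 ε hε hδε T hT1 hTc α V (fun F => G F y) hV2
    (fun F F' hF h => hG F F' y hF h) (by rw [← hv]; exact hc)
  rw [← hv] at h1
  exact absurd h1 (not_le.2 hy.2)

end Pool.Agent.Z296.AP
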