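import Mathlib
import Pool.Agent.Y827.GS.LamF
import Pool.Agent.Z296.AP.FinalP
import Pool.Agent.Z296.AP.AsmQ

/-! Project AP (helper296): families of linear forms with constant terms as large as the variable. -/

set_option autoImplicit false

namespace Pool.Agent.Z296.AP

open Finset Filter Topology
open Pool.Agent.W25.UN
open Pool.Agent.W25.UB (CopAt)
open Pool.Agent.H410R2 (WW)
open Pool.Agent.TH899.UG
open Pool.Agent.TH899.UG.Uni
open Pool.Agent.Y827.LS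
open Pool.Agent.Y827.GS (Adf crtF)

/-- `m` is a prime `> y` or a product of two primes `> y` -/
def IsP2 (y : ℝ) (m : ℤ) : Prop :=
  ∃ p : ℕ, p.Prime ∧ y < p ∧ (m = p ∨ ∃ q : ℕ, q.Prime ∧ y < q ∧ m = p * q)

theorem isP2_of {y : ℝ} {m : ℤ} (h1 : 1 < m) (h2 : P2 m)
    (hr : ∀ p : ℕ, p.Prime → (p : ℤ) ∣ m → y < p) : IsP2 y m := by
  have hm : ((m.natAbs : ℕ) : ℤ) = m := Int.natAbs_of_nonneg (by omega)
  have hne : m.natAbs ≠ 0 := by omega
  have hprod := Nat.prod_primeFactorsList hne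
  have hpr : ∀ p ∈ m.natAbs.primeFactorsList, p.Prime ∧ y < p := by
    intro p hp
    have h3 := Nat.prime_of_mem_primeFactorsList hp
    refine ⟨h3, hr p h3 ?_⟩
    rw [← hm]
    exact_mod_cast Nat.dvd_of_mem_primeFactorsList hp
  unfold P2 at h2
  rcases hl : m.natAbs.primeFactorsList with _ | ⟨p, _ | ⟨q, _ | ⟨r, t⟩⟩⟩
  · rw [hl, List.prod_nil] at hprod
    omega
  · rw [hl] at hprod hpr
    have h3 := hpr p (by simp)
    refine ⟨p, h3.1, h3.2, Or.inl ?_⟩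
    rw [← hm, ← hprod]
    simp
  · rw [hl] at hprod hpr
    have h3 := hpr p (by simp)
    have h4 := hpr q (by simp)
    refine ⟨p, h3.1, h3.2, Or.inr ⟨q, h4.1, h4.2, ?_⟩⟩
    rw [← hm, ← hprod]
    simp
  · rw [hl] at h2
    simp only [List.length_cons] at h2
    omega

/-- the normalisation of a family of forms -/
theorem setupF (T K A D : ℕ) (hK : 1 ≤ K) : ∀ᶠ N : ℕ in atTop, ∀ f : Fin T → Fin K → ℤ × ℤ,
    Function.Injective (fun x : Fin T × Fin K => f x.1 x.2) → (∀ g i, Adf A N (f g i)) →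
    (∀ p : ℕ, p.Prime → p ≤ T * K → ∃ r : ℤ, ∀ g i, ¬ (p : ℤ) ∣ (f g i).1 * r + (f g i).2) →
    ∃ (s : ℕ) (a h : Fin (T * K) → ℤ), (s : ℝ) ≤ N / 2 ∧
      a ∈ (Fintype.piFinset (fun _ : Fin (T * K) => Icc (-(A : ℤ)) A)).filter
        (fun a => ∀ i, a i ≠ 0) ∧ HB h 0 N ∧ Nd a h 0 ∧ PosR a h 0 N ∧ CopAt a h D 0 1 ∧
      ∀ (g : Fin T) (j : Fin K) (n : ℕ), Fm a h 0 (ix g j) n =
        (f g j).1 * ((n + s : ℕ) : ℤ) + (f g j).2 := by
  classical
  set k : ℕ := T * K with hk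
  haveI : NeZero K := ⟨by omega⟩
  have hW : 0 < WW D := by
    rw [WW]; exact prod_pos fun p hp => (mem_filter.1 hp).2.pos
  filter_upwards [eventually_ge_atTop (100 * (A * (WW D * (k + 3)) + WW D * (k + 3))),
    eventually_ge_atTop 1] with N hN4 hN1 f hinj hAd hloc
  have hNpos : (0 : ℝ) < N := by exact_mod_cast hN1
  obtain ⟨s, hs1, hs2, hs3⟩ := crtF D (fun i : Fin (T * K) => f (cl i) (sx i))
    (fun i => (hAd _ _).2.2.2.1) (fun i => (hAd _ _).1) (by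
      intro p hp hpk
      obtain ⟨r, hr⟩ := hloc p hp hpk
      exact ⟨r, fun i => hr _ _⟩)
  set a : Fin (T * K) → ℤ := fun i => (f (cl i) (sx i)).1 with ha
  set h : Fin (T * K) → ℤ := fun i => (f (cl i) (sx i)).2 + (f (cl i) (sx i)).1 * s with hh
  have hAs : A * s + s ≤ A * (WW D * (k + 3)) + WW D * (k + 3) :=
    Nat.add_le_add (Nat.mul_le_mul_left _ hs1) hs1
  have hAsN : 100 * (A * s + s) ≤ N := (Nat.mul_le_mul_left 100 hAs).trans hN4
  have hAsN' : 100 * ((A : ℤ) * s + s) ≤ N := by exact_mod_cast hAsN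
  have has : ∀ i, |(f (cl i) (sx i)).1 * (s : ℤ)| ≤ (A : ℤ) * s := by
    intro i
    rw [abs_mul, abs_of_nonneg (Nat.cast_nonneg s : (0 : ℤ) ≤ (s : ℤ))]
    exact mul_le_mul_of_nonneg_right (hAd _ _).2.1 (Nat.cast_nonneg s)
  have hHB : HB h 0 N := by
    intro i
    have e1 := (hAd (cl i) (sx i)).2.2.1
    have e2 := has i
    have e3 : |((0 : ℕ) : ℤ) + h i| ≤ |(f (cl i) (sx i)).2| + |(f (cl i) (sx i)).1 * (s : ℤ)| := by
      rw [Nat.cast_zero, zero_add, hh]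
      exact abs_add_le _ _
    have e4 : (0 : ℤ) ≤ s := Nat.cast_nonneg s
    linarith
  have hNd : Nd a h 0 := by
    intro j l hjl
    rcases j with _ | j <;> rcases l with _ | l
    · exact absurd rfl hjl
    · simp only [uB, wB]
      have := hs2 l
      intro h0
      apply this
      have h5 : h l = 0 := by push_cast at h0; linarith
      exact h5
    · simp only [uB, wB]
      have := hs2 j
      intro h0
      apply this
      have h5 : h j = 0 := by push_cast at h0; linarith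
      exact h5
    · have hne : j ≠ l := fun h => hjl (by rw [h])
      simp only [uB, wB]
      have hfne : f (cl j) (sx j) ≠ f (cl l) (sx l) := by
        intro h5
        apply hne
        have h6 := hinj (a₁ := (cl j, sx j)) (a₂ := (cl l, sx l)) h5
        have h7 := Prod.ext_iff.1 h6
        rw [← ix_cl j, ← ix_cl l]
        simp only at h7
        rw [h7.1, h7.2]
      have := (hAd (cl j) (sx j)).np hN1 (hAd (cl l) (sx l)) hfne
      intro h0
      apply this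
      push_cast at h0
      simp only [ha, hh] at h0
      linarith
  have hPR : PosR a h 0 N := by
    intro i x hx1 hx2
    have h5 := (hAd (cl i) (sx i)).2.2.2.2 x hx1 hx2
    have h6 := (abs_le.1 (has i)).1
    have h7 : (-((A : ℝ) * s) : ℝ) ≤ (f (cl i) (sx i)).1 * (s : ℝ) := by
      have : ((-((A : ℤ) * s) : ℤ) : ℝ) ≤ (((f (cl i) (sx i)).1 * (s : ℤ) : ℤ) : ℝ) := by
        exact_mod_cast h6
      push_cast at this
      exact this
    have h8 : 100 * ((A : ℝ) * s + s) ≤ N := by exact_mod_cast hAsN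
    have h9 : (0 : ℝ) ≤ s := Nat.cast_nonneg s
    simp only [ha, hh]
    push_cast
    linarith
  have hmem : a ∈ (Fintype.piFinset (fun _ : Fin (T * K) => Icc (-(A : ℤ)) A)).filter
      (fun a => ∀ i, a i ≠ 0) := by
    rw [mem_filter, Fintype.mem_piFinset]
    exact ⟨fun i => mem_Icc.2 (abs_le.1 (hAd _ _).2.1), fun i => (hAd _ _).1⟩
  refine ⟨s, a, h, ?_, hmem, hHB, hNd, hPR, hs3, ?_⟩
  · have h8 : 100 * ((A : ℝ) * s + s) ≤ N := by exact_mod_cast hAsN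
    have h9 : (0 : ℝ) ≤ (A : ℝ) * s := by positivity
    linarith
  · intro g j n
    unfold Fm
    simp only [ha, hh]
    have e1 : cl (ix g j) = g := cl_ix g j
    have e2 : sx (ix g j) = j := by
      unfold sx ix
      rw [Equiv.symm_apply_apply]
    rw [e1, e2]
    push_cast
    ring

open Classical in
/-- the transfer of the counting statement -/
theorem transF {T K N s : ℕ} {δ c : ℝ} {a h : Fin (T * K) → ℤ} {D : ℕ} {f : Fin T → Fin K → ℤ × ℤ}
    (hK : 1 ≤ K) (hN : 64 ≤ N) (hc : 0 < c) (hl : 1 ≤ Real.log N)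
    (hs : (s : ℝ) ≤ N / 2) (hPR : PosR a h 0 N)
    (hf : ∀ (g : Fin T) (j : Fin K) (n : ℕ), Fm a h 0 (ix g j) n =
        (f g j).1 * ((n + s : ℕ) : ℤ) + (f g j).2)
    (Pr : (Fin (T * K) → Prop) → Prop) (Pq : (Fin T → Fin K) → (Fin T → Fin K → Prop) → Prop)
    (hPrS : ∀ pr : Fin (T * K) → Prop, Pr pr → ∃ S : Finset (Fin T), (∀ g ∈ S, ∃ j, pr (ix g j)) ∧
      ∀ σ : Fin T → Fin K, (∀ g ∈ S, pr (ix g (σ g))) → Pq σ (fun g j => pr (ix g j)))
    (hmain : c * (N / (Real.log N) ^ (T * K + 1)) ≤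
        (((Icc 1 N).filter (fun n : ℕ => n ≡ 1 [MOD (WW D)] ∧
        (N : ℝ) / 16 ≤ n ∧ (n : ℝ) ≤ N / 2 ∧
        (∀ p : ℕ, p.Prime → Real.log p ≤ δ * Real.log N → ∀ q,
          ¬ p ∣ LZ (uB a) (wB h 0) q n) ∧
        (∀ g : Fin T, ∃ i, cl i = g ∧ P2 (Fm a h 0 i n)) ∧
        Pr (fun i => (Fm a h 0 i n).toNat.Prime))).card : ℝ)) :
    ∃ σ : Fin T → Fin K, c / (2 * (K : ℝ) ^ T) * (N / (Real.log N) ^ (T * K + 1)) ≤
      (((Icc 1 N).filter (fun n : ℕ =>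
        (∀ g, IsP2 ((N : ℝ) ^ δ) ((f g (σ g)).1 * n + (f g (σ g)).2)) ∧
        Pq σ (fun g j => ((f g j).1 * n + (f g j).2).toNat.Prime))).card : ℝ) := by
  haveI : NeZero K := ⟨by omega⟩
  have hN0 : (0 : ℝ) < N := by exact_mod_cast (by omega : 0 < N)
  have hNr : (64 : ℝ) ≤ N := by exact_mod_cast hN
  have hl0 : 0 < Real.log N := by linarith
  obtain ⟨X, hX⟩ : ∃ X : ℝ, X = N / (Real.log N) ^ (T * K + 1) := ⟨_, rfl⟩
  have hX0 : 0 < X := by rw [hX]; positivity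
  rw [← hX] at hmain ⊢
  have hKr : (1 : ℝ) ≤ (K : ℝ) ^ T := one_le_pow₀ (by exact_mod_cast hK)
  set B : (Fin T → Fin K) → Finset ℕ := fun σ => (Icc 1 N).filter (fun n : ℕ =>
    (n : ℝ) ≤ N / 2 ∧ (∀ g, IsP2 ((N : ℝ) ^ δ) (Fm a h 0 (ix g (σ g)) n)) ∧
      Pq σ (fun g j => (Fm a h 0 (ix g j) n).toNat.Prime)) with hB
  have hsub : (Icc 1 N).filter (fun n : ℕ => n ≡ 1 [MOD (WW D)] ∧
        (N : ℝ) / 16 ≤ n ∧ (n : ℝ) ≤ N / 2 ∧
        (∀ p : ℕ, p.Prime → Real.log p ≤ δ * Real.log N → ∀ q,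
          ¬ p ∣ LZ (uB a) (wB h 0) q n) ∧
        (∀ g : Fin T, ∃ i, cl i = g ∧ P2 (Fm a h 0 i n)) ∧
        Pr (fun i => (Fm a h 0 i n).toNat.Prime)) ⊆ (univ : Finset (Fin T → Fin K)).biUnion B := by
    intro n hn
    rw [mem_filter] at hn
    obtain ⟨hn1, -, hn3, hn4, hn5, hn6, hn7⟩ := hn
    have hrough : ∀ (i : Fin (T * K)) (p : ℕ), p.Prime → (p : ℤ) ∣ Fm a h 0 i n →
        (N : ℝ) ^ δ < p := by
      intro i p hp hpd
      by_contra hc
      push Not at hc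
      have hp0 : (0 : ℝ) < p := by exact_mod_cast hp.pos
      have h1 : Real.log p ≤ δ * Real.log N := by
        rw [← Real.log_rpow hN0]
        exact Real.log_le_log hp0 hc
      apply hn5 p hp h1 (some i)
      unfold LZ
      apply Int.natCast_dvd.1
      have h2 : uB a (some i) * (n : ℤ) + wB h 0 (some i) = Fm a h 0 i n := by
        unfold Fm
        simp only [uB, wB]
        ring
      rw [h2]
      exact hpd
    have hbig : ∀ i : Fin (T * K), 1 < Fm a h 0 i n := by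
      intro i
      have h1 := hPR i n hn3 hn4
      have h2 : ((Fm a h 0 i n : ℤ) : ℝ) = ((0 : ℕ) : ℝ) + a i * n + h i := by
        unfold Fm
        push_cast
        ring
      have h3 : (1 : ℝ) < ((Fm a h 0 i n : ℤ) : ℝ) := by
        rw [h2]
        linarith
      exact_mod_cast h3
    obtain ⟨S, hS1, hS2⟩ := hPrS _ hn7
    have hex : ∀ g : Fin T, ∃ j : Fin K, P2 (Fm a h 0 (ix g j) n) ∧
        (g ∈ S → (Fm a h 0 (ix g j) n).toNat.Prime) := by
      intro g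
      by_cases hg : g ∈ S
      · obtain ⟨j, hj⟩ := hS1 g hg
        exact ⟨j, P2_of_prime hj, fun _ => hj⟩
      · obtain ⟨i, hi1, hi2⟩ := hn6 g
        refine ⟨sx i, ?_, fun h => absurd h hg⟩
        rw [← hi1, ix_cl]
        exact hi2
    choose σ hσ using hex
    rw [mem_biUnion]
    refine ⟨σ, mem_univ _, ?_⟩
    rw [hB, mem_filter]
    exact ⟨hn1, hn4, fun g => isP2_of (hbig _) (hσ g).1 (hrough _),
      hS2 σ (fun g hg => (hσ g).2 hg)⟩
  have hbig : ∃ σ : Fin T → Fin K, c / (2 * (K : ℝ) ^ T) * X ≤ ((B σ).card : ℝ) := by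
    by_contra hcon
    push Not at hcon
    have e1 := (Nat.cast_le (α := ℝ)).2 ((card_le_card hsub).trans card_biUnion_le)
    rw [Nat.cast_sum] at e1
    have e2 : ∑ σ : Fin T → Fin K, ((B σ).card : ℝ) ≤
        (univ : Finset (Fin T → Fin K)).card • (c / (2 * (K : ℝ) ^ T) * X) :=
      Finset.sum_le_card_nsmul _ _ _ (fun q _ => (hcon q).le)
    rw [Finset.card_univ, Fintype.card_fun, Fintype.card_fin, Fintype.card_fin, nsmul_eq_mul] at e2
    push_cast at e2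
    have e3 : (K : ℝ) ^ T * (c / (2 * (K : ℝ) ^ T) * X) = c * X / 2 := by field_simp
    rw [e3] at e2
    have e4 : 0 < c * X := by positivity
    linarith
  obtain ⟨σ, hσ⟩ := hbig
  refine ⟨σ, hσ.trans ?_⟩
  rw [Nat.cast_le, ← card_image_of_injective (B σ) (add_left_injective s)]
  apply card_le_card
  intro m hm
  obtain ⟨n, hn, rfl⟩ := mem_image.1 hm
  rw [hB, mem_filter] at hn
  obtain ⟨hn1, hn2, hn3, hn4⟩ := hn
  rw [mem_Icc] at hn1
  rw [mem_filter, mem_Icc]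
  have hns : ((n + s : ℕ) : ℝ) ≤ N := by push_cast; linarith
  refine ⟨⟨by omega, by exact_mod_cast hns⟩, fun g => ?_, ?_⟩
  · have h5 := hn3 g
    rw [hf] at h5
    exact h5
  · simp only [hf] at hn4
    exact hn4


open Classical in
/-- **the coloured theorem with almost primes for families of linear forms, uniformly** -/
theorem lamP0 (T T₁ M : ℕ) (hTT : T₁ ≤ T) (hTM : (18 / 5 : ℝ) * M < T₁) : ∃ K : ℕ, 1 ≤ K ∧
    ∃ δ : ℝ, 0 < δ ∧ ∀ A : ℕ, ∃ c : ℝ, 0 < c ∧ ∀ᶠ N : ℕ in atTop, ∀ f : Fin T → Fin K → ℤ × ℤ,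
    Function.Injective (fun x : Fin T × Fin K => f x.1 x.2) → (∀ g i, Adf A N (f g i)) →
    (∀ p : ℕ, p.Prime → p ≤ T * K → ∃ r : ℤ, ∀ g i, ¬ (p : ℤ) ∣ (f g i).1 * r + (f g i).2) →
    ∀ G₁ : Finset (Fin T), G₁.card = T₁ → ∃ σ : Fin T → Fin K,
      c * (N / (Real.log N) ^ (T * K + 1)) ≤ (((Icc 1 N).filter (fun n : ℕ =>
        (∀ g, IsP2 ((N : ℝ) ^ δ) ((f g (σ g)).1 * n + (f g (σ g)).2)) ∧
        M + 1 ≤ (G₁.filter (fun g => ((f g (σ g)).1 * n + (f g (σ g)).2).toNat.Prime)).card)).card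
          : ℝ) := by
  obtain ⟨K, hK, δ, hδ, D₀, H⟩ := thmP T T₁ M hTT hTM
  refine ⟨K, by omega, δ, hδ, ?_⟩
  intro A
  obtain ⟨c, hc, Hc⟩ := H (D₀ + A) (by omega)
  refine ⟨c / (2 * (K : ℝ) ^ T), by
    have : (0 : ℝ) < K := by exact_mod_cast (by omega : 0 < K)
    positivity, ?_⟩
  haveI : NeZero K := ⟨by omega⟩
  have h2 : ∀ᶠ N : ℕ in atTop, ∀ a ∈ (Fintype.piFinset (fun _ : Fin (T * K) =>
      Icc (-(A : ℤ)) A)).filter (fun a => ∀ i, a i ≠ 0), ∀ (h : Fin (T * K) → ℤ) (Mo : ℕ),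
      HB h Mo N → Nd a h Mo → PosR a h Mo N → ∀ v : ℕ, CopAt a h (D₀ + A) Mo v →
      ∀ G₁ : Finset (Fin T), G₁.card = T₁ →
      c * (N / (Real.log N) ^ (T * K + 1)) ≤
        (((Icc 1 N).filter (fun n : ℕ => n ≡ v [MOD (WW (D₀ + A))] ∧
        (N : ℝ) / 16 ≤ n ∧ (n : ℝ) ≤ N / 2 ∧
        (∀ p : ℕ, p.Prime → Real.log p ≤ δ * Real.log N → ∀ q,
          ¬ p ∣ LZ (uB a) (wB h Mo) q n) ∧
        (∀ g : Fin T, ∃ i, cl i = g ∧ P2 (Fm a h Mo i n)) ∧
        M + 1 ≤ (G₁.filter (fun g : Fin T => ∃ i, cl i = g ∧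
          (Fm a h Mo i n).toNat.Prime)).card)).card : ℝ) := by
    rw [Filter.eventually_all_finset]
    intro a ha
    obtain ⟨ha1, ha2⟩ := mem_filter.1 ha
    rw [Fintype.mem_piFinset] at ha1
    refine Hc a cl card_cl (fun _ => trivial) (fun i => ha2 _) (fun i => ?_)
    have h3 := mem_Icc.1 (ha1 i)
    omega
  filter_upwards [h2, setupF T K A (D₀ + A) (by omega), ev_log 1, eventually_ge_atTop 64]
    with N hN2 hset hl hN f hinj hAd hloc G₁ hG₁
  obtain ⟨s, a, h, hs, hmem, hHB, hNd, hPR, hCo, hf⟩ := hset f hinj hAd hloc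
  have hmain := hN2 a hmem h 0 hHB hNd hPR 1 hCo G₁ hG₁
  have key := transF (δ := δ) (by omega) hN hc hl hs hPR hf
    (fun pr => M + 1 ≤ (G₁.filter (fun g : Fin T => ∃ i, cl i = g ∧ pr i)).card)
    (fun σ pq => M + 1 ≤ (G₁.filter (fun g : Fin T => pq g (σ g))).card) (by
      intro pr hpr
      refine ⟨G₁.filter (fun g : Fin T => ∃ i, cl i = g ∧ pr i), ?_, ?_⟩
      · intro g hg
        obtain ⟨-, i, hi1, hi2⟩ := mem_filter.1 hg
        refine ⟨sx i, ?_⟩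
        rw [← hi1, ix_cl]
        exact hi2
      · intro σ hσ
        refine hpr.trans (card_le_card ?_)
        intro g hg
        rw [mem_filter]
        exact ⟨(mem_filter.1 hg).1, hσ g hg⟩) (by convert hmain)
  obtain ⟨σ, hσ⟩ := key
  refine ⟨σ, ?_⟩
  convert hσ

open Classical in
/-- **a given prime form and almost primes in all the classes, for families of linear forms,
uniformly** -/
theorem lamQ0 (T : ℕ) (hT : 1 ≤ T) : ∃ K : ℕ, 2 ≤ K ∧
    ∃ δ : ℝ, 0 < δ ∧ ∀ A : ℕ, ∃ c : ℝ, 0 < c ∧ ∀ᶠ N : ℕ in atTop, ∀ f : Fin T → Fin K → ℤ × ℤ,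
    Function.Injective (fun x : Fin T × Fin K => f x.1 x.2) → (∀ g i, Adf A N (f g i)) →
    (∀ p : ℕ, p.Prime → p ≤ T * K → ∃ r : ℤ, ∀ g i, ¬ (p : ℤ) ∣ (f g i).1 * r + (f g i).2) →
    ∀ (g₀ : Fin T) (j₀ : Fin K), ∃ σ : Fin T → Fin K,
      c * (N / (Real.log N) ^ (T * K + 1)) ≤ (((Icc 1 N).filter (fun n : ℕ =>
        (∀ g, IsP2 ((N : ℝ) ^ δ) ((f g (σ g)).1 * n + (f g (σ g)).2)) ∧
        ((f g₀ j₀).1 * n + (f g₀ j₀).2).toNat.Prime)).card : ℝ) := by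
  obtain ⟨K, hK, δ, hδ, D₀, H⟩ := thmQ T hT
  refine ⟨K, hK, δ, hδ, ?_⟩
  intro A
  obtain ⟨c, hc, Hc⟩ := H (D₀ + A) (by omega)
  refine ⟨c / (2 * (K : ℝ) ^ T), by
    have : (0 : ℝ) < K := by exact_mod_cast (by omega : 0 < K)
    positivity, ?_⟩
  haveI : NeZero K := ⟨by omega⟩
  have h2 : ∀ᶠ N : ℕ in atTop, ∀ a ∈ (Fintype.piFinset (fun _ : Fin (T * K) =>
      Icc (-(A : ℤ)) A)).filter (fun a => ∀ i, a i ≠ 0), ∀ (h : Fin (T * K) → ℤ) (Mo : ℕ),
      HB h Mo N → Nd a h Mo → PosR a h Mo N → ∀ v : ℕ, CopAt a h (D₀ + A) Mo v →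
      ∀ i₀ : Fin (T * K),
      c * (N / (Real.log N) ^ (T * K + 1)) ≤
        (((Icc 1 N).filter (fun n : ℕ => n ≡ v [MOD (WW (D₀ + A))] ∧
        (N : ℝ) / 16 ≤ n ∧ (n : ℝ) ≤ N / 2 ∧
        (∀ p : ℕ, p.Prime → Real.log p ≤ δ * Real.log N → ∀ q,
          ¬ p ∣ LZ (uB a) (wB h Mo) q n) ∧
        (∀ g : Fin T, ∃ i, cl i = g ∧ P2 (Fm a h Mo i n)) ∧
        (Fm a h Mo i₀ n).toNat.Prime)).card : ℝ) := by
    rw [Filter.eventually_all_finset]
    intro a ha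
    obtain ⟨ha1, ha2⟩ := mem_filter.1 ha
    rw [Fintype.mem_piFinset] at ha1
    refine Hc a cl card_cl (fun _ => trivial) (fun i => ha2 _) (fun i => ?_)
    have h3 := mem_Icc.1 (ha1 i)
    omega
  filter_upwards [h2, setupF T K A (D₀ + A) (by omega), ev_log 1, eventually_ge_atTop 64]
    with N hN2 hset hl hN f hinj hAd hloc g₀ j₀
  obtain ⟨s, a, h, hs, hmem, hHB, hNd, hPR, hCo, hf⟩ := hset f hinj hAd hloc
  have hmain := hN2 a hmem h 0 hHB hNd hPR 1 hCo (ix g₀ j₀)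
  have key := transF (δ := δ) (by omega) hN hc hl hs hPR hf
    (fun pr => pr (ix g₀ j₀))
    (fun _ pq => pq g₀ j₀) (by
      intro pr hpr
      exact ⟨∅, fun g hg => absurd hg (Finset.notMem_empty g), fun _ _ => hpr⟩) (by convert hmain)
  obtain ⟨σ, hσ⟩ := key
  refine ⟨σ, ?_⟩
  convert hσ

end Pool.Agent.Z296.AP
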