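import Mathlib
import Pool.Agent.Y827.GS.FamF
import Pool.Agent.Z296.AP.LamP
import Pool.Agent.Z296.AP.BoxQ

/-! Project AP (helper296): almost all tuples of linear forms take almost prime values simultaneously,
a positive proportion of them prime. -/

set_option autoImplicit false

namespace Pool.Agent.Z296.AP

open Finset Filter Topology
open Pool.Agent.W25.UN (ev_log)
open Pool.Agent.Y827.GS (Adf adf_ev)

theorem IsP2.mono {y y' : ℝ} {m : ℤ} (h : IsP2 y m) (hy : y' ≤ y) : IsP2 y' m := by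
  obtain ⟨p, h1, h2, h3⟩ := h
  refine ⟨p, h1, lt_of_le_of_lt hy h2, ?_⟩
  rcases h3 with h3 | ⟨q, h4, h5, h6⟩
  · exact Or.inl h3
  · exact Or.inr ⟨q, h4, lt_of_le_of_lt hy h5, h6⟩

open Classical in
/-- the number of the `n ≤ N` at which all the forms are almost prime and at least `5 / 18` of the
forms with index in `G` are prime -/
noncomputable def cntG {T : ℕ} (δ : ℝ) (f : Fin T → ℤ × ℤ) (G : Finset (Fin T)) (N : ℕ) : ℕ :=
  ((Icc 1 N).filter (fun n : ℕ => (∀ i, IsP2 ((N : ℝ) ^ δ) ((f i).1 * n + (f i).2)) ∧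
    (5 / 18 : ℝ) * G.card ≤ ((G.filter (fun i => ((f i).1 * n + (f i).2).toNat.Prime)).card : ℝ))).card

open Classical in
/-- the number of the primes `q ≤ N` at which all the forms are almost prime -/
noncomputable def cntQ {T : ℕ} (δ : ℝ) (f : Fin T → ℤ × ℤ) (N : ℕ) : ℕ :=
  ((Icc 1 N).filter (fun q : ℕ => q.Prime ∧
    ∀ i, IsP2 ((N : ℝ) ^ δ) ((f i).1 * q + (f i).2))).card

open Classical in
/-- the coloured theorem with almost primes for all sets of classes -/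
theorem lamB (T : ℕ) (hT : 1 ≤ T) : ∃ K : ℕ, 1 ≤ K ∧ ∃ δ : ℝ, 0 < δ ∧ ∀ A : ℕ, ∀ᶠ N : ℕ in atTop,
    ∀ f : Fin T → Fin K → ℤ × ℤ,
    Function.Injective (fun x : Fin T × Fin K => f x.1 x.2) → (∀ g i, Adf A N (f g i)) →
    (∀ p : ℕ, p.Prime → p ≤ T * K → ∃ r : ℤ, ∀ g i, ¬ (p : ℤ) ∣ (f g i).1 * r + (f g i).2) →
    ∀ G : Finset (Fin T), G.Nonempty → ∃ σ : Fin T → Fin K,
      (N : ℝ) / (Real.log N) ^ (T * K + 2) ≤ (cntG δ (fun g => f g (σ g)) G N : ℝ) := by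
  have h0 : ∀ t : Fin T, ∃ M : ℕ, (18 / 5 : ℝ) * M < ((t : ℕ) + 1 : ℕ) ∧
      (5 / 18 : ℝ) * (((t : ℕ) + 1 : ℕ) : ℝ) ≤ ((M + 1 : ℕ) : ℝ) := by
    intro t
    obtain ⟨M, hM⟩ : ∃ M : ℕ, M + 1 = ⌈(5 / 18 : ℝ) * (((t : ℕ) + 1 : ℕ) : ℝ)⌉₊ := by
      have : 0 < ⌈(5 / 18 : ℝ) * (((t : ℕ) + 1 : ℕ) : ℝ)⌉₊ := Nat.ceil_pos.2 (by positivity)
      exact ⟨⌈(5 / 18 : ℝ) * (((t : ℕ) + 1 : ℕ) : ℝ)⌉₊ - 1, by omega⟩
    refine ⟨M, ?_, ?_⟩
    · have h1 : (M : ℝ) < (5 / 18 : ℝ) * (((t : ℕ) + 1 : ℕ) : ℝ) := by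
        rw [← Nat.lt_ceil]
        omega
      linarith
    · rw [hM]
      exact Nat.le_ceil _
  choose Mf hM1 hM2 using h0
  have h1 : ∀ t : Fin T, ∃ K : ℕ, 1 ≤ K ∧
    ∃ δ : ℝ, 0 < δ ∧ ∀ A : ℕ, ∃ c : ℝ, 0 < c ∧ ∀ᶠ N : ℕ in atTop, ∀ f : Fin T → Fin K → ℤ × ℤ,
    Function.Injective (fun x : Fin T × Fin K => f x.1 x.2) → (∀ g i, Adf A N (f g i)) →
    (∀ p : ℕ, p.Prime → p ≤ T * K → ∃ r : ℤ, ∀ g i, ¬ (p : ℤ) ∣ (f g i).1 * r + (f g i).2) →
    ∀ G₁ : Finset (Fin T), G₁.card = (t : ℕ) + 1 → ∃ σ : Fin T → Fin K,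
      c * (N / (Real.log N) ^ (T * K + 1)) ≤ (((Icc 1 N).filter (fun n : ℕ =>
        (∀ g, IsP2 ((N : ℝ) ^ δ) ((f g (σ g)).1 * n + (f g (σ g)).2)) ∧
        Mf t + 1 ≤ (G₁.filter (fun g =>
          ((f g (σ g)).1 * n + (f g (σ g)).2).toNat.Prime)).card)).card : ℝ) := fun t =>
    lamP0 T ((t : ℕ) + 1) (Mf t) (by omega) (hM1 t)
  choose Kf hK1 δf hδf Hf using h1
  obtain ⟨t₀, -, ht₀⟩ := Finset.exists_min_image (univ : Finset (Fin T)) δf
    ⟨⟨0, hT⟩, mem_univ _⟩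
  have hKle : ∀ t, Kf t ≤ ∑ t, Kf t := fun t =>
    Finset.single_le_sum (f := Kf) (fun _ _ => Nat.zero_le _) (mem_univ t)
  refine ⟨∑ t, Kf t, (hK1 t₀).trans (hKle t₀), δf t₀, hδf t₀, ?_⟩
  intro A
  have h2 : ∀ t : Fin T, ∃ c : ℝ, 0 < c ∧ ∀ᶠ N : ℕ in atTop, ∀ f : Fin T → Fin (Kf t) → ℤ × ℤ,
    Function.Injective (fun x : Fin T × Fin (Kf t) => f x.1 x.2) → (∀ g i, Adf A N (f g i)) →
    (∀ p : ℕ, p.Prime → p ≤ T * Kf t → ∃ r : ℤ, ∀ g i, ¬ (p : ℤ) ∣ (f g i).1 * r + (f g i).2) →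
    ∀ G₁ : Finset (Fin T), G₁.card = (t : ℕ) + 1 → ∃ σ : Fin T → Fin (Kf t),
      c * (N / (Real.log N) ^ (T * Kf t + 1)) ≤ (((Icc 1 N).filter (fun n : ℕ =>
        (∀ g, IsP2 ((N : ℝ) ^ δf t) ((f g (σ g)).1 * n + (f g (σ g)).2)) ∧
        Mf t + 1 ≤ (G₁.filter (fun g =>
          ((f g (σ g)).1 * n + (f g (σ g)).2).toNat.Prime)).card)).card : ℝ) := fun t => Hf t A
  choose cf hcf Hc using h2
  have h3 : ∀ᶠ N : ℕ in atTop, ∀ t : Fin T, 1 / cf t ≤ Real.log N := by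
    rw [eventually_all]
    exact fun t => ev_log _
  filter_upwards [eventually_all.2 Hc, h3, ev_log 1, eventually_ge_atTop 3]
    with N hN hcN hl hN3 f hinj hAd hloc G hG
  have hN0 : (0 : ℝ) < N := by exact_mod_cast (by omega : 0 < N)
  have hN1 : (1 : ℝ) ≤ N := by exact_mod_cast (by omega : 1 ≤ N)
  have hl0 : 0 < Real.log N := by linarith
  have hGc : 1 ≤ G.card := Finset.card_pos.2 hG
  have hGT : G.card ≤ T := by
    have := Finset.card_le_univ G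
    rwa [Fintype.card_fin] at this
  obtain ⟨t, ht⟩ : ∃ t : Fin T, (t : ℕ) + 1 = G.card := ⟨⟨G.card - 1, by omega⟩, by
    show G.card - 1 + 1 = G.card
    omega⟩
  obtain ⟨σ, hσ⟩ := hN t (fun g i => f g (Fin.castLE (hKle t) i)) (by
      rintro ⟨g, i⟩ ⟨g', i'⟩ h
      have h4 := hinj (a₁ := (g, Fin.castLE (hKle t) i)) (a₂ := (g', Fin.castLE (hKle t) i')) h
      rw [Prod.mk.injEq] at h4
      rw [h4.1, Fin.castLE_injective (hKle t) h4.2]) (fun g i => hAd g _) (by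
      intro p hp hpT
      obtain ⟨r, hr⟩ := hloc p hp (hpT.trans (Nat.mul_le_mul_left _ (hKle t)))
      exact ⟨r, fun g i => hr g _⟩) G ht.symm
  refine ⟨fun g => Fin.castLE (hKle t) (σ g), ?_⟩
  have h5 : (N : ℝ) / (Real.log N) ^ (T * (∑ t, Kf t) + 2) ≤
      cf t * (N / (Real.log N) ^ (T * Kf t + 1)) := by
    have h6 : 1 ≤ cf t * Real.log N := by
      have := hcN t
      rw [div_le_iff₀ (hcf t)] at this
      linarith
    have h7 : (Real.log N) ^ (T * Kf t + 2) ≤ (Real.log N) ^ (T * (∑ t, Kf t) + 2) := by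
      apply pow_le_pow_right₀ hl
      have := Nat.mul_le_mul_left T (hKle t)
      omega
    calc (N : ℝ) / (Real.log N) ^ (T * (∑ t, Kf t) + 2) ≤ N / (Real.log N) ^ (T * Kf t + 2) :=
          div_le_div_of_nonneg_left hN0.le (by positivity) h7
      _ ≤ (cf t * Real.log N) * (N / (Real.log N) ^ (T * Kf t + 2)) :=
          le_mul_of_one_le_left (by positivity) h6
      _ = cf t * (N / (Real.log N) ^ (T * Kf t + 1)) := by
          rw [show T * Kf t + 2 = T * Kf t + 1 + 1 from rfl, pow_succ]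
          field_simp
  refine h5.trans (hσ.trans ?_)
  unfold cntG
  rw [Nat.cast_le]
  apply card_le_card
  intro n hn
  rw [mem_filter] at hn ⊢
  refine ⟨hn.1, fun g => ?_, ?_⟩
  · refine (hn.2.1 g).mono ?_
    exact Real.rpow_le_rpow_of_exponent_le hN1 (ht₀ t (mem_univ _))
  · rw [← ht]
    refine (hM2 t).trans ?_
    exact_mod_cast hn.2.2

/-- the primes up to `z` -/
theorem dvd_res {z W : ℕ} (hW : ∀ p : ℕ, p.Prime → p ≤ z → p ∣ W) {f f' : ℤ × ℤ}
    (h1 : ((f.1 : ℤ) : ZMod W) = ((f'.1 : ℤ) : ZMod W))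
    (h2 : ((f.2 : ℤ) : ZMod W) = ((f'.2 : ℤ) : ZMod W)) {p : ℕ} (hp : p.Prime) (hpz : p ≤ z)
    {r : ℤ} (h : (p : ℤ) ∣ f.1 * r + f.2) : (p : ℤ) ∣ f'.1 * r + f'.2 := by
  have hpW : (p : ℤ) ∣ (W : ℤ) := by exact_mod_cast hW p hp hpz
  rw [ZMod.intCast_eq_intCast_iff_dvd_sub] at h1 h2
  have h3 : (p : ℤ) ∣ (f'.1 - f.1) * r + (f'.2 - f.2) :=
    dvd_add ((hpW.trans h1).mul_right r) (hpW.trans h2)
  have h4 := dvd_add h h3
  have h5 : f.1 * r + f.2 + ((f'.1 - f.1) * r + (f'.2 - f.2)) = f'.1 * r + f'.2 := by ring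
  rwa [h5] at h4

/-- admissible tuples of forms -/
def AdmT {T : ℕ} (f : Fin T → ℤ × ℤ) : Prop :=
  ∀ p : ℕ, p.Prime → ∃ r : ℤ, ∀ i, ¬ (p : ℤ) ∣ (f i).1 * r + (f i).2

/-- tuples of forms admissible together with the form `n` -/
def AdmQ {T : ℕ} (f : Fin T → ℤ × ℤ) : Prop :=
  ∀ p : ℕ, p.Prime → ∃ r : ℤ, ¬ (p : ℤ) ∣ r ∧ ∀ i, ¬ (p : ℤ) ∣ (f i).1 * r + (f i).2

open Classical in
/-- **almost all tuples, uniformly** -/
theorem famB_unif (T : ℕ) (hT : 1 ≤ T) : ∃ (δ η C : ℝ) (B : ℕ), 0 < δ ∧ 0 < η ∧ η ≤ 1 / 2 ∧ 0 < C ∧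
    ∀ A : ℕ, ∀ᶠ N : ℕ in atTop, ∀ V : Finset (ℤ × ℤ), (∀ f ∈ V, Adf A N f) →
      (((Fintype.piFinset (fun _ : Fin T => V)).filter (fun f => AdmT f ∧
        ∃ G : Finset (Fin T), G.Nonempty ∧
          (cntG δ f G N : ℝ) < (N : ℝ) / (Real.log N) ^ B)).card : ℝ) ≤
        C * (V.card : ℝ) ^ ((T : ℝ) - η) := by
  obtain ⟨K, hK, δ, hδ, H⟩ := lamB T hT
  obtain ⟨W, hWd⟩ : ∃ W : ℕ, W = (T * K).factorial := ⟨_, rfl⟩
  have hW0 : W ≠ 0 := by rw [hWd]; exact Nat.factorial_ne_zero _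
  haveI : NeZero W := ⟨hW0⟩
  obtain ⟨C, hC, HC⟩ := count_res T K (W * W) hT hK
  have hKr : (0 : ℝ) < (K : ℝ) ^ T := by
    have : (0 : ℝ) < K := by exact_mod_cast hK
    positivity
  have hη1 : 1 / (2 * (K : ℝ) ^ T) ≤ 1 / 2 := by
    apply one_div_le_one_div_of_le (by norm_num)
    have : (1 : ℝ) ≤ (K : ℝ) ^ T := one_le_pow₀ (by exact_mod_cast hK)
    linarith
  refine ⟨δ, 1 / (2 * (K : ℝ) ^ T), 2 ^ T * C, T * K + 2, hδ, by positivity, hη1, by positivity, ?_⟩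
  intro A
  filter_upwards [H A] with N hN V hV
  have hG : ∀ G : Finset (Fin T), G.Nonempty →
      (((Fintype.piFinset (fun _ : Fin T => V)).filter (fun f => AdmT f ∧
        (cntG δ f G N : ℝ) < (N : ℝ) / (Real.log N) ^ (T * K + 2))).card : ℝ) ≤
      C * (V.card : ℝ) ^ ((T : ℝ) - 1 / (2 * (K : ℝ) ^ T)) := by
    intro G hGne
    refine le_trans (le_of_eq ?_) (HC (ℤ × ℤ) (ZMod W × ZMod W)
      (fun f => (((f.1 : ℤ) : ZMod W), ((f.2 : ℤ) : ZMod W))) (by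
        rw [Fintype.card_prod, ZMod.card]) V
      (fun f => AdmT f ∧ (cntG δ f G N : ℝ) < (N : ℝ) / (Real.log N) ^ (T * K + 2)) ?_)
    · congr!
    rintro ⟨F, hF1, hF2, hF3, hF4⟩
    have hK0 : 0 < K := hK
    obtain ⟨σ, hσ⟩ := hN F hF2 (fun g i => hV _ (hF1 g i)) (by
      intro p hp hpT
      obtain ⟨r, hr⟩ := (hF4 (fun _ => ⟨0, hK0⟩)).1 p hp
      refine ⟨r, fun g i h => hr g ?_⟩
      have h1 := hF3 g i ⟨0, hK0⟩
      rw [Prod.mk.injEq] at h1
      exact dvd_res (z := T * K) (W := W) (fun p hp hpz => by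
        rw [hWd]; exact Nat.dvd_factorial hp.pos hpz) h1.1 h1.2 hp hpT h) G hGne
    exact absurd hσ (not_le.2 (hF4 σ).2)
  have hsub : (Fintype.piFinset (fun _ : Fin T => V)).filter (fun f => AdmT f ∧
        ∃ G : Finset (Fin T), G.Nonempty ∧
          (cntG δ f G N : ℝ) < (N : ℝ) / (Real.log N) ^ (T * K + 2)) ⊆
      ((univ : Finset (Finset (Fin T))).filter (fun G => G.Nonempty)).biUnion (fun G =>
        (Fintype.piFinset (fun _ : Fin T => V)).filter (fun f => AdmT f ∧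
        (cntG δ f G N : ℝ) < (N : ℝ) / (Real.log N) ^ (T * K + 2))) := by
    intro f hf
    rw [mem_filter] at hf
    obtain ⟨h1, h2, G, h3, h4⟩ := hf
    rw [mem_biUnion]
    exact ⟨G, mem_filter.2 ⟨mem_univ _, h3⟩, mem_filter.2 ⟨h1, h2, h4⟩⟩
  have h1 := (Nat.cast_le (α := ℝ)).2 ((card_le_card hsub).trans card_biUnion_le)
  refine h1.trans ?_
  rw [Nat.cast_sum]
  refine (Finset.sum_le_sum fun G hG' => hG G (mem_filter.1 hG').2).trans ?_
  rw [Finset.sum_const, nsmul_eq_mul, mul_assoc]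
  apply mul_le_mul_of_nonneg_right
  · have h2 := card_filter_le (univ : Finset (Finset (Fin T))) (fun G => G.Nonempty)
    rw [Finset.card_univ, Fintype.card_finset, Fintype.card_fin] at h2
    exact_mod_cast h2
  · exact mul_nonneg (by linarith) (Real.rpow_nonneg (Nat.cast_nonneg _) _)

open Classical in
/-- **almost all tuples of pairs and a prime argument, uniformly** -/
theorem famA_unif (T : ℕ) (hT : 1 ≤ T) : ∃ (δ η C : ℝ) (B : ℕ), 0 < δ ∧ 0 < η ∧ η ≤ 1 / 2 ∧ 0 < C ∧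
    ∀ A : ℕ, ∀ᶠ N : ℕ in atTop, ∀ V : Finset (ℤ × ℤ), (∀ f ∈ V, Adf A N f) →
      (((Fintype.piFinset (fun _ : Fin T => V)).filter (fun f => AdmQ f ∧
          (cntQ δ f N : ℝ) < (N : ℝ) / (Real.log N) ^ B)).card : ℝ) ≤
        C * (V.card : ℝ) ^ ((T : ℝ) - η) := by
  obtain ⟨K, hK, δ, hδ, H⟩ := lamQ0 (T + 1) (by omega)
  obtain ⟨W, hWd⟩ : ∃ W : ℕ, W = ((T + 1) * K).factorial := ⟨_, rfl⟩
  have hW0 : W ≠ 0 := by rw [hWd]; exact Nat.factorial_ne_zero _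
  haveI : NeZero W := ⟨hW0⟩
  obtain ⟨C, hC, HC⟩ := count_res T (K + K) (W * W + 1) hT (by omega)
  have hKr : (0 : ℝ) < ((K + K : ℕ) : ℝ) ^ T := by
    have : (0 : ℝ) < ((K + K : ℕ) : ℝ) := by exact_mod_cast (by omega : 0 < K + K)
    positivity
  have hη1 : 1 / (2 * ((K + K : ℕ) : ℝ) ^ T) ≤ 1 / 2 := by
    apply one_div_le_one_div_of_le (by norm_num)
    have : (1 : ℝ) ≤ ((K + K : ℕ) : ℝ) ^ T := one_le_pow₀ (by exact_mod_cast (by omega : 1 ≤ K + K))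
    linarith
  refine ⟨δ, 1 / (2 * ((K + K : ℕ) : ℝ) ^ T), C, (T + 1) * K + 2, hδ, by positivity, hη1,
    by positivity, ?_⟩
  intro A
  obtain ⟨c, hc, Hc⟩ := H (A + 1)
  filter_upwards [Hc, ev_log 1, ev_log (1 / c), eventually_ge_atTop 3] with N hN hl hlc hN3 V hV
  have hN0 : (0 : ℝ) < N := by exact_mod_cast (by omega : 0 < N)
  have hl0 : 0 < Real.log N := by linarith
  refine le_trans (le_of_eq ?_) (HC (ℤ × ℤ) (Option (ZMod W × ZMod W))
      (fun f => if f = (1, 0) then none else some (((f.1 : ℤ) : ZMod W), ((f.2 : ℤ) : ZMod W))) (by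
        rw [Fintype.card_option, Fintype.card_prod, ZMod.card]) V
      (fun f => AdmQ f ∧ (cntQ δ f N : ℝ) < (N : ℝ) / (Real.log N) ^ ((T + 1) * K + 2)) ?_)
  · congr!
  rintro ⟨F, hF1, hF2, hF3, hF4⟩
  have hK0 : 0 < K := by omega
  -- no element is the form `n`
  have hne : ∀ g i, F g i ≠ (1, 0) := by
    intro g i h
    have h1 : ∀ j, F g j = (1, 0) := by
      intro j
      by_contra hj
      have h2 := hF3 g i j
      simp only [h, if_true, if_neg hj] at h2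
      exact absurd h2 (by simp)
    have h2 := hF2 (a₁ := (g, ⟨0, by omega⟩)) (a₂ := (g, ⟨1, by omega⟩)) (by
      simp only
      rw [h1, h1])
    rw [Prod.mk.injEq] at h2
    have h3 := congrArg Fin.val h2.2
    simp at h3
  have hres : ∀ g i j, ((((F g i).1 : ℤ) : ZMod W) = (((F g j).1 : ℤ) : ZMod W)) ∧
      ((((F g i).2 : ℤ) : ZMod W) = (((F g j).2 : ℤ) : ZMod W)) := by
    intro g i j
    have h1 := hF3 g i j
    simp only [if_neg (hne g i), if_neg (hne g j)] at h1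
    rw [Option.some_inj, Prod.mk.injEq] at h1
    exact h1
  -- the family
  obtain ⟨H', hH'⟩ : ∃ H' : Fin (T + 1) → Fin K → ℤ × ℤ, H' = Fin.cons
      (fun j => if j = ⟨0, hK0⟩ then (1, 0) else F ⟨0, hT⟩ (Fin.natAdd K j))
      (fun i j => F i (Fin.castAdd K j)) := ⟨_, rfl⟩
  have hH0 : ∀ j, H' 0 j = if j = ⟨0, hK0⟩ then (1, 0) else F ⟨0, hT⟩ (Fin.natAdd K j) := by
    intro j
    rw [hH']
    rfl
  have hHs : ∀ (i : Fin T) (j : Fin K), H' i.succ j = F i (Fin.castAdd K j) := by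
    intro i j
    rw [hH']
    rfl
  have hadd : ∀ (j j' : Fin K), Fin.natAdd K j ≠ Fin.castAdd K j' := by
    intro j j' h
    have h1 := congrArg Fin.val h
    simp only [Fin.val_natAdd, Fin.val_castAdd] at h1
    have := j'.2
    omega
  have hinjF : ∀ g i g' i', F g i = F g' i' → g = g' ∧ i = i' := by
    intro g i g' i' h
    have h1 := hF2 (a₁ := (g, i)) (a₂ := (g', i')) h
    rw [Prod.mk.injEq] at h1
    exact h1
  have hH'inj : Function.Injective (fun x : Fin (T + 1) × Fin K => H' x.1 x.2) := by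
    rintro ⟨g, i⟩ ⟨g', i'⟩ h
    simp only at h
    revert h
    refine Fin.cases ?_ (fun g => ?_) g <;> refine Fin.cases ?_ (fun g' => ?_) g'
    · intro h
      rw [hH0, hH0] at h
      by_cases h1 : i = ⟨0, hK0⟩ <;> by_cases h2 : i' = ⟨0, hK0⟩
      · rw [h1, h2]
      · rw [if_pos h1, if_neg h2] at h
        exact absurd h.symm (hne _ _)
      · rw [if_neg h1, if_pos h2] at h
        exact absurd h (hne _ _)
      · rw [if_neg h1, if_neg h2] at h
        have h3 := (hinjF _ _ _ _ h).2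
        have h4 := congrArg Fin.val h3
        simp only [Fin.val_natAdd] at h4
        have h5 : i = i' := Fin.ext (by omega)
        rw [h5]
    · intro h
      rw [hH0, hHs] at h
      exfalso
      by_cases h1 : i = ⟨0, hK0⟩
      · rw [if_pos h1] at h
        exact hne _ _ h.symm
      · rw [if_neg h1] at h
        exact hadd _ _ (hinjF _ _ _ _ h).2
    · intro h
      rw [hH0, hHs] at h
      exfalso
      by_cases h1 : i' = ⟨0, hK0⟩
      · rw [if_pos h1] at h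
        exact hne _ _ h
      · rw [if_neg h1] at h
        exact hadd _ _ (hinjF _ _ _ _ h).2.symm
    · intro h
      rw [hHs, hHs] at h
      obtain ⟨h1, h2⟩ := hinjF _ _ _ _ h
      have h4 := congrArg Fin.val h2
      simp only [Fin.val_castAdd] at h4
      have h5 : i = i' := Fin.ext h4
      rw [h1, h5]
  have hAd1 : Adf (A + 1) N (1, 0) := by
    refine ⟨one_ne_zero, ?_, ?_, ?_, ?_⟩
    · simp only [abs_one]
      push_cast
      have : (0 : ℤ) ≤ A := Nat.cast_nonneg _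
      linarith
    · simp
    · exact isCoprime_one_left
    · intro t ht1 ht2
      push_cast
      linarith
  have hAdF : ∀ g i, Adf (A + 1) N (F g i) := by
    intro g i
    have h1 := hV _ (hF1 g i)
    refine ⟨h1.1, h1.2.1.trans ?_, h1.2.2.1, h1.2.2.2.1, h1.2.2.2.2⟩
    push_cast
    linarith
  obtain ⟨σ, hσ⟩ := hN H' hH'inj (by
      intro g i
      refine Fin.cases ?_ (fun g => ?_) g
      · rw [hH0]
        split_ifs
        · exact hAd1
        · exact hAdF _ _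
      · rw [hHs]
        exact hAdF _ _) (by
      intro p hp hpT
      obtain ⟨r, hr0, hr⟩ := (hF4 (fun _ => ⟨0, by omega⟩)).1 p hp
      have hF : ∀ g i, ¬ (p : ℤ) ∣ (F g i).1 * r + (F g i).2 := by
        intro g i h
        have h1 := hres g i ⟨0, by omega⟩
        exact hr g (dvd_res (z := (T + 1) * K) (W := W) (fun p hp hpz => by
          rw [hWd]; exact Nat.dvd_factorial hp.pos hpz) h1.1 h1.2 hp hpT h)
      refine ⟨r, fun g i => ?_⟩
      refine Fin.cases ?_ (fun g => ?_) g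
      · rw [hH0]
        split_ifs
        · intro h
          apply hr0
          simpa using h
        · exact hF _ _
      · rw [hHs]
        exact hF _ _) 0 ⟨0, hK0⟩
  have h1 := (hF4 (fun i => Fin.castAdd K (σ i.succ))).2
  have h5 : (N : ℝ) / (Real.log N) ^ ((T + 1) * K + 2) ≤
      c * (N / (Real.log N) ^ ((T + 1) * K + 1)) := by
    have h6 : 1 ≤ c * Real.log N := by
      rw [div_le_iff₀ hc] at hlc
      linarith
    calc (N : ℝ) / (Real.log N) ^ ((T + 1) * K + 2)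
        ≤ (c * Real.log N) * (N / (Real.log N) ^ ((T + 1) * K + 2)) :=
          le_mul_of_one_le_left (by positivity) h6
      _ = c * (N / (Real.log N) ^ ((T + 1) * K + 1)) := by
          rw [show (T + 1) * K + 2 = (T + 1) * K + 1 + 1 from rfl, pow_succ]
          field_simp
  refine absurd (h5.trans (hσ.trans ?_)) (not_le.2 h1)
  unfold cntQ
  rw [Nat.cast_le]
  apply card_le_card
  intro n hn
  rw [mem_filter] at hn ⊢
  refine ⟨hn.1, ?_, fun i => ?_⟩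
  · have h7 := hn.2.2
    rw [hH0, if_pos rfl] at h7
    have h8 : ((1 : ℤ) * (n : ℤ) + 0).toNat = n := by
      rw [one_mul, add_zero, Int.toNat_natCast]
    simp only at h7
    rwa [h8] at h7
  · have h7 := hn.2.1 i.succ
    rw [hHs] at h7
    exact h7

end Pool.Agent.Z296.AP
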