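import Mathlib
import Pool.Agent.Z296.AP.FamP

/-! Project AP (helper296): the theorems on almost all tuples, final forms. -/

set_option autoImplicit false

namespace Pool.Agent.Z296.AP

open Finset Filter Topology
open Pool.Agent.W25.UN (ev_log)
open Pool.Agent.Y827.GS (Adf adf_ev)

/-- the forms with positive slopes satisfy the condition on the size -/
theorem adf_of {A N : ℕ} {f : ℤ × ℤ} (h1 : 1 ≤ f.1) (h2 : f.1 ≤ A)
    (h3 : 48 * |f.2| ≤ N) (h4 : IsCoprime f.1 f.2) : Adf A N f := by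
  have h6 : (48 : ℝ) * |(f.2 : ℝ)| ≤ N := by
    have : ((48 * |f.2| : ℤ) : ℝ) ≤ ((N : ℤ) : ℝ) := by exact_mod_cast h3
    push_cast at this
    exact this
  have h7 : (0 : ℤ) ≤ |f.2| := abs_nonneg _
  refine ⟨by omega, ?_, by linarith, h4, ?_⟩
  · rw [abs_of_nonneg (by omega)]
    exact h2
  · intro t ht1 ht2
    have h8 : (1 : ℝ) ≤ f.1 := by exact_mod_cast h1
    have h9 : -|(f.2 : ℝ)| ≤ f.2 := neg_abs_le _
    have h10 : (0 : ℝ) ≤ N := Nat.cast_nonneg _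
    have h11 : t ≤ f.1 * t := le_mul_of_one_le_left (by linarith) h8
    linarith

/-- a common argument for the passage from the uniform statement to a fixed set -/
theorem fix_of {k : ℕ} {C η : ℝ} {Ad : (Fin k → ℤ × ℤ) → Prop} {Bd : ℕ → (Fin k → ℤ × ℤ) → Prop}
    (H : ∀ A : ℕ, ∀ᶠ N : ℕ in atTop, ∀ V : Finset (ℤ × ℤ),
      (∀ f ∈ V, 1 ≤ f.2 ∧ f.2 ≤ A ∧ 48 * |f.1| ≤ N) →
      ({f : Fin k → ℤ × ℤ | (∀ i, f i ∈ V) ∧ Ad f ∧ Bd N f}.ncard : ℝ) ≤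
        C * (V.card : ℝ) ^ ((k : ℝ) - η)) (V : Finset (ℤ × ℤ)) (hV : ∀ f ∈ V, 1 ≤ f.2) :
    ({f : Fin k → ℤ × ℤ | (∀ i, f i ∈ V) ∧ Ad f ∧ ∀ᶠ N in atTop, Bd N f}.ncard : ℝ) ≤
        C * (V.card : ℝ) ^ ((k : ℝ) - η) := by
  classical
  obtain ⟨A, hA⟩ : ∃ A : ℕ, A = ∑ f ∈ V, f.2.natAbs := ⟨_, rfl⟩
  have hle : ∀ f ∈ V, f.2 ≤ A := by
    intro f hf
    have h1 : f.2.natAbs ≤ ∑ f ∈ V, f.2.natAbs :=
      Finset.single_le_sum (f := fun f : ℤ × ℤ => f.2.natAbs) (fun _ _ => Nat.zero_le _) hf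
    have h2 := hV f hf
    omega
  have hfin : {f : Fin k → ℤ × ℤ | (∀ i, f i ∈ V) ∧ Ad f ∧ ∀ᶠ N in atTop, Bd N f}.Finite := by
    apply (Fintype.piFinset (fun _ : Fin k => V)).finite_toSet.subset
    rintro f ⟨hf, -⟩
    rw [mem_coe, Fintype.mem_piFinset]
    exact hf
  have hall : ∀ᶠ N in atTop, ∀ f ∈ hfin.toFinset, Bd N f := by
    rw [Filter.eventually_all_finset]
    intro f hf
    rw [Set.Finite.mem_toFinset] at hf
    exact hf.2.2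
  obtain ⟨N, hN1, hN2, hN3⟩ := ((H A).and (hall.and
    (eventually_ge_atTop (48 * ∑ f ∈ V, f.1.natAbs)))).exists
  refine le_trans ?_ (hN1 V (fun f hf => ⟨hV f hf, hle f hf, ?_⟩))
  · rw [Nat.cast_le]
    apply Set.ncard_le_ncard
    · intro f hf
      exact ⟨hf.1, hf.2.1, hN2 f (by rw [Set.Finite.mem_toFinset]; exact hf)⟩
    · apply (Fintype.piFinset (fun _ : Fin k => V)).finite_toSet.subset
      rintro f ⟨hf, -⟩
      rw [mem_coe, Fintype.mem_piFinset]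
      exact hf
  · have h1 : f.1.natAbs ≤ ∑ f ∈ V, f.1.natAbs :=
      Finset.single_le_sum (f := fun f : ℤ × ℤ => f.1.natAbs) (fun _ _ => Nat.zero_le _) hf
    rw [Int.abs_eq_natAbs]
    exact_mod_cast (Nat.mul_le_mul_left 48 h1).trans hN3

/-- a common argument for the passage to pairs -/
theorem swap_of {k : ℕ} (hk : 1 ≤ k) {C η : ℝ} (hC : 0 < C) (hη : η ≤ 1 / 2)
    {Ad : (Fin k → ℤ × ℤ) → Prop} {Bd : ℕ → (Fin k → ℤ × ℤ) → Prop}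
    [∀ N, DecidablePred (fun f => Ad f ∧ Bd N f)]
    (hAd : ∀ f, Ad f → ∀ i, IsCoprime (f i).1 (f i).2)
    (H : ∀ A : ℕ, ∀ᶠ N : ℕ in atTop, ∀ V : Finset (ℤ × ℤ), (∀ f ∈ V, Adf A N f) →
      (((Fintype.piFinset (fun _ : Fin k => V)).filter (fun f => Ad f ∧ Bd N f)).card : ℝ) ≤
        C * (V.card : ℝ) ^ ((k : ℝ) - η)) (A : ℕ) : ∀ᶠ N : ℕ in atTop, ∀ V : Finset (ℤ × ℤ),
      (∀ f ∈ V, 1 ≤ f.2 ∧ f.2 ≤ A ∧ 48 * |f.1| ≤ N) →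
      ({f : Fin k → ℤ × ℤ | (∀ i, f i ∈ V) ∧ Ad (fun i => (f i).swap) ∧
        Bd N (fun i => (f i).swap)}.ncard : ℝ) ≤ C * (V.card : ℝ) ^ ((k : ℝ) - η) := by
  classical
  filter_upwards [H A] with N hN V hV
  have hkr : (1 : ℝ) ≤ k := by exact_mod_cast hk
  obtain ⟨V', hV'⟩ : ∃ V' : Finset (ℤ × ℤ), V' = (V.filter (fun f => IsCoprime f.2 f.1)).image
    Prod.swap := ⟨_, rfl⟩
  have hV'A : ∀ f ∈ V', Adf A N f := by
    intro f hf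
    rw [hV', mem_image] at hf
    obtain ⟨g, hg, rfl⟩ := hf
    rw [mem_filter] at hg
    obtain ⟨h1, h2, h3⟩ := hV g hg.1
    exact adf_of h1 h2 h3 hg.2
  have h1 := hN V' hV'A
  have hcard : (V'.card : ℝ) ≤ V.card := by
    rw [hV']
    exact_mod_cast card_image_le.trans (card_filter_le _ _)
  obtain ⟨P, hP⟩ : ∃ P : Finset (Fin k → ℤ × ℤ), P =
    (Fintype.piFinset (fun _ : Fin k => V')).filter (fun f => Ad f ∧ Bd N f) := ⟨_, rfl⟩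
  rw [← hP] at h1
  have hinj : Function.Injective (fun (f : Fin k → ℤ × ℤ) (i : Fin k) => (f i).swap) := by
    intro f g h
    funext i
    exact Prod.swap_injective (congrFun h i)
  have h2 : {f : Fin k → ℤ × ℤ | (∀ i, f i ∈ V) ∧ Ad (fun i => (f i).swap) ∧
        Bd N (fun i => (f i).swap)}.ncard ≤ P.card := by
    rw [← Set.ncard_coe_finset P]
    apply Set.ncard_le_ncard_of_injOn (fun (f : Fin k → ℤ × ℤ) (i : Fin k) => (f i).swap)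
    · rintro f ⟨hf1, hf2, hf3⟩
      rw [mem_coe, hP, mem_filter, Fintype.mem_piFinset]
      refine ⟨fun i => ?_, hf2, hf3⟩
      rw [hV', mem_image]
      refine ⟨f i, ?_, rfl⟩
      rw [mem_filter]
      exact ⟨hf1 i, hAd _ hf2 i⟩
    · exact hinj.injOn
  refine ((Nat.cast_le (α := ℝ)).2 h2).trans (h1.trans ?_)
  apply mul_le_mul_of_nonneg_left _ hC.le
  exact Real.rpow_le_rpow (Nat.cast_nonneg _) hcard (by linarith)

theorem admT_cop {k : ℕ} {f : Fin k → ℤ × ℤ} (h : AdmT f) (i : Fin k) :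
    IsCoprime (f i).1 (f i).2 := by
  rw [Int.isCoprime_iff_gcd_eq_one]
  by_contra hc
  obtain ⟨p, hp, hpd⟩ := Nat.exists_prime_and_dvd hc
  obtain ⟨r, hr⟩ := h p hp
  apply hr i
  have h4 : (p : ℤ) ∣ (f i).1 := (Int.natCast_dvd_natCast.2 hpd).trans (Int.gcd_dvd_left _ _)
  have h5 : (p : ℤ) ∣ (f i).2 := (Int.natCast_dvd_natCast.2 hpd).trans (Int.gcd_dvd_right _ _)
  exact dvd_add (h4.mul_right _) h5

theorem admQ_T {k : ℕ} {f : Fin k → ℤ × ℤ} (h : AdmQ f) : AdmT f := by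
  intro p hp
  obtain ⟨r, -, hr⟩ := h p hp
  exact ⟨r, hr⟩

/-- **almost all tuples of pairs `(a, d)`** -/
theorem finA (k : ℕ) (hk : 1 ≤ k) : ∃ (δ η C : ℝ) (B : ℕ), 0 < δ ∧ 0 < η ∧
    (∀ V : Finset (ℤ × ℤ), (∀ f ∈ V, 1 ≤ f.2) →
      ({f : Fin k → ℤ × ℤ | (∀ i, f i ∈ V) ∧ AdmQ (fun i => (f i).swap) ∧
        ∀ᶠ N : ℕ in atTop, (cntQ δ (fun i => (f i).swap) N : ℝ) <
          (N : ℝ) / (Real.log N) ^ B}.ncard : ℝ) ≤ C * (V.card : ℝ) ^ ((k : ℝ) - η)) ∧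
    (∀ A : ℕ, ∀ᶠ N : ℕ in atTop, ∀ V : Finset (ℤ × ℤ),
      (∀ f ∈ V, 1 ≤ f.2 ∧ f.2 ≤ A ∧ 48 * |f.1| ≤ N) →
      ({f : Fin k → ℤ × ℤ | (∀ i, f i ∈ V) ∧ AdmQ (fun i => (f i).swap) ∧
        (cntQ δ (fun i => (f i).swap) N : ℝ) < (N : ℝ) / (Real.log N) ^ B}.ncard : ℝ) ≤
        C * (V.card : ℝ) ^ ((k : ℝ) - η)) := by
  classical
  obtain ⟨δ, η, C, B, hδ, hη, hη1, hC, H⟩ := famA_unif k hk
  have h1 : ∀ A : ℕ, ∀ᶠ N : ℕ in atTop, ∀ V : Finset (ℤ × ℤ),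
      (∀ f ∈ V, 1 ≤ f.2 ∧ f.2 ≤ A ∧ 48 * |f.1| ≤ N) →
      ({f : Fin k → ℤ × ℤ | (∀ i, f i ∈ V) ∧ AdmQ (fun i => (f i).swap) ∧
        (cntQ δ (fun i => (f i).swap) N : ℝ) < (N : ℝ) / (Real.log N) ^ B}.ncard : ℝ) ≤
        C * (V.card : ℝ) ^ ((k : ℝ) - η) := fun A =>
    swap_of (Ad := AdmQ) (Bd := fun N f => (cntQ δ f N : ℝ) < (N : ℝ) / (Real.log N) ^ B) hk hC hη1
      (fun f hf i => admT_cop (admQ_T hf) i) (fun A => by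
        filter_upwards [H A] with N hN V hV
        refine le_trans (le_of_eq ?_) (hN V hV)
        congr!) A
  exact ⟨δ, η, C, B, hδ, hη, fun V hV => fix_of h1 V hV, h1⟩

/-- **almost all tuples of linear forms** (`f = (a, d)` is the form `a + n d`) -/
theorem finB (k : ℕ) (hk : 1 ≤ k) : ∃ (δ η C : ℝ) (B : ℕ), 0 < δ ∧ 0 < η ∧
    (∀ V : Finset (ℤ × ℤ), (∀ f ∈ V, 1 ≤ f.2) →
      ({f : Fin k → ℤ × ℤ | (∀ i, f i ∈ V) ∧ AdmT (fun i => (f i).swap) ∧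
        ∀ᶠ N : ℕ in atTop, ∃ G : Finset (Fin k), G.Nonempty ∧
          (cntG δ (fun i => (f i).swap) G N : ℝ) <
          (N : ℝ) / (Real.log N) ^ B}.ncard : ℝ) ≤ C * (V.card : ℝ) ^ ((k : ℝ) - η)) ∧
    (∀ A : ℕ, ∀ᶠ N : ℕ in atTop, ∀ V : Finset (ℤ × ℤ),
      (∀ f ∈ V, 1 ≤ f.2 ∧ f.2 ≤ A ∧ 48 * |f.1| ≤ N) →
      ({f : Fin k → ℤ × ℤ | (∀ i, f i ∈ V) ∧ AdmT (fun i => (f i).swap) ∧
        ∃ G : Finset (Fin k), G.Nonempty ∧
        (cntG δ (fun i => (f i).swap) G N : ℝ) < (N : ℝ) / (Real.log N) ^ B}.ncard : ℝ) ≤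
        C * (V.card : ℝ) ^ ((k : ℝ) - η)) := by
  classical
  obtain ⟨δ, η, C, B, hδ, hη, hη1, hC, H⟩ := famB_unif k hk
  have h1 : ∀ A : ℕ, ∀ᶠ N : ℕ in atTop, ∀ V : Finset (ℤ × ℤ),
      (∀ f ∈ V, 1 ≤ f.2 ∧ f.2 ≤ A ∧ 48 * |f.1| ≤ N) →
      ({f : Fin k → ℤ × ℤ | (∀ i, f i ∈ V) ∧ AdmT (fun i => (f i).swap) ∧
        ∃ G : Finset (Fin k), G.Nonempty ∧
        (cntG δ (fun i => (f i).swap) G N : ℝ) < (N : ℝ) / (Real.log N) ^ B}.ncard : ℝ) ≤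
        C * (V.card : ℝ) ^ ((k : ℝ) - η) := fun A =>
    swap_of (Ad := AdmT) (Bd := fun N f => ∃ G : Finset (Fin k), G.Nonempty ∧
        (cntG δ f G N : ℝ) < (N : ℝ) / (Real.log N) ^ B) hk hC hη1
      (fun f hf i => admT_cop hf i) (fun A => by
        filter_upwards [H A] with N hN V hV
        refine le_trans (le_of_eq ?_) (hN V hV)
        congr!) A
  exact ⟨δ, η, C, B, hδ, hη, fun V hV => fix_of h1 V hV, h1⟩

end Pool.Agent.Z296.AP
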