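import Mathlib
import Pool.Agent.Y827.LS.FamL
import Pool.Agent.Z296.AP.CompQ
import Pool.Agent.Z296.AP.FinA

/-! Project AP (helper296): a positive proportion of the tuples of forms is prime, with almost prime
values of almost all tuples of companions. -/

set_option autoImplicit false

namespace Pool.Agent.Z296.AP

open Finset Filter Topology
open Pool.Agent.W25.UN (ev_log)
open Pool.Agent.Y827.GS (Adf adf_ev)
open Pool.Agent.Y827.LS (dn dn_le hcountL)

open Classical in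
/-- the number of the `n ≤ N` at which all the forms in `F` are prime and all the `y j` almost prime -/
noncomputable def cntS {k : ℕ} (δ : ℝ) (F : Finset (ℤ × ℤ)) (y : Fin k → ℤ × ℤ) (N : ℕ) : ℕ :=
  ((Icc 1 N).filter (fun n : ℕ => (∀ f ∈ F, (f.1 * n + f.2).toNat.Prime) ∧
    ∀ j, IsP2 ((N : ℝ) ^ δ) ((y j).1 * n + (y j).2))).card

open Classical in
theorem cntS_mono {k : ℕ} {δ δ' : ℝ} (h : δ' ≤ δ) {F F' : Finset (ℤ × ℤ)} (hF : F' ⊆ F)
    (y : Fin k → ℤ × ℤ) {N : ℕ} (hN : 1 ≤ N) : cntS δ F y N ≤ cntS δ' F' y N := by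
  unfold cntS
  apply card_le_card
  intro n hn
  rw [mem_filter] at hn ⊢
  refine ⟨hn.1, fun f hf => hn.2.1 f (hF hf), fun j => (hn.2.2 j).mono ?_⟩
  exact Real.rpow_le_rpow_of_exponent_le (by exact_mod_cast hN) h

open Classical in
/-- the coloured theorem with companions -/
theorem lamS (T k : ℕ) (hT : 1 ≤ T) : ∃ K : ℕ, 1 ≤ K ∧ ∃ δ : ℝ, 0 < δ ∧ ∀ A : ℕ,
    ∀ᶠ N : ℕ in atTop, ∀ (H : Fin T → Fin K → ℤ × ℤ) (H2 : Fin k → Fin K → ℤ × ℤ),
    (∀ g i, Adf A N (H g i)) → (∀ g i, Adf A N (H2 g i)) →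
    Function.Injective (fun x : Fin T × Fin K => H x.1 x.2) →
    Function.Injective (fun x : Fin k × Fin K => H2 x.1 x.2) →
    (∀ g i j l, H g i ≠ H2 j l) →
    (∀ p : ℕ, p.Prime → p ≤ (T + k) * K → ∃ r : ℤ,
      (∀ g i, ¬ (p : ℤ) ∣ (H g i).1 * r + (H g i).2) ∧
      ∀ g i, ¬ (p : ℤ) ∣ (H2 g i).1 * r + (H2 g i).2) →
    ∃ (S : Finset (Fin T)) (c : Fin T → Fin K) (c2 : Fin k → Fin K),
      (T : ℝ) ≤ 18 / 5 * (S.card : ℝ) ∧
      (N : ℝ) / (Real.log N) ^ ((T + k) * K + 2) ≤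
        (cntS δ (S.image (fun g => H g (c g))) (fun j => H2 j (c2 j)) N : ℝ) := by
  obtain ⟨M, hM⟩ : ∃ M : ℕ, M + 1 = ⌈(5 / 18 : ℝ) * (T : ℝ)⌉₊ := by
    have h0 : (0 : ℝ) < T := by exact_mod_cast hT
    have : 0 < ⌈(5 / 18 : ℝ) * (T : ℝ)⌉₊ := Nat.ceil_pos.2 (by positivity)
    exact ⟨⌈(5 / 18 : ℝ) * (T : ℝ)⌉₊ - 1, by omega⟩
  have hM1 : (18 / 5 : ℝ) * M < T := by
    have h1 : (M : ℝ) < (5 / 18 : ℝ) * (T : ℝ) := by
      rw [← Nat.lt_ceil]
      omega
    linarith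
  have hM2 : (T : ℝ) ≤ 18 / 5 * ((M + 1 : ℕ) : ℝ) := by
    have h1 : (5 / 18 : ℝ) * (T : ℝ) ≤ ((M + 1 : ℕ) : ℝ) := by
      rw [hM]
      exact Nat.le_ceil _
    linarith
  obtain ⟨K, hK, δ, hδ, HK⟩ := lamP0 (T + k) T M (by omega) hM1
  refine ⟨K, hK, δ, hδ, ?_⟩
  intro A
  obtain ⟨c, hc, Hc⟩ := HK A
  filter_upwards [Hc, ev_log 1, ev_log (2 ^ T / c), eventually_ge_atTop 3]
    with N hN hl hlc hN3 H H2 hA hA2 hinj hinj2 hcross hloc
  have hN0 : (0 : ℝ) < N := by exact_mod_cast (by omega : 0 < N)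
  have hl0 : 0 < Real.log N := by linarith
  obtain ⟨f, hf⟩ : ∃ f : Fin (T + k) → Fin K → ℤ × ℤ, f = Fin.append H H2 := ⟨_, rfl⟩
  have hf1 : ∀ g, f (Fin.castAdd k g) = H g := by
    intro g
    rw [hf, Fin.append_left]
  have hf2 : ∀ g, f (Fin.natAdd T g) = H2 g := by
    intro g
    rw [hf, Fin.append_right]
  have hG₁ : ((univ : Finset (Fin T)).image (Fin.castAdd k)).card = T := by
    rw [card_image_of_injective _ (Fin.castAdd_injective T k), Finset.card_univ, Fintype.card_fin]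
  obtain ⟨σ, hσ⟩ := hN f (by
      rintro ⟨g, i⟩ ⟨g', i'⟩ h
      simp only at h
      revert h
      refine Fin.addCases (fun g => ?_) (fun g => ?_) g <;>
        refine Fin.addCases (fun g' => ?_) (fun g' => ?_) g'
      · intro h
        rw [hf1, hf1] at h
        have h4 := hinj (a₁ := (g, i)) (a₂ := (g', i')) h
        rw [Prod.mk.injEq] at h4
        rw [h4.1, h4.2]
      · intro h
        rw [hf1, hf2] at h
        exact absurd h (hcross _ _ _ _)
      · intro h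
        rw [hf1, hf2] at h
        exact absurd h.symm (hcross _ _ _ _)
      · intro h
        rw [hf2, hf2] at h
        have h4 := hinj2 (a₁ := (g, i)) (a₂ := (g', i')) h
        rw [Prod.mk.injEq] at h4
        rw [h4.1, h4.2]) (by
      intro g i
      refine Fin.addCases (fun g => ?_) (fun g => ?_) g
      · rw [hf1]; exact hA _ _
      · rw [hf2]; exact hA2 _ _) (by
      intro p hp hpT
      obtain ⟨r, hr1, hr2⟩ := hloc p hp hpT
      refine ⟨r, fun g i => ?_⟩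
      refine Fin.addCases (fun g => ?_) (fun g => ?_) g
      · rw [hf1]; exact hr1 _ _
      · rw [hf2]; exact hr2 _ _) _ hG₁
  obtain ⟨X, hX⟩ : ∃ X : ℝ, X = N / (Real.log N) ^ ((T + k) * K + 1) := ⟨_, rfl⟩
  have hX0 : 0 < X := by rw [hX]; positivity
  rw [← hX] at hσ
  -- the pigeonhole principle
  obtain ⟨P, hP⟩ : ∃ P : Finset (Finset (Fin T)), P =
    (univ : Finset (Finset (Fin T))).filter (fun S => M + 1 ≤ S.card) := ⟨_, rfl⟩
  have hsub : (Icc 1 N).filter (fun n : ℕ =>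
        (∀ g, IsP2 ((N : ℝ) ^ δ) ((f g (σ g)).1 * n + (f g (σ g)).2)) ∧
        M + 1 ≤ (((univ : Finset (Fin T)).image (Fin.castAdd k)).filter (fun g =>
          ((f g (σ g)).1 * n + (f g (σ g)).2).toNat.Prime)).card) ⊆
      P.biUnion (fun S => (Icc 1 N).filter (fun n : ℕ =>
        (∀ f' ∈ S.image (fun g => H g (σ (Fin.castAdd k g))), (f'.1 * n + f'.2).toNat.Prime) ∧
        ∀ j, IsP2 ((N : ℝ) ^ δ) ((H2 j (σ (Fin.natAdd T j))).1 * n +
          (H2 j (σ (Fin.natAdd T j))).2))) := by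
    intro n hn
    rw [mem_filter] at hn
    obtain ⟨hn1, hn2, hn3⟩ := hn
    rw [mem_biUnion]
    refine ⟨(univ : Finset (Fin T)).filter (fun g =>
      ((H g (σ (Fin.castAdd k g))).1 * n + (H g (σ (Fin.castAdd k g))).2).toNat.Prime), ?_, ?_⟩
    · rw [hP, mem_filter]
      refine ⟨mem_univ _, hn3.trans ?_⟩
      have h4 : ((univ : Finset (Fin T)).image (Fin.castAdd k)).filter (fun g =>
          ((f g (σ g)).1 * n + (f g (σ g)).2).toNat.Prime) ⊆
          ((univ : Finset (Fin T)).filter (fun g =>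
            ((H g (σ (Fin.castAdd k g))).1 * n + (H g (σ (Fin.castAdd k g))).2).toNat.Prime)).image
            (Fin.castAdd k) := by
        intro g hg
        rw [mem_filter, mem_image] at hg
        obtain ⟨⟨g', -, rfl⟩, hg⟩ := hg
        rw [hf1] at hg
        exact mem_image_of_mem _ (mem_filter.2 ⟨mem_univ _, hg⟩)
      exact (card_le_card h4).trans card_image_le
    · rw [mem_filter]
      refine ⟨hn1, ?_, fun j => ?_⟩
      · intro f' hf'
        rw [mem_image] at hf'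
        obtain ⟨g, hg, rfl⟩ := hf'
        exact (mem_filter.1 hg).2
      · have h5 := hn2 (Fin.natAdd T j)
        rw [hf2] at h5
        exact h5
  have hbig : ∃ S ∈ P, c / 2 ^ T * X ≤ (((Icc 1 N).filter (fun n : ℕ =>
        (∀ f' ∈ S.image (fun g => H g (σ (Fin.castAdd k g))), (f'.1 * n + f'.2).toNat.Prime) ∧
        ∀ j, IsP2 ((N : ℝ) ^ δ) ((H2 j (σ (Fin.natAdd T j))).1 * n +
          (H2 j (σ (Fin.natAdd T j))).2))).card : ℝ) := by
    by_contra hcon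
    push Not at hcon
    have e1 := (Nat.cast_le (α := ℝ)).2 ((card_le_card hsub).trans card_biUnion_le)
    rw [Nat.cast_sum] at e1
    rcases P.eq_empty_or_nonempty with hPe | hPne
    · rw [hPe, Finset.sum_empty] at e1
      have e2 : 0 < c * X := by positivity
      linarith
    · have e2 := Finset.sum_lt_sum_of_nonempty hPne hcon
      rw [Finset.sum_const, nsmul_eq_mul] at e2
      have e3 : (P.card : ℝ) ≤ 2 ^ T := by
        have h6 : P.card ≤ 2 ^ T := by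
          rw [hP]
          refine (card_filter_le _ _).trans ?_
          rw [Finset.card_univ, Fintype.card_finset, Fintype.card_fin]
        exact_mod_cast h6
      have e4 : (P.card : ℝ) * (c / 2 ^ T * X) ≤ 2 ^ T * (c / 2 ^ T * X) :=
        mul_le_mul_of_nonneg_right e3 (by positivity)
      have e5 : (2 : ℝ) ^ T * (c / 2 ^ T * X) = c * X := by field_simp
      linarith
  obtain ⟨S, hS, hSc⟩ := hbig
  rw [hP, mem_filter] at hS
  refine ⟨S, fun g => σ (Fin.castAdd k g), fun j => σ (Fin.natAdd T j), ?_, ?_⟩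
  · refine hM2.trans ?_
    have : ((M + 1 : ℕ) : ℝ) ≤ S.card := by exact_mod_cast hS.2
    linarith
  · have h5 : (N : ℝ) / (Real.log N) ^ ((T + k) * K + 2) ≤ c / 2 ^ T * X := by
      have h6 : 1 ≤ c / 2 ^ T * Real.log N := by
        rw [div_le_iff₀ hc] at hlc
        have h7 : (0 : ℝ) < 2 ^ T := by positivity
        rw [div_mul_eq_mul_div, le_div_iff₀ h7]
        linarith
      calc (N : ℝ) / (Real.log N) ^ ((T + k) * K + 2) ≤
          (c / 2 ^ T * Real.log N) * (N / (Real.log N) ^ ((T + k) * K + 2)) :=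
            le_mul_of_one_le_left (by positivity) h6
        _ = c / 2 ^ T * X := by
            rw [hX, show (T + k) * K + 2 = (T + k) * K + 1 + 1 from rfl, pow_succ]
            field_simp
    refine h5.trans (hSc.trans (le_of_eq ?_))
    unfold cntS
    congr!

open Classical in
/-- **a positive proportion of the tuples is prime, with almost all companions almost prime,
uniformly** -/
theorem famS_unif (l k : ℕ) (ε : ℝ) (hε : 0 < ε) : ∃ (z n₀ B : ℕ) (δ : ℝ), 0 < δ ∧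
    ∀ A : ℕ, ∀ᶠ N : ℕ in atTop, ∀ V : Finset (ℤ × ℤ), n₀ ≤ V.card → (∀ f ∈ V, Adf A N f) →
      (∀ p : ℕ, p.Prime → p ≤ z → ∃ r : ℤ, ∀ f ∈ V, ¬ (p : ℤ) ∣ f.1 * r + f.2) →
      (((Fintype.piFinset (fun _ : Fin k => V)).filter (fun y =>
        (((Fintype.piFinset (fun _ : Fin (l + 1) => V)).filter (fun x => Function.Injective x ∧
          (N : ℝ) / (Real.log N) ^ B ≤ (cntS δ (univ.image x) y N : ℝ))).card : ℝ) <
            (dn l - ε) * (V.card : ℝ) ^ (l + 1))).card : ℝ) ≤ ε * (V.card : ℝ) ^ k := by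
  have h0 : ∀ T : ℕ, ∃ K : ℕ, 1 ≤ K ∧ ∃ δ : ℝ, 0 < δ ∧ (1 ≤ T → ∀ A : ℕ,
    ∀ᶠ N : ℕ in atTop, ∀ (H : Fin T → Fin K → ℤ × ℤ) (H2 : Fin k → Fin K → ℤ × ℤ),
    (∀ g i, Adf A N (H g i)) → (∀ g i, Adf A N (H2 g i)) →
    Function.Injective (fun x : Fin T × Fin K => H x.1 x.2) →
    Function.Injective (fun x : Fin k × Fin K => H2 x.1 x.2) →
    (∀ g i j l, H g i ≠ H2 j l) →
    (∀ p : ℕ, p.Prime → p ≤ (T + k) * K → ∃ r : ℤ,
      (∀ g i, ¬ (p : ℤ) ∣ (H g i).1 * r + (H g i).2) ∧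
      ∀ g i, ¬ (p : ℤ) ∣ (H2 g i).1 * r + (H2 g i).2) →
    ∃ (S : Finset (Fin T)) (c : Fin T → Fin K) (c2 : Fin k → Fin K),
      (T : ℝ) ≤ 18 / 5 * (S.card : ℝ) ∧
      (N : ℝ) / (Real.log N) ^ ((T + k) * K + 2) ≤
        (cntS δ (S.image (fun g => H g (c g))) (fun j => H2 j (c2 j)) N : ℝ)) := by
    intro T
    rcases Nat.eq_zero_or_pos T with hT | hT
    · exact ⟨1, le_refl _, 1, one_pos, fun h => absurd h (by omega)⟩
    · obtain ⟨K, hK, δ, hδ, h⟩ := lamS T k hT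
      exact ⟨K, hK, δ, hδ, fun _ => h⟩
  choose Kf hK1 δf hδf Hf using h0
  obtain ⟨M, n₀, hmain⟩ := main_gen2 (lam := 18 / 5) (by norm_num) l k (dn l) (dn_le l)
    (hcountL l) ε hε Kf
  obtain ⟨t₀, -, ht₀⟩ := Finset.exists_min_image (range (M + 1)) δf ⟨0, by simp⟩
  obtain ⟨z, hz⟩ : ∃ z : ℕ, z = ∑ T ∈ range (M + 1), (T + k) * Kf T := ⟨_, rfl⟩
  have hzle : ∀ T ≤ M, (T + k) * Kf T ≤ z := by
    intro T hT
    rw [hz]
    exact Finset.single_le_sum (f := fun T => (T + k) * Kf T) (fun _ _ => Nat.zero_le _)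
      (mem_range.2 (by omega))
  refine ⟨z, n₀, z + 2, δf t₀, hδf t₀, ?_⟩
  intro A
  have h1 : ∀ᶠ N : ℕ in atTop, ∀ T ∈ Icc 1 M,
    ∀ (H : Fin T → Fin (Kf T) → ℤ × ℤ) (H2 : Fin k → Fin (Kf T) → ℤ × ℤ),
    (∀ g i, Adf A N (H g i)) → (∀ g i, Adf A N (H2 g i)) →
    Function.Injective (fun x : Fin T × Fin (Kf T) => H x.1 x.2) →
    Function.Injective (fun x : Fin k × Fin (Kf T) => H2 x.1 x.2) →
    (∀ g i j l, H g i ≠ H2 j l) →
    (∀ p : ℕ, p.Prime → p ≤ (T + k) * Kf T → ∃ r : ℤ,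
      (∀ g i, ¬ (p : ℤ) ∣ (H g i).1 * r + (H g i).2) ∧
      ∀ g i, ¬ (p : ℤ) ∣ (H2 g i).1 * r + (H2 g i).2) →
    ∃ (S : Finset (Fin T)) (c : Fin T → Fin (Kf T)) (c2 : Fin k → Fin (Kf T)),
      (T : ℝ) ≤ 18 / 5 * (S.card : ℝ) ∧
      (N : ℝ) / (Real.log N) ^ ((T + k) * Kf T + 2) ≤
        (cntS (δf T) (S.image (fun g => H g (c g))) (fun j => H2 j (c2 j)) N : ℝ) := by
    rw [Filter.eventually_all_finset]
    intro T hT
    exact Hf T (mem_Icc.1 hT).1 A
  filter_upwards [h1, ev_log 1, eventually_ge_atTop 3] with N hN hl hN3 V hV hAd hloc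
  have hN0 : (0 : ℝ) < N := by exact_mod_cast (by omega : 0 < N)
  refine hmain (ℤ × ℤ) V (fun F y => (N : ℝ) / (Real.log N) ^ (z + 2) ≤
    (cntS (δf t₀) F y N : ℝ)) hV ?_ ?_
  · intro F F' y hF h
    refine h.trans ?_
    exact_mod_cast cntS_mono (le_refl _) hF y (by omega)
  · intro T hT1 hTM H H2 hHV hH2V hinj hinj2 hcross
    obtain ⟨S, c, c2, hS, hc⟩ := hN T (mem_Icc.2 ⟨hT1, hTM⟩) H H2 (fun g i => hAd _ (hHV g i))
      (fun g i => hAd _ (hH2V g i)) hinj hinj2 hcross (by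
        intro p hp hpT
        obtain ⟨r, hr⟩ := hloc p hp (hpT.trans (hzle T hTM))
        exact ⟨r, fun g i => hr _ (hHV g i), fun g i => hr _ (hH2V g i)⟩)
    refine ⟨S, c, c2, hS, ?_⟩
    have h5 : (N : ℝ) / (Real.log N) ^ (z + 2) ≤ N / (Real.log N) ^ ((T + k) * Kf T + 2) := by
      apply div_le_div_of_nonneg_left hN0.le (by positivity)
      apply pow_le_pow_right₀ hl
      have := hzle T hTM
      omega
    refine h5.trans (hc.trans ?_)
    exact_mod_cast cntS_mono (ht₀ T (mem_range.2 (by omega))) (Finset.Subset.refl _) _ (by omega)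

end Pool.Agent.Z296.AP
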