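import Mathlib
import Pool.Agent.Z296.AP.NarL

/-! Project AP (helper296): almost primes in all classes of linear forms, and primes in many of them,
simultaneously along narrow progressions. -/

set_option autoImplicit false

namespace Pool.Agent.Z296.AP

open Finset Filter Topology
open Pool.Agent.Y827.GS (Adf adf_ev)
open Pool.Agent.Y677.RSZ (InProg Outside)
open Pool.Agent.Y827.RO (log_ge_one sys_s hf hf_iter_hi hf_iter_lo cover_card inside pig)

open Classical in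
/-- the number of the `n ≤ N` such that at `n, n + d, ..., n + (l-1) d` all the forms are almost prime
and the forms with index in `S` are prime -/
noncomputable def cntN {T : ℕ} (δ : ℝ) (f : Fin T → ℤ × ℤ) (S : Finset (Fin T)) (l d N : ℕ) : ℕ :=
  ((Icc 1 N).filter (fun n : ℕ => ∀ j < l,
    (∀ i, IsP2 ((N : ℝ) ^ δ) ((f i).1 * ((n + j * d : ℕ) : ℤ) + (f i).2)) ∧
    ∀ i ∈ S, ((f i).1 * ((n + j * d : ℕ) : ℤ) + (f i).2).toNat.Prime)).card

/-- many narrow progressions -/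
def QNP {T : ℕ} (δ : ℝ) (l C N : ℕ) (f : Fin T → ℤ × ℤ) (S : Finset (Fin T)) : Prop :=
  ∃ d : ℕ, 1 ≤ d ∧ (d : ℝ) ≤ (Real.log N) ^ C ∧ (N : ℝ) / (Real.log N) ^ C ≤ (cntN δ f S l d N : ℝ)

open Classical in
theorem QNP_len {T : ℕ} {δ : ℝ} {l l' C N : ℕ} {f : Fin T → ℤ × ℤ} {S : Finset (Fin T)} (hl : l ≤ l')
    (h : QNP δ l' C N f S) : QNP δ l C N f S := by
  obtain ⟨d, h1, h2, h3⟩ := h
  refine ⟨d, h1, h2, h3.trans ?_⟩
  rw [Nat.cast_le]
  unfold cntN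
  apply card_le_card
  intro n hn
  rw [mem_filter] at hn ⊢
  exact ⟨hn.1, fun j hj => hn.2 j (by omega)⟩

open Classical in
theorem QNP_del {T : ℕ} {δ δ' : ℝ} {l C N : ℕ} {f : Fin T → ℤ × ℤ} {S : Finset (Fin T)} (hN : 1 ≤ N)
    (hd : δ ≤ δ') (h : QNP δ' l C N f S) : QNP δ l C N f S := by
  obtain ⟨d, h1, h2, h3⟩ := h
  refine ⟨d, h1, h2, h3.trans ?_⟩
  rw [Nat.cast_le]
  unfold cntN
  apply card_le_card
  intro n hn
  rw [mem_filter] at hn ⊢
  refine ⟨hn.1, fun j hj => ⟨fun i => ((hn.2 j hj).1 i).mono ?_, (hn.2 j hj).2⟩⟩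
  exact Real.rpow_le_rpow_of_exponent_le (by exact_mod_cast hN) hd

open Classical in
/-- **the coloured theorem with almost primes along narrow progressions** -/
theorem narP (T T₁ M : ℕ) (hTT : T₁ ≤ T) (hTM : (18 / 5 : ℝ) * M < T₁) : ∃ K : ℕ, 1 ≤ K ∧
    ∃ δ : ℝ, 0 < δ ∧ ∀ H : Fin T → Fin K → ℤ × ℤ, Function.Injective (fun x : Fin T × Fin K => H x.1 x.2) →
    (∀ g i, 0 < (H g i).1 ∧ IsCoprime (H g i).1 (H g i).2) →
    (∀ p : ℕ, p.Prime → p ≤ T * K → ∃ r : ℤ, ∀ g i, ¬ (p : ℤ) ∣ (H g i).1 * r + (H g i).2) →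
    ∀ l : ℕ, ∃ C : ℕ, ∀ᶠ N : ℕ in atTop, ∀ G₁ : Finset (Fin T), G₁.card = T₁ →
      ∃ (S : Finset (Fin T)) (σ : Fin T → Fin K), S ⊆ G₁ ∧
      M + 1 ≤ S.card ∧ QNP (δ / 2) l C N (fun g => H g (σ g)) S := by
  obtain ⟨K, hK, δ, hδ, H0⟩ := lamRP0 T T₁ M hTT hTM
  refine ⟨K, hK, δ, hδ, fun H hinj hpos hloc l₀ => ?_⟩
  set l : ℕ := max l₀ 2 with hl
  have hl2 : 2 ≤ l := le_max_right _ _
  have hlr : (0 : ℝ) < l := by exact_mod_cast (by omega : 0 < l)
  obtain ⟨A, hA⟩ := adf_ev (univ.image (fun x : Fin T × Fin K => H x.1 x.2)) (by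
    intro f hf
    obtain ⟨x, -, rfl⟩ := mem_image.1 hf
    exact hpos x.1 x.2)
  obtain ⟨s₀, c, hc, H1⟩ := H0 A
  set k : ℕ := T * K + 1 with hk
  set ε : ℝ := c / (10 * 2 ^ k) with hε
  have hε0 : 0 < ε := by positivity
  set Cs : ℕ → Prop := fun s => (∀ g i, (H g i).2 + (H g i).1 * s ≠ 0) ∧
      (∀ p : ℕ, p.Prime → ∃ r : ℤ, ¬ (p : ℤ) ∣ r - s ∧
        ∀ g i, ¬ (p : ℤ) ∣ (H g i).1 * r + (H g i).2) with hCs
  have h2 : ∀ s : ℕ, ∃ r B : ℕ, 1 / δ ≤ r ∧ (Cs s → ∀ᶠ X : ℕ in atTop, ∀ Y : ℕ,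
      (X : ℝ) ^ (1 / 2 : ℝ) ≤ Y → Y ≤ X → ∀ A : Set ℕ, (∀ m ∈ A, (∀ p : ℕ, p.Prime →
        (p : ℤ) ∣ (m : ℤ) - s → (m : ℝ) ^ (1 / (r : ℝ)) < (p : ℝ)) ∧ ∀ g i, ∀ p : ℕ, p.Prime →
        (p : ℤ) ∣ (H g i).1 * m + (H g i).2 → (m : ℝ) ^ (1 / (r : ℝ)) < (p : ℝ)) →
        (Pool.Agent.TH977.PW.N (Outside A l (Real.log X ^ B) X (X + Y)) X (X + Y) : ℝ) ≤
          ε * Y / Real.log X ^ k) := by
    intro s
    by_cases hs : Cs s
    · obtain ⟨r0, -, h⟩ := sys_s H hinj hpos l hl2 s hs.1 hs.2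
      obtain ⟨B, hB⟩ := h (max r0 ⌈1 / δ⌉₊) (le_max_left _ _) ε hε0
      refine ⟨max r0 ⌈1 / δ⌉₊, B, ?_, fun _ => hB⟩
      exact (Nat.le_ceil _).trans (by exact_mod_cast le_max_right _ _)
    · exact ⟨⌈1 / δ⌉₊, 0, Nat.le_ceil _, fun h => absurd h hs⟩
  choose rf Bf hrf hBf using h2
  have h3 : ∀ᶠ X : ℕ in atTop, ∀ s ∈ range (s₀ + 1), Cs s → ∀ Y : ℕ,
      (X : ℝ) ^ (1 / 2 : ℝ) ≤ Y → Y ≤ X → ∀ A : Set ℕ, (∀ m ∈ A, (∀ p : ℕ, p.Prime →
        (p : ℤ) ∣ (m : ℤ) - s → (m : ℝ) ^ (1 / (rf s : ℝ)) < (p : ℝ)) ∧ ∀ g i, ∀ p : ℕ, p.Prime →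
        (p : ℤ) ∣ (H g i).1 * m + (H g i).2 → (m : ℝ) ^ (1 / (rf s : ℝ)) < (p : ℝ)) →
        (Pool.Agent.TH977.PW.N (Outside A l (Real.log X ^ (Bf s)) X (X + Y)) X (X + Y) : ℝ) ≤
          ε * Y / Real.log X ^ k := by
    rw [Filter.eventually_all_finset]
    intro s _
    by_cases hs : Cs s
    · filter_upwards [hBf s hs] with X hX _ using hX
    · exact Eventually.of_forall fun X h => absurd h hs
  obtain ⟨X₀, hX₀⟩ := eventually_atTop.1 h3
  set B : ℕ := ∑ s ∈ range (s₀ + 1), Bf s with hB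
  refine ⟨k + B + 1, ?_⟩
  have hlog : ∀ᶠ N : ℕ in atTop, 10 * (l : ℝ) / c ≤ Real.log N :=
    (Real.tendsto_log_atTop.comp tendsto_natCast_atTop_atTop).eventually_ge_atTop _
  have hbigev : ∀ᶠ N : ℕ in atTop, ∀ f ∈ univ.image (fun x : Fin T × Fin K => H x.1 x.2),
      ∀ m : ℕ, (N : ℝ) / 16 ≤ m → 1 < f.1 * (m : ℤ) + f.2 := by
    rw [Filter.eventually_all_finset]
    intro f hf
    obtain ⟨x, -, rfl⟩ := mem_image.1 hf
    obtain ⟨hp1, -⟩ := hpos x.1 x.2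
    filter_upwards [eventually_ge_atTop (16 * ((H x.1 x.2).2.natAbs + 2))] with N hN m hm
    have h1 : (N : ℝ) ≤ 16 * m := by linarith
    have h2 : N ≤ 16 * m := by exact_mod_cast h1
    have h3 : (H x.1 x.2).2.natAbs + 2 ≤ m := by omega
    have h4 : (m : ℤ) ≤ (H x.1 x.2).1 * m := le_mul_of_one_le_left (Nat.cast_nonneg _) hp1
    omega
  filter_upwards [H1, hA, hlog, eventually_ge_atTop (32 * X₀ + 2000), hbigev] with N hN hAN hNl hNb
    hNpos2 G₁ hG₁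
  have hN1 : 1 ≤ N := by omega
  have hNr : (0 : ℝ) < N := by exact_mod_cast hN1
  have hL1 : 1 ≤ Real.log N := log_ge_one (by omega)
  obtain ⟨s, S, σ, hs, hSG, hs1, hs2, hS, hcard⟩ := hN H hinj
    (fun g i => hAN _ (mem_image.2 ⟨(g, i), mem_univ _, rfl⟩)) hloc G₁ hG₁
  refine ⟨S, σ, hSG, hS, QNP_len (l' := l) (le_max_left _ _) ?_⟩
  have hCss : Cs s := ⟨hs1, hs2⟩
  obtain ⟨As, hAs⟩ : ∃ As : Set ℕ, ∀ m, m ∈ As ↔ m ∈ Rs2 H δ s S σ N :=
    ⟨{m | m ∈ Rs2 H δ s S σ N}, fun m => Iff.rfl⟩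
  have hrough : ∀ m ∈ As, (∀ p : ℕ, p.Prime →
        (p : ℤ) ∣ (m : ℤ) - s → (m : ℝ) ^ (1 / (rf s : ℝ)) < (p : ℝ)) ∧ ∀ g i, ∀ p : ℕ, p.Prime →
        (p : ℤ) ∣ (H g i).1 * m + (H g i).2 → (m : ℝ) ^ (1 / (rf s : ℝ)) < (p : ℝ) := by
    intro m hm
    have hm' : m ∈ Rs2 H δ s S σ N := (hAs m).1 hm
    unfold Rs2 at hm'
    obtain ⟨h4, h5, h6, h7, -⟩ := mem_filter.1 hm'
    rw [mem_Icc] at h4
    have hrr : 1 / (rf s : ℝ) ≤ δ := by
      have h8 := hrf s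
      have h9 : (0 : ℝ) < rf s := lt_of_lt_of_le (by positivity) h8
      rw [div_le_iff₀ h9]
      rw [div_le_iff₀ hδ] at h8
      linarith
    have hm1 : (1 : ℝ) ≤ m := by exact_mod_cast h4.1
    have hbig : ∀ p : ℕ, p.Prime → δ * Real.log N < Real.log p →
        (m : ℝ) ^ (1 / (rf s : ℝ)) < (p : ℝ) := by
      intro p hp h8
      have hpr : (0 : ℝ) < p := by exact_mod_cast hp.pos
      have h10 : 0 ≤ 1 / (rf s : ℝ) := by positivity
      rw [← Real.exp_log hpr, Real.rpow_def_of_pos (by linarith), Real.exp_lt_exp]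
      have h11 : Real.log m ≤ Real.log N :=
        Real.log_le_log (by linarith) (by exact_mod_cast h4.2)
      have h12 : 0 ≤ Real.log m := Real.log_nonneg hm1
      calc Real.log m * (1 / (rf s : ℝ)) ≤ Real.log N * δ :=
            mul_le_mul h11 hrr h10 (by linarith)
        _ < Real.log p := by linarith
    refine ⟨fun p hp hd => hbig p hp ?_, fun g i p hp hd => hbig p hp ?_⟩
    · by_contra h8
      exact h6 p hp (not_lt.1 h8) hd
    · by_contra h8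
      exact h7 g i p hp (not_lt.1 h8) hd
  -- one of the five intervals
  have hx5 : 32 * hf^[5] N ≤ N + 32 := hf_iter_hi N 5
  have hcov : (Rs2 H δ s S σ N).card ≤ ∑ j ∈ range 5,
      Pool.Agent.TH977.PW.N As (hf^[j + 1] N) (hf^[j] N) := by
    refine le_trans ?_ (cover_card As N 5)
    unfold Pool.Agent.TH977.PW.N
    apply card_le_card
    intro m hm
    have hm' := hm
    unfold Rs2 at hm'
    obtain ⟨h4, h5, -⟩ := mem_filter.1 hm'
    rw [mem_Icc] at h4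
    refine mem_filter.2 ⟨mem_Ioc.2 ⟨?_, h4.2⟩, (hAs m).2 hm⟩
    have h6 : (N : ℝ) ≤ 16 * m := by linarith
    have h7 : N ≤ 16 * m := by exact_mod_cast h6
    omega
  obtain ⟨j, hj, hjc⟩ : ∃ j < 5, c / 5 * (N / (Real.log N) ^ k) ≤
      (Pool.Agent.TH977.PW.N As (hf^[j + 1] N) (hf^[j] N) : ℝ) := by
    by_contra hcon
    push Not at hcon
    have h4 : ∑ j ∈ range 5, (Pool.Agent.TH977.PW.N As (hf^[j + 1] N) (hf^[j] N) : ℝ) <
        ∑ _j ∈ range 5, c / 5 * (N / (Real.log N) ^ k) :=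
      sum_lt_sum_of_nonempty ⟨0, by simp⟩ fun j hj => hcon j (mem_range.1 hj)
    rw [sum_const, card_range, nsmul_eq_mul] at h4
    have h5 := (Nat.cast_le (α := ℝ)).2 hcov
    push_cast at h5 h4
    linarith
  set X : ℕ := hf^[j + 1] N with hX
  have hXlo : N ≤ 2 ^ (j + 1) * X := hf_iter_lo N (j + 1)
  have hX32 : N ≤ 32 * X := by
    refine hXlo.trans (Nat.mul_le_mul_right _ ?_)
    calc 2 ^ (j + 1) ≤ 2 ^ 5 := Nat.pow_le_pow_right (by norm_num) (by omega)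
      _ = 32 := by norm_num
  have hXx : X = hf (hf^[j] N) := by rw [hX, Function.iterate_succ_apply']
  have hXj1 : hf^[j] N ≤ 2 * X := by rw [hXx]; unfold hf; omega
  have hXj2 : 2 * X ≤ hf^[j] N + 1 := by rw [hXx]; unfold hf; omega
  have hjN : hf^[j] N ≤ N := by
    have : ∀ i : ℕ, hf^[i] N ≤ N := by
      intro i
      induction i with
      | zero => simp
      | succ i ih =>
        rw [Function.iterate_succ_apply']
        have h4 : hf (hf^[i] N) ≤ hf^[i] N ∨ hf^[i] N = 0 ∧ hf (hf^[i] N) = 0 := by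
          unfold hf; omega
        omega
    exact this j
  set Y : ℕ := hf^[j] N - X with hY
  have hXY : X + Y = hf^[j] N := by omega
  have hX1 : 60 ≤ X := by omega
  have hXr : (60 : ℝ) ≤ X := by exact_mod_cast hX1
  have hYX : Y ≤ X := by omega
  have hYlo : X - 1 ≤ Y := by omega
  have hYr : (X : ℝ) ^ (1 / 2 : ℝ) ≤ Y := by
    rw [← Real.sqrt_eq_rpow]
    have h4 : (X : ℝ) ≤ Y + 1 := by exact_mod_cast (by omega : X ≤ Y + 1)
    have h5 : Real.sqrt X ≤ (X : ℝ) - 1 := by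
      rw [Real.sqrt_le_left (by linarith)]
      nlinarith
    linarith
  have hout := hX₀ X (by omega) s (mem_range.2 (by omega)) hCss Y hYr hYX As hrough
  rw [hXY] at hout
  have hYN : (Y : ℝ) ≤ N := by exact_mod_cast (by omega : Y ≤ N)
  have hXNr : (X : ℝ) ≤ N := by exact_mod_cast (by omega : X ≤ N)
  have hlX : Real.log N / 2 ≤ Real.log X := by
    have h4 : (N : ℝ) ≤ (X : ℝ) ^ 2 := by
      have h5 : (N : ℝ) ≤ 32 * X := by exact_mod_cast hX32
      nlinarith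
    have h6 := Real.log_le_log hNr h4
    rw [Real.log_pow] at h6
    push_cast at h6
    linarith
  have hlX0 : 0 < Real.log X := lt_of_lt_of_le (by linarith) hlX
  have hlXN : Real.log X ≤ Real.log N := Real.log_le_log (by linarith) hXNr
  have hout2 : ε * Y / Real.log X ^ k ≤ c / 10 * (N / (Real.log N) ^ k) := by
    have h4 : (Real.log N / 2) ^ k ≤ Real.log X ^ k := pow_le_pow_left₀ (by positivity) hlX k
    calc ε * Y / Real.log X ^ k ≤ ε * N / (Real.log N / 2) ^ k := by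
          apply div_le_div₀ (by positivity) _ (by positivity) h4
          exact mul_le_mul_of_nonneg_left hYN hε0.le
      _ = c / 10 * (N / (Real.log N) ^ k) := by
          rw [hε, div_pow]
          field_simp
  obtain ⟨P, hP⟩ : ∃ P : Set ℕ, P = {m | InProg As l (Real.log X ^ (Bf s)) X (hf^[j] N) m} :=
    ⟨_, rfl⟩
  have hin := inside As P l X (hf^[j] N) (Real.log X ^ (Bf s)) (fun m _ h => by rw [hP]; exact h)
  have hq0 : 0 < N / (Real.log N) ^ k := by positivity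
  obtain ⟨d, hd1, hdD, hdc⟩ := pig As P l X (hf^[j] N) N (Real.log X ^ (Bf s))
    (c / 10 * (N / (Real.log N) ^ k)) hjN (by positivity) (fun m hm => by rw [hP] at hm; exact hm)
    (by linarith)
  have hBs : Bf s ≤ B := single_le_sum (f := Bf) (fun _ _ => Nat.zero_le _) (mem_range.2 (by omega))
  have hlB : Real.log X ^ (Bf s) ≤ Real.log N ^ B :=
    (pow_le_pow_left₀ hlX0.le hlXN _).trans (pow_le_pow_right₀ hL1 hBs)
  refine ⟨d, hd1, hdD.trans (hlB.trans (pow_le_pow_right₀ hL1 (by omega))), ?_⟩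
  have hcnt : (((Icc 1 N).filter (fun u : ℕ => ∀ j < l, u + j * d ∈ As)).card : ℝ) ≤
      (cntN (δ / 2) (fun g => H g (σ g)) S l d N : ℝ) := by
    rw [Nat.cast_le]
    unfold cntN
    apply card_le_card
    intro u hu
    obtain ⟨hu1, hu2⟩ := mem_filter.1 hu
    refine mem_filter.2 ⟨hu1, fun j hj => ?_⟩
    have h4 : u + j * d ∈ Rs2 H δ s S σ N := (hAs _).1 (hu2 j hj)
    unfold Rs2 at h4
    obtain ⟨h5, h6, -, h7, h8, h9⟩ := mem_filter.1 h4
    refine ⟨fun i => isP2_of ?_ (h8 i) ?_, h9⟩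
    · exact hNpos2 _ (mem_image.2 ⟨(i, σ i), mem_univ _, rfl⟩) _ h6
    · intro p hp hd
      have hNr' : (1 : ℝ) < N := by exact_mod_cast (by omega : 1 < N)
      have hl0 : 0 < Real.log N := by linarith
      by_contra h10
      push Not at h10
      have hp0 : (0 : ℝ) < p := by exact_mod_cast hp.pos
      apply h7 i (σ i) p hp _ hd
      have h11 : Real.log p ≤ δ / 2 * Real.log N := by
        rw [← Real.log_rpow hNr]
        exact Real.log_le_log hp0 h10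
      have h12 : 0 < δ * Real.log N := by positivity
      linarith
  refine le_trans ?_ hcnt
  set cnt : ℝ := (((Icc 1 N).filter (fun u : ℕ => ∀ j < l, u + j * d ∈ As)).card : ℝ) with hcntd
  have hcnt0 : 0 ≤ cnt := Nat.cast_nonneg _
  have h4 : c / 10 * (N / (Real.log N) ^ k) ≤ l * Real.log N ^ B * cnt :=
    hdc.trans (mul_le_mul_of_nonneg_right (mul_le_mul_of_nonneg_left hlB hlr.le) hcnt0)
  have h5 : (l : ℝ) ≤ c / 10 * Real.log N := by
    rw [div_le_iff₀ hc] at hNl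
    linarith
  have h6 : c / 10 * (N / (Real.log N) ^ k) ≤ c / 10 * Real.log N * Real.log N ^ B * cnt := by
    refine h4.trans (mul_le_mul_of_nonneg_right (mul_le_mul_of_nonneg_right h5 (by positivity)) hcnt0)
  have h7 : (N : ℝ) / (Real.log N) ^ k ≤ Real.log N * Real.log N ^ B * cnt := by
    have h8 : c / 10 * (N / (Real.log N) ^ k) ≤ c / 10 * (Real.log N * Real.log N ^ B * cnt) := by
      linarith
    exact le_of_mul_le_mul_left h8 (by positivity)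
  rw [div_le_iff₀ (by positivity)] at h7 ⊢
  calc (N : ℝ) ≤ Real.log N * Real.log N ^ B * cnt * Real.log N ^ k := h7
    _ = cnt * Real.log N ^ (k + B + 1) := by ring

end Pool.Agent.Z296.AP
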