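import Mathlib
import Pool.Agent.Z296.AP.NarP
import Pool.Agent.Z296.AP.FinA

/-! Project AP (helper296): almost all tuples of linear forms take almost prime values, a positive
proportion of them prime, along narrow progressions. -/

set_option autoImplicit false

namespace Pool.Agent.Z296.AP

open Finset Filter Topology

/-- no set `S ⊆ I` of at least `5 |I| / 18` indices is good for all lengths -/
def BadN {T : ℕ} (δ : ℝ) (I : Finset (Fin T)) (f : Fin T → ℤ × ℤ) : Prop :=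
  ∀ S : Finset (Fin T), S ⊆ I → (5 / 18 : ℝ) * I.card ≤ S.card →
    ∃ l : ℕ, ∀ C : ℕ, ∀ᶠ N : ℕ in atTop, ¬ QNP δ l C N f S

theorem BadN_mono {T : ℕ} {δ δ' : ℝ} (h : δ ≤ δ') {I : Finset (Fin T)} {f : Fin T → ℤ × ℤ}
    (hb : BadN δ I f) : BadN δ' I f := by
  intro S h1 h2
  obtain ⟨l, hl⟩ := hb S h1 h2
  refine ⟨l, fun C => ?_⟩
  filter_upwards [hl C, eventually_ge_atTop 1] with N hN hN1 h3
  exact hN (QNP_del hN1 h h3)

open Classical in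
theorem bad_count (T t M : ℕ) (hT : 1 ≤ T) (htT : t ≤ T) (hTM : (18 / 5 : ℝ) * M < t)
    (hM2 : (5 / 18 : ℝ) * t ≤ ((M + 1 : ℕ) : ℝ)) : ∃ (δ η C : ℝ), 0 < δ ∧ 0 < η ∧ η ≤ 1 / 2 ∧ 1 ≤ C ∧
    ∀ V : Finset (ℤ × ℤ), (∀ f ∈ V, 1 ≤ f.1) → ∀ I : Finset (Fin T), I.card = t →
      (((Fintype.piFinset (fun _ : Fin T => V)).filter (fun f => AdmT f ∧ BadN δ I f)).card : ℝ) ≤
        C * (V.card : ℝ) ^ ((T : ℝ) - η) := by
  obtain ⟨K, hK, δ, hδ, H⟩ := narP T t M htT hTM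
  obtain ⟨W, hWd⟩ : ∃ W : ℕ, W = (T * K).factorial := ⟨_, rfl⟩
  have hW0 : W ≠ 0 := by rw [hWd]; exact Nat.factorial_ne_zero _
  haveI : NeZero W := ⟨hW0⟩
  obtain ⟨C, hC, HC⟩ := count_res T K (W * W) hT hK
  have hη1 : 1 / (2 * (K : ℝ) ^ T) ≤ 1 / 2 := by
    apply one_div_le_one_div_of_le (by norm_num)
    have : (1 : ℝ) ≤ (K : ℝ) ^ T := one_le_pow₀ (by exact_mod_cast hK)
    linarith
  refine ⟨δ / 2, 1 / (2 * (K : ℝ) ^ T), C, by positivity, ?_, hη1, hC, ?_⟩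
  · have : (0 : ℝ) < K := by exact_mod_cast hK
    positivity
  intro V hV I hI
  refine le_trans (le_of_eq ?_) (HC (ℤ × ℤ) (ZMod W × ZMod W)
      (fun f => (((f.1 : ℤ) : ZMod W), ((f.2 : ℤ) : ZMod W))) (by
        rw [Fintype.card_prod, ZMod.card]) V
      (fun f => AdmT f ∧ BadN (δ / 2) I f) ?_)
  · congr!
  rintro ⟨F, hF1, hF2, hF3, hF4⟩
  have hK0 : 0 < K := hK
  have hL : ∀ (σ : Fin T → Fin K) (S : Finset (Fin T)), ∃ l : ℕ, S ⊆ I →
      (5 / 18 : ℝ) * I.card ≤ S.card → ∀ C : ℕ, ∀ᶠ N : ℕ in atTop,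
        ¬ QNP (δ / 2) l C N (fun g => F g (σ g)) S := by
    intro σ S
    by_cases h : S ⊆ I ∧ (5 / 18 : ℝ) * I.card ≤ S.card
    · obtain ⟨l, hl⟩ := (hF4 σ).2 S h.1 h.2
      exact ⟨l, fun _ _ => hl⟩
    · exact ⟨0, fun h1 h2 => absurd ⟨h1, h2⟩ h⟩
  choose L hL using hL
  obtain ⟨l, hl⟩ : ∃ l : ℕ, ∀ σ S, L σ S ≤ l := by
    refine ⟨∑ σ, ∑ S, L σ S, fun σ S => ?_⟩
    exact (Finset.single_le_sum (f := fun S => L σ S) (fun _ _ => Nat.zero_le _) (mem_univ S)).trans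
      (Finset.single_le_sum (f := fun σ => ∑ S, L σ S) (fun _ _ => Nat.zero_le _) (mem_univ σ))
  obtain ⟨B, hB⟩ := H F hF2 (fun g i => by
      have h1 := hV _ (hF1 g i)
      refine ⟨by omega, ?_⟩
      exact admT_cop (hF4 (fun _ => i)).1 g) (by
      intro p hp hpT
      obtain ⟨r, hr⟩ := (hF4 (fun _ => ⟨0, hK0⟩)).1 p hp
      refine ⟨r, fun g i h => hr g ?_⟩
      have h1 := hF3 g i ⟨0, hK0⟩
      rw [Prod.mk.injEq] at h1
      exact dvd_res (z := T * K) (W := W) (fun p hp hpz => by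
        rw [hWd]; exact Nat.dvd_factorial hp.pos hpz) h1.1 h1.2 hp hpT h) l
  have hall : ∀ᶠ N : ℕ in atTop, ∀ (σ : Fin T → Fin K) (S : Finset (Fin T)), S ⊆ I →
      (5 / 18 : ℝ) * I.card ≤ S.card → ¬ QNP (δ / 2) (L σ S) B N (fun g => F g (σ g)) S := by
    rw [Filter.eventually_all]
    intro σ
    rw [Filter.eventually_all]
    intro S
    by_cases h : S ⊆ I ∧ (5 / 18 : ℝ) * I.card ≤ S.card
    · filter_upwards [hL σ S h.1 h.2 B] with N hN _ _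
      exact hN
    · exact Filter.Eventually.of_forall fun N h1 h2 => absurd ⟨h1, h2⟩ h
  obtain ⟨N, hN1, hN2⟩ := (hB.and hall).exists
  obtain ⟨S, σ, h1, h2, h3⟩ := hN1 I hI
  refine hN2 σ S h1 ?_ (QNP_len (hl σ S) h3)
  rw [hI]
  exact hM2.trans (by exact_mod_cast h2)

open Classical in
/-- **almost all tuples, narrow progressions** -/
theorem finN (k : ℕ) (hk : 1 ≤ k) : ∃ (δ η C : ℝ), 0 < δ ∧ 0 < η ∧
    ∀ V : Finset (ℤ × ℤ), (∀ f ∈ V, 1 ≤ f.1) →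
      ({f : Fin k → ℤ × ℤ | (∀ i, f i ∈ V) ∧ AdmT f ∧ ∃ I : Finset (Fin k), I.Nonempty ∧
        BadN δ I f}.ncard : ℝ) ≤ C * (V.card : ℝ) ^ ((k : ℝ) - η) := by
  have h0 : ∀ t : Fin k, ∃ (δ η C : ℝ), 0 < δ ∧ 0 < η ∧ η ≤ 1 / 2 ∧ 1 ≤ C ∧
    ∀ V : Finset (ℤ × ℤ), (∀ f ∈ V, 1 ≤ f.1) → ∀ I : Finset (Fin k), I.card = (t : ℕ) + 1 →
      (((Fintype.piFinset (fun _ : Fin k => V)).filter (fun f => AdmT f ∧ BadN δ I f)).card : ℝ) ≤
        C * (V.card : ℝ) ^ ((k : ℝ) - η) := by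
    intro t
    obtain ⟨M, hM⟩ : ∃ M : ℕ, M + 1 = ⌈(5 / 18 : ℝ) * (((t : ℕ) + 1 : ℕ) : ℝ)⌉₊ := by
      have : 0 < ⌈(5 / 18 : ℝ) * (((t : ℕ) + 1 : ℕ) : ℝ)⌉₊ := Nat.ceil_pos.2 (by positivity)
      exact ⟨⌈(5 / 18 : ℝ) * (((t : ℕ) + 1 : ℕ) : ℝ)⌉₊ - 1, by omega⟩
    apply bad_count k ((t : ℕ) + 1) M hk t.2
    · have h1 : (M : ℝ) < (5 / 18 : ℝ) * (((t : ℕ) + 1 : ℕ) : ℝ) := by
        rw [← Nat.lt_ceil]
        omega
      linarith
    · rw [hM]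
      exact Nat.le_ceil _
  choose df ef Cf hd he he1 hCf hf using h0
  obtain ⟨t1, -, ht1⟩ := Finset.exists_min_image (univ : Finset (Fin k)) df ⟨⟨0, hk⟩, mem_univ _⟩
  obtain ⟨t2, -, ht2⟩ := Finset.exists_min_image (univ : Finset (Fin k)) ef ⟨⟨0, hk⟩, mem_univ _⟩
  obtain ⟨t3, -, ht3⟩ := Finset.exists_max_image (univ : Finset (Fin k)) Cf ⟨⟨0, hk⟩, mem_univ _⟩
  refine ⟨df t1, ef t2, 2 ^ k * Cf t3, hd _, he _, ?_⟩
  intro V hV
  have hkr : (1 : ℝ) ≤ k := by exact_mod_cast hk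
  have hpow : ∀ t, (V.card : ℝ) ^ ((k : ℝ) - ef t) ≤ (V.card : ℝ) ^ ((k : ℝ) - ef t2) := by
    intro t
    rcases Nat.eq_zero_or_pos V.card with h0 | h0
    · rw [h0, Nat.cast_zero, Real.zero_rpow (by have := he1 t; linarith),
        Real.zero_rpow (by have := he1 t2; linarith)]
    · apply Real.rpow_le_rpow_of_exponent_le (by exact_mod_cast h0)
      have := ht2 t (mem_univ _)
      linarith
  have hG : ∀ I : Finset (Fin k), I.Nonempty →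
      (((Fintype.piFinset (fun _ : Fin k => V)).filter (fun f => AdmT f ∧
        BadN (df t1) I f)).card : ℝ) ≤ Cf t3 * (V.card : ℝ) ^ ((k : ℝ) - ef t2) := by
    intro I hI
    have hc1 : 1 ≤ I.card := hI.card_pos
    have hc2 : I.card ≤ k := by
      have := card_le_univ I
      rwa [Fintype.card_fin] at this
    obtain ⟨t, ht⟩ : ∃ t : Fin k, I.card = (t : ℕ) + 1 := ⟨⟨I.card - 1, by omega⟩, by simp only; omega⟩
    refine le_trans ?_ ((hf t V hV I ht).trans ?_)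
    · rw [Nat.cast_le]
      apply card_le_card
      intro f hf
      rw [mem_filter] at hf ⊢
      exact ⟨hf.1, hf.2.1, BadN_mono (ht1 t (mem_univ _)) hf.2.2⟩
    · exact mul_le_mul (ht3 t (mem_univ _)) (hpow t) (Real.rpow_nonneg (Nat.cast_nonneg _) _)
        (by have := hCf t3; linarith)
  have hsub : {f : Fin k → ℤ × ℤ | (∀ i, f i ∈ V) ∧ AdmT f ∧ ∃ I : Finset (Fin k), I.Nonempty ∧
        BadN (df t1) I f} ⊆ ((((univ : Finset (Finset (Fin k))).filter (fun I => I.Nonempty)).biUnion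
        (fun I => (Fintype.piFinset (fun _ : Fin k => V)).filter (fun f => AdmT f ∧
        BadN (df t1) I f)) : Finset (Fin k → ℤ × ℤ)) : Set (Fin k → ℤ × ℤ)) := by
    rintro f ⟨h1, h2, I, h3, h4⟩
    rw [mem_coe, mem_biUnion]
    refine ⟨I, mem_filter.2 ⟨mem_univ _, h3⟩, mem_filter.2 ⟨?_, h2, h4⟩⟩
    rw [Fintype.mem_piFinset]
    exact h1
  have h1 := Set.ncard_le_ncard hsub (Finset.finite_toSet _)
  rw [Set.ncard_coe_finset] at h1
  have h2 := (Nat.cast_le (α := ℝ)).2 (h1.trans card_biUnion_le)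
  refine h2.trans ?_
  rw [Nat.cast_sum]
  refine (Finset.sum_le_sum fun I hI => hG I (mem_filter.1 hI).2).trans ?_
  rw [Finset.sum_const, nsmul_eq_mul, mul_assoc]
  apply mul_le_mul_of_nonneg_right
  · have h2 := card_filter_le (univ : Finset (Finset (Fin k))) (fun I => I.Nonempty)
    rw [Finset.card_univ, Fintype.card_finset, Fintype.card_fin] at h2
    exact_mod_cast h2
  · exact mul_nonneg (by have := hCf t3; linarith) (Real.rpow_nonneg (Nat.cast_nonneg _) _)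

end Pool.Agent.Z296.AP
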